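import Mathlib

/-! The key algebraic lemma: a primitive vector in a cone. -/

namespace Pool.Agent.Helper70.OD

open Module

theorem nt {a b d : ℤ} (hd : 0 < d) (hb : b ≠ 0) {p : ℕ} (hpd : (p : ℤ) ∣ d)
    (hab : ¬ ((p : ℤ) ∣ a ∧ (p : ℤ) ∣ b)) (n0 : ℕ) :
    ∃ n ≥ n0, ∃ s t : ℤ, 0 < s * (n * d + a) + t * b ∧ s * (n * d + a) + t * b < d := by
  classical
  obtain ⟨g, hg0, a', b', d', ha', hb', hd', hco⟩ : ∃ g : ℤ, 0 < g ∧ ∃ a' b' d' : ℤ,
      a = g * a' ∧ b = g * b' ∧ d = g * d' ∧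
      ∀ q : ℕ, q.Prime → (q : ℤ) ∣ a' → (q : ℤ) ∣ b' → (q : ℤ) ∣ d' → False := by
    set G : ℕ := Int.gcd (Int.gcd a b) d with hG
    have hGpos : 0 < G := Int.gcd_pos_of_ne_zero_right _ hd.ne'
    have h1 : (G : ℤ) ∣ (Int.gcd a b : ℤ) := Int.gcd_dvd_left _ _
    have h2 : (G : ℤ) ∣ d := Int.gcd_dvd_right _ _
    have h3 : (G : ℤ) ∣ a := h1.trans (Int.gcd_dvd_left _ _)
    have h4 : (G : ℤ) ∣ b := h1.trans (Int.gcd_dvd_right _ _)
    obtain ⟨a', ha'⟩ := h3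
    obtain ⟨b', hb'⟩ := h4
    obtain ⟨d', hd'⟩ := h2
    refine ⟨G, by exact_mod_cast hGpos, a', b', d', ha', hb', hd', ?_⟩
    intro q hq h5 h6 h7
    have h8 : ((G * q : ℕ) : ℤ) ∣ (Int.gcd (Int.gcd a b) d : ℤ) := by
      refine Int.dvd_coe_gcd (Int.dvd_coe_gcd ?_ ?_) ?_
      · rw [ha']; push_cast; exact mul_dvd_mul_left _ h5
      · rw [hb']; push_cast; exact mul_dvd_mul_left _ h6
      · rw [hd']; push_cast; exact mul_dvd_mul_left _ h7
    rw [← hG] at h8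
    have h9 : G * q ∣ G := by exact_mod_cast h8
    have h10 : G * q ≤ G := Nat.le_of_dvd hGpos h9
    have := hq.two_le
    nlinarith
  have hb0 : b' ≠ 0 := by rintro rfl; exact hb (by rw [hb', mul_zero])
  -- choose n
  set N : ℕ := ∏ q ∈ b'.natAbs.primeFactors.filter (fun q : ℕ => ¬ (q : ℤ) ∣ a'), q with hN
  set n : ℕ := N + b'.natAbs * n0 with hn
  have hbn : 1 ≤ b'.natAbs := Int.natAbs_pos.2 hb0
  have hcop : IsCoprime (n * d' + a') b' := by
    rw [Int.isCoprime_iff_gcd_eq_one]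
    by_contra hne
    obtain ⟨q, hq, hqd⟩ := Nat.exists_prime_and_dvd hne
    have h1 : (q : ℤ) ∣ n * d' + a' := (Int.natCast_dvd_natCast.2 hqd).trans (Int.gcd_dvd_left _ _)
    have h2 : (q : ℤ) ∣ b' := (Int.natCast_dvd_natCast.2 hqd).trans (Int.gcd_dvd_right _ _)
    have h2' : q ∣ b'.natAbs := Int.natCast_dvd.1 h2
    by_cases h3 : (q : ℤ) ∣ a'
    · have h4 : (q : ℤ) ∣ n * d' := (dvd_add_left h3).1 h1
      rcases (Nat.prime_iff_prime_int.1 hq).dvd_or_dvd h4 with h5 | h5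
      · have h6 : q ∣ n := by exact_mod_cast h5
        have h7 : q ∣ N := (Nat.dvd_add_left (h2'.mul_right n0)).1 h6
        rw [hN, Prime.dvd_finsetProd_iff (Nat.prime_iff.1 hq)] at h7
        obtain ⟨q', hq', h8⟩ := h7
        rw [Finset.mem_filter, Nat.mem_primeFactors] at hq'
        have : q = q' := (Nat.prime_dvd_prime_iff_eq hq hq'.1.1).1 h8
        subst this
        exact hq'.2 h3
      · exact hco q hq h3 h2 h5
    · have h4 : q ∣ N := by
        rw [hN]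
        refine Finset.dvd_prod_of_mem (fun q => q) ?_
        rw [Finset.mem_filter, Nat.mem_primeFactors]
        exact ⟨⟨hq, h2', by omega⟩, h3⟩
      have h5 : q ∣ n := dvd_add h4 (h2'.mul_right n0)
      have h6 : (q : ℤ) ∣ n * d' := (Int.natCast_dvd_natCast.2 h5).mul_right _
      exact h3 ((dvd_add_right h6).1 h1)
  obtain ⟨s, t, hst⟩ := hcop
  refine ⟨n, ?_, s, t, ?_, ?_⟩
  · have : n0 ≤ b'.natAbs * n0 := Nat.le_mul_of_pos_left _ hbn
    omega
  all_goals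
    have key : s * (n * d + a) + t * b = g := by
      rw [ha', hb', hd']; linear_combination g * hst
    rw [key]
  · exact hg0
  · have hle : g ≤ d := Int.le_of_dvd hd ⟨d', hd'⟩
    refine lt_of_le_of_ne hle ?_
    intro h
    exact hab ⟨hpd.trans (h ▸ ⟨a', ha'⟩), hpd.trans (h ▸ ⟨b', hb'⟩)⟩

variable {V : Type*} [AddCommGroup V] [Module ℚ V]

theorem tf_int : Module.IsTorsionFree ℤ V := by
  have h : IsAddTorsionFree V := IsAddTorsionFree.of_module_rat (M := V)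
  infer_instance

/-- Integral linear maps extend to rational linear maps. -/
theorem ext_rat {V' : Type*} [AddCommGroup V'] [Module ℚ V'] (L : Submodule ℤ V) (hL : L.FG)
    (f : L →ₗ[ℤ] V') : ∃ F : V →ₗ[ℚ] V', ∀ l : L, F l = f l := by
  have := tf_int (V := V)
  have : Module.Finite ℤ L := Module.Finite.iff_fg.2 hL
  obtain ⟨n, b⟩ : Σ n, Basis (Fin n) ℤ L := Module.basisOfFiniteTypeTorsionFree'
  have h1 : LinearIndependent ℤ (fun i => (b i : V)) :=
    b.linearIndependent.map' L.subtype (LinearMap.ker_eq_bot.2 (Subtype.val_injective))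
  have h2 : LinearIndependent ℚ (fun i => (b i : V)) :=
    (LinearIndependent.iff_fractionRing ℤ ℚ).1 h1
  obtain ⟨F, hF⟩ := LinearMap.exists_extend ((Basis.span h2).constr ℚ (fun i => f (b i)))
  refine ⟨F, ?_⟩
  have h3 : (F.restrictScalars ℤ) ∘ₗ L.subtype = f := by
    refine b.ext fun i => ?_
    have h4 : F (b i : V) = ((Basis.span h2).constr ℚ (fun i => f (b i))) (Basis.span h2 i) := by
      rw [← hF]
      simp only [LinearMap.coe_comp, Submodule.coe_subtype, Function.comp_apply]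
      congr 1
      exact (congrArg Subtype.val (Basis.span_apply h2 i)).symm ▸ rfl
    simp only [LinearMap.coe_comp, Submodule.coe_subtype, Function.comp_apply,
      LinearMap.coe_restrictScalars]
    rw [h4, Basis.constr_basis]
  intro l
  exact LinearMap.congr_fun h3 l

/-- A pure submodule of large rank is not divisible modulo a submodule of small rank. -/
theorem not_dvd (Λ : Submodule ℤ V) (hΛ : Λ.FG) (X U : Submodule ℚ V)
    [FiniteDimensional ℚ X] [FiniteDimensional ℚ U]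
    (hX : ∀ v ∈ X, ∃ n : ℤ, n ≠ 0 ∧ n • v ∈ Λ) (hdim : finrank ℚ U < finrank ℚ X)
    {p : ℕ} (hp : p.Prime) :
    ∃ μ ∈ Λ, μ ∈ X ∧ ∀ ν ∈ Λ, ∀ l ∈ Λ, l ∈ U → μ ≠ (p : ℤ) • ν + l := by
  classical
  by_contra hcon
  push Not at hcon
  have := tf_int (V := V)
  have hfin : Module.Finite ℤ Λ := Module.Finite.iff_fg.2 hΛ
  let M' : Submodule ℤ Λ := (X.restrictScalars ℤ).comap Λ.subtype
  have hM' : ∀ l : Λ, l ∈ M' ↔ (l : V) ∈ X := fun l => Iff.rfl
  have htf : Module.IsTorsionFree ℤ (Λ ⧸ M') := by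
    refine ⟨fun n hn x y hxy => ?_⟩
    have hn0 : n ≠ 0 := by
      rintro rfl
      exact absurd hn.1 (by
        intro h
        have := h (show (0 : ℤ) * 1 = 0 * 0 by simp)
        simp at this)
    obtain ⟨x, rfl⟩ := Submodule.Quotient.mk_surjective _ x
    obtain ⟨y, rfl⟩ := Submodule.Quotient.mk_surjective _ y
    simp only at hxy
    rw [← Submodule.Quotient.mk_smul, ← Submodule.Quotient.mk_smul, Submodule.Quotient.eq,
      ← smul_sub, hM'] at hxy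
    rw [Submodule.Quotient.eq, hM']
    have h1 : ((n • (x - y) : Λ) : V) = (n : ℚ) • ((x - y : Λ) : V) := by
      rw [Submodule.coe_smul, Int.cast_smul_eq_zsmul]
    rw [h1] at hxy
    exact (X.smul_mem_iff (by exact_mod_cast hn0)).1 hxy
  obtain ⟨s, hs⟩ := Module.projective_lifting_property M'.mkQ (LinearMap.id)
    (Submodule.mkQ_surjective M')
  let q : Λ →ₗ[ℤ] Λ := LinearMap.id - s ∘ₗ M'.mkQ
  have hq1 : ∀ l, q l ∈ M' := by
    intro l
    rw [← Submodule.Quotient.mk_eq_zero, ← Submodule.mkQ_apply]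
    have : M'.mkQ (s (M'.mkQ l)) = M'.mkQ l := LinearMap.congr_fun hs (M'.mkQ l)
    simp only [q, LinearMap.sub_apply, LinearMap.id_coe, id_eq, LinearMap.coe_comp,
      Function.comp_apply, map_sub, this, sub_self]
  have hq2 : ∀ l ∈ M', q l = l := by
    intro l hl
    have : M'.mkQ l = 0 := by
      rw [Submodule.mkQ_apply, Submodule.Quotient.mk_eq_zero]; exact hl
    simp only [q, LinearMap.sub_apply, LinearMap.id_coe, id_eq, LinearMap.coe_comp,
      Function.comp_apply, this, map_zero, sub_zero]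
  let L0 : Submodule ℤ Λ := (U.restrictScalars ℤ).comap Λ.subtype
  let N : Submodule ℤ Λ := L0.map q
  have hMfg : M'.FG := IsNoetherian.noetherian M'
  have hle : M' ≤ N ⊔ (Ideal.span {(p : ℤ)}) • M' := by
    intro μ hμ
    obtain ⟨ν, hν, l, hl, hlU, hμe⟩ := hcon μ μ.2 hμ
    have h1 : μ = (p : ℤ) • (⟨ν, hν⟩ : Λ) + ⟨l, hl⟩ := Subtype.ext hμe
    have h2 : μ = (p : ℤ) • q ⟨ν, hν⟩ + q ⟨l, hl⟩ := by
      rw [← map_smul, ← map_add, ← h1, hq2 μ hμ]
    rw [h2]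
    refine Submodule.add_mem _ (Submodule.mem_sup_right ?_) (Submodule.mem_sup_left ?_)
    · exact Submodule.smul_mem_smul (Ideal.mem_span_singleton_self _) (hq1 _)
    · exact ⟨⟨l, hl⟩, hlU, rfl⟩
  obtain ⟨a, ha1, ha2⟩ := Submodule.exists_sub_one_mem_and_smul_le_of_fg_of_le_sup hMfg le_rfl hle
  have ha0 : a ≠ 0 := by
    rintro rfl
    rw [Ideal.mem_span_singleton] at ha1
    have h1 : (p : ℤ) ∣ 1 := by
      have := (dvd_neg (a := (p : ℤ)) (b := 0 - 1)).2 ha1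
      simpa using this
    have h2 : p ∣ 1 := by exact_mod_cast h1
    exact hp.one_lt.ne' (Nat.dvd_one.1 h2)
  obtain ⟨F, hF⟩ := ext_rat Λ hΛ (Λ.subtype ∘ₗ q)
  have hXU : X ≤ U.map F := by
    intro v hv
    obtain ⟨n, hn0, hn⟩ := hX v hv
    have h1 : (⟨n • v, hn⟩ : Λ) ∈ M' := by
      rw [hM']
      simp only
      rw [← Int.cast_smul_eq_zsmul ℚ]
      exact X.smul_mem _ hv
    have h2 : a • (⟨n • v, hn⟩ : Λ) ∈ N := ha2 (Submodule.smul_mem_pointwise_smul _ a M' h1)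
    obtain ⟨l, hl, hle⟩ := h2
    have h3 : F (l : V) = ((a * n : ℤ) : ℚ) • v := by
      rw [hF]
      simp only [LinearMap.coe_comp, Submodule.coe_subtype, Function.comp_apply, hle]
      rw [Submodule.coe_smul, Int.cast_smul_eq_zsmul, mul_smul]
    have h4 : ((a * n : ℤ) : ℚ) ≠ 0 := by exact_mod_cast mul_ne_zero ha0 hn0
    refine ⟨(((a * n : ℤ) : ℚ))⁻¹ • (l : V), U.smul_mem _ hl, ?_⟩
    rw [map_smul, h3, smul_smul, inv_mul_cancel₀ h4, one_smul]
  have h1 := Submodule.finrank_mono hXU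
  have h2 := Submodule.finrank_map_le F U
  omega

/-- integral dual basis -/
theorem dual_basis (L : Submodule ℤ V) (hL : L.FG) :
    ∃ n : ℕ, ∃ e : Fin n → V, ∃ θ : Fin n → V →ₗ[ℚ] ℚ, (∀ i, e i ∈ L) ∧
      (∀ i, ∀ l ∈ L, ∃ z : ℤ, θ i l = z) ∧ ∀ l ∈ L, l = ∑ i, θ i l • e i := by
  have := tf_int (V := V)
  have : Module.Finite ℤ L := Module.Finite.iff_fg.2 hL
  obtain ⟨n, b⟩ : Σ n, Basis (Fin n) ℤ L := Module.basisOfFiniteTypeTorsionFree'
  let f : Fin n → (L →ₗ[ℤ] ℚ) := fun i => (Algebra.linearMap ℤ ℚ) ∘ₗ (b.coord i)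
  choose θ hθ using fun i => ext_rat L hL (f i)
  refine ⟨n, fun i => b i, θ, fun i => (b i).2, fun i l hl => ⟨b.coord i ⟨l, hl⟩, ?_⟩,
    fun l hl => ?_⟩
  · rw [hθ i ⟨l, hl⟩]; simp [f]
  · have h1 := b.sum_repr ⟨l, hl⟩
    have h2 := congrArg Subtype.val h1
    simp only [AddSubmonoidClass.coe_finsetSum, Submodule.coe_smul] at h2
    rw [← h2]
    refine Finset.sum_congr rfl fun i _ => ?_
    rw [h2, hθ i ⟨l, hl⟩]
    simp [f, Int.cast_smul_eq_zsmul]

theorem kill_exists {ι : Type*} [Fintype ι] (U : Submodule ℚ V) [FiniteDimensional ℚ U]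
    (x : ι → V) (hx : LinearIndependent ℚ (fun i => U.mkQ (x i)))
    (hcard : finrank ℚ U + 2 ≤ Fintype.card ι)
    (Λ : Submodule ℤ V) (hΛ : Λ.FG) (hxΛ : ∀ i, x i ∈ Λ) (r : V →ₗ[ℚ] ℚ)
    (α : ι → ℚ) (hα : ∀ i, 0 < α i) (hr : ∑ i, α i * r (x i) = 0) :
    ∃ k ∈ Λ, ∃ θ : V →ₗ[ℚ] ℚ, (∀ u ∈ U, θ u = 0) ∧ (∀ l ∈ Λ, ∃ z : ℤ, θ l = z) ∧ θ k = 1 ∧
      r k = 0 ∧ ∃ β : ι → ℚ, (∀ i, 0 < β i) ∧ k = ∑ i, β i • x i := by
  classical
  let f : (ι → ℚ) →ₗ[ℚ] V := Fintype.linearCombination ℚ x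
  have hf : ∀ c, f c = ∑ i, c i • x i := fun c => rfl
  let π : V →ₗ[ℚ] (V ⧸ U) := U.mkQ
  -- c ↦ π (f c) is injective
  have hinj : ∀ c, π (f c) = 0 → c = 0 := by
    intro c hc
    rw [hf, map_sum] at hc
    simp only [map_smul] at hc
    have := Fintype.linearIndependent_iff.1 hx c hc
    exact funext this
  have hfi : Function.Injective f := by
    rw [injective_iff_map_eq_zero]
    intro c hc
    exact hinj c (by rw [hc, map_zero])
  let X : Submodule ℚ V := (LinearMap.ker (r ∘ₗ f)).map f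
  have hXmem : ∀ v, v ∈ X ↔ ∃ c, r (f c) = 0 ∧ f c = v := by
    intro v
    simp only [X, Submodule.mem_map, LinearMap.mem_ker, LinearMap.coe_comp, Function.comp_apply]
  have hXdim : finrank ℚ U < finrank ℚ X := by
    have h1 : finrank ℚ X = finrank ℚ (LinearMap.ker (r ∘ₗ f)) :=
      (LinearEquiv.finrank_eq (Submodule.equivMapOfInjective f hfi _)).symm
    have h2 := LinearMap.finrank_range_add_finrank_ker (r ∘ₗ f)
    have h3 : finrank ℚ (LinearMap.range (r ∘ₗ f)) ≤ 1 := by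
      have := Submodule.finrank_le (LinearMap.range (r ∘ₗ f))
      simpa using this
    rw [Module.finrank_fintype_fun_eq_card] at h2
    omega
  -- clearing denominators
  have hclear : ∀ c : ι → ℚ, ∃ n : ℕ, 0 < n ∧ f ((n : ℚ) • c) ∈ Λ := by
    intro c
    refine ⟨∏ i, (c i).den, Finset.prod_pos fun i _ => (c i).den_pos, ?_⟩
    rw [hf]
    refine Submodule.sum_mem _ fun i _ => ?_
    have h1 : ∃ z : ℤ, ((∏ i, (c i).den : ℕ) : ℚ) * c i = z := by
      refine ⟨(∏ j ∈ Finset.univ.erase i, (c j).den : ℕ) * (c i).num, ?_⟩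
      rw [← Finset.mul_prod_erase Finset.univ (fun i => (c i).den) (Finset.mem_univ i)]
      push_cast
      have h2 : ((c i).den : ℚ) * c i = (c i).num := Rat.den_mul_eq_num (c i)
      linear_combination (∏ j ∈ Finset.univ.erase i, ((c j).den : ℚ)) * h2
    obtain ⟨z, hz⟩ := h1
    have h2 : ((((∏ i, (c i).den : ℕ) : ℚ) • c) i) • x i = z • x i := by
      rw [Pi.smul_apply, smul_eq_mul, hz, Int.cast_smul_eq_zsmul]
    rw [h2]
    exact Λ.smul_mem z (hxΛ i)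
  let L : Submodule ℤ (V ⧸ U) := Λ.map (π.restrictScalars ℤ)
  have hLfg : L.FG := hΛ.map _
  have hLmem : ∀ v ∈ Λ, π v ∈ L := fun v hv => ⟨v, hv, rfl⟩
  let Θ : Set ((V ⧸ U) →ₗ[ℚ] ℚ) := {θ | ∀ l ∈ L, ∃ z : ℤ, θ l = z}
  obtain ⟨n, e, η, heL, hη, hηe⟩ := dual_basis L hLfg
  have hηΘ : ∀ i, η i ∈ Θ := hη
  have hsep : ∀ l ∈ L, l ≠ 0 → ∃ θ ∈ Θ, θ l ≠ 0 := by
    intro l hl hl0
    by_contra hcon
    push Not at hcon
    refine hl0 ?_
    rw [hηe l hl]
    exact Finset.sum_eq_zero fun i _ => by rw [hcon _ (hηΘ i), zero_smul]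
  have hcomb : ∀ θ₁ ∈ Θ, ∀ θ₂ ∈ Θ, ∀ s t : ℤ, (s : ℚ) • θ₁ + (t : ℚ) • θ₂ ∈ Θ := by
    intro θ₁ h1 θ₂ h2 s t l hl
    obtain ⟨z1, hz1⟩ := h1 l hl
    obtain ⟨z2, hz2⟩ := h2 l hl
    refine ⟨s * z1 + t * z2, ?_⟩
    simp only [LinearMap.add_apply, LinearMap.smul_apply, hz1, hz2, smul_eq_mul]
    push_cast; ring
  -- admissible pairs
  let D : ℕ → Prop := fun d => 0 < d ∧ ∃ c : ι → ℚ, (∀ i, 0 < c i) ∧ f c ∈ Λ ∧ r (f c) = 0 ∧
    ∃ θ ∈ Θ, θ (π (f c)) = (d : ℚ)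
  have hι : Nonempty ι := by
    rw [← Fintype.card_pos_iff]; omega
  have hD : ∃ d, D d := by
    obtain ⟨m, hm, hmΛ⟩ := hclear α
    have hc0 : π (f ((m : ℚ) • α)) ≠ 0 := by
      intro h
      have := congrFun (hinj _ h) (Classical.arbitrary ι)
      simp only [Pi.smul_apply, smul_eq_mul, Pi.zero_apply, mul_eq_zero, Nat.cast_eq_zero] at this
      rcases this with h | h
      · omega
      · exact (hα _).ne' h
    have hr0 : r (f ((m : ℚ) • α)) = 0 := by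
      rw [map_smul, map_smul, hf, map_sum]
      simp only [map_smul, smul_eq_mul, hr, mul_zero]
    have hpos : ∀ i, 0 < ((m : ℚ) • α) i := by
      intro i
      simp only [Pi.smul_apply, smul_eq_mul]
      exact mul_pos (by exact_mod_cast hm) (hα i)
    obtain ⟨θ, hθ, hθ0⟩ := hsep _ (hLmem _ hmΛ) hc0
    obtain ⟨z, hz⟩ := hθ _ (hLmem _ hmΛ)
    have hz0 : z ≠ 0 := by
      rintro rfl
      exact hθ0 (by rw [hz]; simp)
    refine ⟨z.natAbs, Int.natAbs_pos.2 hz0, _, hpos, hmΛ, hr0, ?_⟩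
    rcases lt_or_gt_of_ne hz0 with h | h
    · refine ⟨((-1 : ℤ) : ℚ) • θ + ((0 : ℤ) : ℚ) • θ, hcomb _ hθ _ hθ _ _, ?_⟩
      simp only [LinearMap.add_apply, LinearMap.smul_apply, hz, smul_eq_mul]
      have : ((z.natAbs : ℤ) : ℚ) = ((-z : ℤ) : ℚ) := by rw [Int.ofNat_natAbs_of_nonpos h.le]
      rw [Int.cast_natCast] at this
      rw [this]; push_cast; ring
    · refine ⟨θ, hθ, ?_⟩
      have : ((z.natAbs : ℤ) : ℚ) = ((z : ℤ) : ℚ) := by rw [Int.natAbs_of_nonneg h.le]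
      rw [Int.cast_natCast] at this
      rw [this, hz]
  obtain ⟨hd0, c, hc, hcΛ, hrc, θ₁, hθ₁, hθ₁c⟩ := Nat.find_spec hD
  have hmin : ∀ d', D d' → Nat.find hD ≤ d' := fun d' h => Nat.find_min' hD h
  generalize Nat.find hD = d at hd0 hθ₁c hmin
  -- minimality in integer form
  have hmin' : ∀ c' : ι → ℚ, (∀ i, 0 < c' i) → f c' ∈ Λ → r (f c') = 0 → ∀ θ ∈ Θ, ∀ z : ℤ,
      θ (π (f c')) = z → 0 < z → (d : ℤ) ≤ z := by
    intro c' h1 h2 h3 θ hθ z hz hz0
    have h4 : d ≤ z.natAbs := by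
      refine hmin _ ⟨Int.natAbs_pos.2 hz0.ne', c', h1, h2, h3, θ, hθ, ?_⟩
      rw [hz]
      have : ((z.natAbs : ℤ) : ℚ) = ((z : ℤ) : ℚ) := by rw [Int.natAbs_of_nonneg hz0.le]
      rw [Int.cast_natCast] at this
      rw [this]
    omega
  by_cases hd1 : d = 1
  · subst hd1
    refine ⟨f c, hcΛ, θ₁ ∘ₗ π, ?_, ?_, ?_, hrc, c, hc, hf c⟩
    · intro u hu
      have : π u = 0 := (Submodule.Quotient.mk_eq_zero U).2 hu
      simp [this]
    · intro l hl
      exact hθ₁ _ (hLmem l hl)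
    · simpa using hθ₁c
  exfalso
  obtain ⟨p, hp, hpd⟩ := Nat.exists_prime_and_dvd hd1
  have hdZ : (0 : ℤ) < d := by exact_mod_cast hd0
  have hdQ : (0 : ℚ) < d := by exact_mod_cast hd0
  -- all functionals are divisible by d at f c
  have hdiv : ∀ θ ∈ Θ, ∃ z : ℤ, θ (π (f c)) = z * d := by
    intro θ hθ
    obtain ⟨z, hz⟩ := hθ _ (hLmem _ hcΛ)
    by_cases hzd : (d : ℤ) ∣ z
    · obtain ⟨w, hw⟩ := hzd
      exact ⟨w, by rw [hz, hw]; push_cast; ring⟩
    exfalso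
    have h1 : 0 < z % d := by
      have h2 := Int.emod_nonneg z hdZ.ne'
      have h3 : z % d ≠ 0 := fun h => hzd (Int.dvd_of_emod_eq_zero h)
      omega
    have h2 : z % d < d := Int.emod_lt_of_pos z hdZ
    have h3 := hmin' c hc hcΛ hrc (((1 : ℤ) : ℚ) • θ + ((-(z / d) : ℤ) : ℚ) • θ₁)
      (hcomb _ hθ _ hθ₁ _ _) (z % d) (by
        simp only [LinearMap.add_apply, LinearMap.smul_apply, hz, hθ₁c, smul_eq_mul]
        have h4 : (z : ℚ) = ((d * (z / d) + z % d : ℤ) : ℚ) := by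
          rw [Int.mul_ediv_add_emod]
        rw [h4]; push_cast; ring) h1
    omega
  obtain ⟨μ, hμΛ, hμX, hμ⟩ := not_dvd Λ hΛ X U (by
    intro v hv
    obtain ⟨c', _, rfl⟩ := (hXmem v).1 hv
    obtain ⟨m, hm, hmΛ⟩ := hclear c'
    refine ⟨m, by exact_mod_cast hm.ne', ?_⟩
    rw [map_smul] at hmΛ
    rw [← Int.cast_smul_eq_zsmul ℚ]
    exact_mod_cast hmΛ) hXdim hp
  obtain ⟨γ, hrγ, rfl⟩ := (hXmem μ).1 hμX
  -- a functional not divisible by p
  obtain ⟨θ₀, hθ₀, z₀, hz₀, hpz₀⟩ : ∃ θ ∈ Θ, ∃ z : ℤ, θ (π (f γ)) = z ∧ ¬ (p : ℤ) ∣ z := by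
    by_contra hcon
    push Not at hcon
    have h1 : ∀ i, ∃ w : ℤ, η i (π (f γ)) = (p : ℚ) * w := by
      intro i
      obtain ⟨z, hz⟩ := hη i _ (hLmem _ hμΛ)
      obtain ⟨w, hw⟩ := hcon _ (hηΘ i) z hz
      exact ⟨w, by rw [hz, hw]; push_cast; ring⟩
    choose w hw using h1
    have h2 : ∃ ν ∈ Λ, π ν = ∑ i, w i • e i := by
      have : ∑ i, w i • e i ∈ L := Submodule.sum_mem _ fun i _ => L.smul_mem _ (heL i)
      obtain ⟨ν, hν, hνe⟩ := this
      exact ⟨ν, hν, hνe⟩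
    obtain ⟨ν, hν, hνe⟩ := h2
    have h3 : π (f γ) = (p : ℤ) • π ν := by
      rw [hηe _ (hLmem _ hμΛ), hνe, Finset.smul_sum]
      refine Finset.sum_congr rfl fun i _ => ?_
      rw [hw, ← Int.cast_smul_eq_zsmul ℚ (p : ℤ), ← Int.cast_smul_eq_zsmul ℚ (w i), smul_smul]
      push_cast; rfl
    have h4 : f γ - (p : ℤ) • ν ∈ U := by
      rw [← Submodule.Quotient.mk_eq_zero]
      change π (f γ - (p : ℤ) • ν) = 0
      rw [map_sub, h3, map_zsmul, sub_self]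
    refine hμ ν hν (f γ - (p : ℤ) • ν) (Λ.sub_mem hμΛ (Λ.smul_mem _ hν)) h4 ?_
    abel
  obtain ⟨a₀, ha₀⟩ := hdiv θ₀ hθ₀
  obtain ⟨a, ha⟩ := hθ₁ _ (hLmem _ hμΛ)
  set b₀ : ℤ := z₀ - a₀ * a with hb₀
  have hpab : ¬ ((p : ℤ) ∣ a ∧ (p : ℤ) ∣ b₀) := by
    rintro ⟨h1, h2⟩
    refine hpz₀ ?_
    have : z₀ = b₀ + a₀ * a := by rw [hb₀]; ring
    rw [this]
    exact dvd_add h2 (h1.mul_left _)
  -- positivity for large multiples
  have hlarge : ∃ n0 : ℕ, ∀ n ≥ n0, ∀ i, 0 < ((n : ℚ) • c + γ) i := by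
    have h1 : ∀ i, ∃ n0 : ℕ, ∀ n ≥ n0, 0 < ((n : ℚ) • c + γ) i := by
      intro i
      obtain ⟨n0, hn0⟩ := exists_nat_gt (-(γ i) / c i)
      refine ⟨n0, fun n hn => ?_⟩
      have h2 : -(γ i) / c i < n := hn0.trans_le (by exact_mod_cast hn)
      rw [div_lt_iff₀ (hc i)] at h2
      simp only [Pi.add_apply, Pi.smul_apply, smul_eq_mul]
      linarith
    choose n0 hn0 using h1
    refine ⟨Finset.univ.sup n0, fun n hn i => hn0 i n ?_⟩
    exact (Finset.le_sup (Finset.mem_univ i)).trans hn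
  obtain ⟨n0, hn0⟩ := hlarge
  have hfn : ∀ n : ℕ, f ((n : ℚ) • c + γ) ∈ Λ := by
    intro n
    rw [map_add, map_smul]
    refine Λ.add_mem ?_ hμΛ
    have : (n : ℚ) • f c = (n : ℤ) • f c := by
      rw [← Int.cast_smul_eq_zsmul ℚ]; push_cast; rfl
    rw [this]; exact Λ.smul_mem _ hcΛ
  have hrn : ∀ n : ℕ, r (f ((n : ℚ) • c + γ)) = 0 := by
    intro n
    rw [map_add, map_add, map_smul, map_smul, hrc, hrγ]; simp
  -- main contradiction from a second functional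
  have hfinal : ∀ θ₂ ∈ Θ, θ₂ (π (f c)) = 0 → ∀ b : ℤ, θ₂ (π (f γ)) = b → b ≠ 0 →
      ¬ ((p : ℤ) ∣ a ∧ (p : ℤ) ∣ b) → False := by
    intro θ₂ hθ₂ h1 b hb hb0 hab
    obtain ⟨n, hn, s, t, hst, hst'⟩ := nt hdZ hb0 (p := p) (by exact_mod_cast hpd) hab n0
    have := hmin' ((n : ℚ) • c + γ) (hn0 n hn) (hfn n) (hrn n)
      ((s : ℚ) • θ₁ + (t : ℚ) • θ₂) (hcomb _ hθ₁ _ hθ₂ s t) (s * (n * d + a) + t * b) (by
        simp only [map_add, map_smul, LinearMap.add_apply, LinearMap.smul_apply, ha, hθ₁c, h1, hb,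
          smul_eq_mul]
        push_cast; ring) hst
    omega
  by_cases hb00 : b₀ = 0
  · have hpa : ¬ (p : ℤ) ∣ a := fun h => hpab ⟨h, hb00 ▸ dvd_zero _⟩
    by_cases hμ' : (d : ℚ) • γ - (a : ℚ) • c = 0
    · -- γ is a rational multiple of c
      have hγ : γ = ((a : ℚ) / d) • c := by
        have : (d : ℚ) • γ = (a : ℚ) • c := sub_eq_zero.1 hμ'
        rw [div_eq_inv_mul, mul_smul, ← this, smul_smul, inv_mul_cancel₀ hdQ.ne', one_smul]
      have hbez := Int.gcd_eq_gcd_ab (d : ℤ) a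
      set g := Int.gcd (d : ℤ) a with hg
      have hgpos : 0 < g := Int.gcd_pos_of_ne_zero_left _ hdZ.ne'
      have hgd : g < d := by
        have h1 : (g : ℤ) ∣ d := Int.gcd_dvd_left _ _
        have h2 : (g : ℤ) ∣ a := Int.gcd_dvd_right _ _
        have h3 : g ≤ d := Nat.le_of_dvd hd0 (by exact_mod_cast h1)
        refine lt_of_le_of_ne h3 fun h => hpa ?_
        rw [h] at h2
        exact (Int.natCast_dvd_natCast.2 hpd).trans h2
      generalize Int.gcdA (d : ℤ) a = s at hbez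
      generalize Int.gcdB (d : ℤ) a = t at hbez
      have hck : (s : ℚ) • c + (t : ℚ) • γ = ((g : ℚ) / d) • c := by
        rw [hγ, smul_smul, ← add_smul]
        congr 1
        have h1 : ((g : ℤ) : ℚ) = ((d * s + a * t : ℤ) : ℚ) := by rw [← hbez]
        push_cast at h1
        rw [h1]; field_simp
      have h1 := hmin' (((g : ℚ) / d) • c) (fun i => by
          simp only [Pi.smul_apply, smul_eq_mul]
          exact mul_pos (div_pos (by exact_mod_cast hgpos) hdQ) (hc i)) (by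
          rw [← hck, map_add, map_smul, map_smul, Int.cast_smul_eq_zsmul, Int.cast_smul_eq_zsmul]
          exact Λ.add_mem (Λ.smul_mem _ hcΛ) (Λ.smul_mem _ hμΛ)) (by
          rw [map_smul, map_smul, hrc]; simp) θ₁ hθ₁ g (by
          rw [map_smul, map_smul, map_smul, hθ₁c, smul_eq_mul]
          push_cast
          field_simp) (by exact_mod_cast hgpos)
      have : d ≤ g := by exact_mod_cast h1
      omega
    · -- separate by another functional
      have h1 : π (f ((d : ℚ) • γ - (a : ℚ) • c)) ≠ 0 := fun h => hμ' (hinj _ h)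
      have h2 : f ((d : ℚ) • γ - (a : ℚ) • c) ∈ Λ := by
        rw [map_sub, map_smul, map_smul]
        have e1 : (d : ℚ) • f γ = (d : ℤ) • f γ := by
          rw [← Int.cast_smul_eq_zsmul ℚ]; push_cast; rfl
        rw [e1, Int.cast_smul_eq_zsmul]
        exact Λ.sub_mem (Λ.smul_mem _ hμΛ) (Λ.smul_mem _ hcΛ)
      obtain ⟨θ, hθ, hθ0⟩ := hsep _ (hLmem _ h2) h1
      obtain ⟨z, hz⟩ := hdiv θ hθ
      obtain ⟨y, hy⟩ := hθ _ (hLmem _ hμΛ)
      have h3 : θ (π (f ((d : ℚ) • γ - (a : ℚ) • c))) = d * (y - z * a) := by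
        simp only [map_sub, map_smul, smul_eq_mul, hz, hy]; ring
      refine hfinal (((1 : ℤ) : ℚ) • θ + ((-z : ℤ) : ℚ) • θ₁) (hcomb _ hθ _ hθ₁ _ _) ?_
        (y - z * a) ?_ ?_ (fun h => hpa h.1)
      · simp only [LinearMap.add_apply, LinearMap.smul_apply, hz, hθ₁c, smul_eq_mul]
        push_cast; ring
      · simp only [LinearMap.add_apply, LinearMap.smul_apply, hy, ha, smul_eq_mul]
        push_cast; ring
      · intro h4
        apply hθ0
        rw [h3]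
        have : ((y - z * a : ℤ) : ℚ) = 0 := by rw [h4]; simp
        push_cast at this
        rw [this, mul_zero]
  · refine hfinal (((1 : ℤ) : ℚ) • θ₀ + ((-a₀ : ℤ) : ℚ) • θ₁) (hcomb _ hθ₀ _ hθ₁ _ _) ?_
      b₀ ?_ hb00 hpab
    · simp only [LinearMap.add_apply, LinearMap.smul_apply, ha₀, hθ₁c, smul_eq_mul]
      push_cast; ring
    · simp only [LinearMap.add_apply, LinearMap.smul_apply, hz₀, ha, smul_eq_mul]
      rw [hb₀]; push_cast; ring

end Pool.Agent.Helper70.OD
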