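import Pool.Agent.Helper70.OD.BStep
import Pool.Agent.Helper70.OD.Kill

/-! Stage B: existence of the required extensions. -/

namespace Pool.Agent.Helper70.OD

open Encodable Module Filter Topology

theorem fn_apply (ρ v : VV) : fn ρ v = ∑ i ∈ v.support, v i * ρ i := by
  unfold fn
  rw [Finsupp.linearCombination_apply, Finsupp.sum]
  simp only [smul_eq_mul]

/-- every functional is given by a code on finitely many vectors -/
theorem fcode (ψ : VV →ₗ[ℚ] ℚ) (F : Finset VV) : ∃ c : Vc, ∀ v ∈ F, fn (vv c) v = ψ v := by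
  classical
  obtain ⟨N, hN⟩ : ∃ N, ∀ v ∈ F, ∀ i ∈ v.support, i < N := by
    refine ⟨(F.sup fun v => v.support.sup id) + 1, fun v hv i hi => ?_⟩
    have h1 : i ≤ v.support.sup id := Finset.le_sup (f := id) hi
    have h2 : v.support.sup id ≤ F.sup fun v => v.support.sup id :=
      Finset.le_sup (f := fun v : VV => v.support.sup id) hv
    omega
  obtain ⟨c, hc⟩ := vv_surj (∑ i ∈ Finset.range N, Finsupp.single i (ψ (Finsupp.single i 1)))
  refine ⟨c, fun v hv => ?_⟩
  rw [fn_apply]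
  have h1 : ψ v = ∑ i ∈ v.support, v i * ψ (Finsupp.single i 1) := by
    conv_lhs => rw [← Finsupp.sum_single v]
    rw [Finsupp.sum, map_sum]
    refine Finset.sum_congr rfl fun i _ => ?_
    rw [← smul_eq_mul, ← map_smul, Finsupp.smul_single, smul_eq_mul, mul_one]
  rw [h1]
  refine Finset.sum_congr rfl fun i hi => ?_
  rw [hc, Finsupp.finsetSum_apply]
  simp only [Finsupp.single_apply]
  rw [Finset.sum_ite_eq', if_pos (Finset.mem_range.2 (hN v hv i hi))]

/-- existence of the extension functional, linear version -/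
theorem ext_lin {n : ℕ} (g : Fin n → VV) (R : VV →ₗ[ℚ] ℚ) (w : VV) (hw : ∀ i, g i ≠ w) :
    ∃ R' : VV →ₗ[ℚ] ℚ, (∀ i k, R (g i) < R (g k) → R' (g i) < R' (g k)) ∧
      (∀ i, R' (g i) ≠ R' w) ∧
      (w ∈ Submodule.span ℚ (Set.range g) ∨
        (0 < R' w ∧ ∀ i, 0 < R' (g i) → R' w < R' (g i))) := by
  classical
  by_cases hspan : w ∈ Submodule.span ℚ (Set.range g)
  · obtain ⟨ψ, hψ⟩ := Module.exists_dual_forall_apply_ne_zero (K := ℚ)
      (fun i => g i - w) (fun i => sub_ne_zero.2 (hw i))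
    have h1 : ∀ᶠ ε in 𝓝[>] (0 : ℚ), ∀ i k, R (g i) < R (g k) →
        R (g i) + ε * ψ (g i) < R (g k) + ε * ψ (g k) := by
      rw [eventually_all]; intro i
      rw [eventually_all]; intro k
      by_cases h : R (g i) < R (g k)
      · have hc1 : ContinuousAt (fun ε : ℚ => R (g i) + ε * ψ (g i)) 0 := by fun_prop
        have hc2 : ContinuousAt (fun ε : ℚ => R (g k) + ε * ψ (g k)) 0 := by fun_prop
        have := hc1.tendsto.eventually_lt hc2.tendsto (by simpa using h)
        filter_upwards [this.filter_mono nhdsWithin_le_nhds] with ε h2 _ using h2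
      · exact Eventually.of_forall fun ε h' => absurd h' h
    have h2 : ∀ᶠ ε in 𝓝[>] (0 : ℚ), ∀ i, R (g i - w) + ε * ψ (g i - w) ≠ 0 := by
      rw [eventually_all]; intro i
      by_cases h : R (g i - w) = 0
      · filter_upwards [self_mem_nhdsWithin] with ε hε
        rw [h, zero_add]
        exact mul_ne_zero (ne_of_gt hε) (hψ i)
      · have hc : ContinuousAt (fun ε : ℚ => R (g i - w) + ε * ψ (g i - w)) 0 := by fun_prop
        have := hc.eventually_ne (y := 0) (by simpa using h)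
        exact this.filter_mono nhdsWithin_le_nhds
    obtain ⟨ε, hε1, hε2⟩ := (h1.and h2).exists
    refine ⟨R + ε • ψ, ?_, ?_, Or.inl hspan⟩
    · intro i k h
      simpa using hε1 i k h
    · intro i h
      apply hε2 i
      have : (R + ε • ψ) (g i - w) = 0 := by rw [map_sub, h, sub_self]
      simpa using this
  · have h1 : ∀ᶠ δ in 𝓝[>] (0 : ℚ), ∀ i, 0 < R (g i) → δ < R (g i) := by
      rw [eventually_all]; intro i
      by_cases h : 0 < R (g i)
      · have : ∀ᶠ δ in 𝓝 (0 : ℚ), δ < R (g i) := eventually_lt_nhds h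
        filter_upwards [this.filter_mono nhdsWithin_le_nhds] with δ h2 _ using h2
      · exact Eventually.of_forall fun ε h' => absurd h' h
    have h2 : ∀ᶠ δ in 𝓝[>] (0 : ℚ), (0 : ℚ) < δ := self_mem_nhdsWithin
    obtain ⟨δ, hδ1, hδ2⟩ := (h1.and h2).exists
    obtain ⟨R', hR', hR'w⟩ := LinearMap.exists_extend_of_notMem
      (R ∘ₗ (Submodule.span ℚ (Set.range g)).subtype) hspan δ
    have h3 : ∀ i, R' (g i) = R (g i) := by
      intro i
      have := LinearMap.congr_fun hR' ⟨g i, Submodule.subset_span ⟨i, rfl⟩⟩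
      simpa using this
    refine ⟨R', ?_, ?_, Or.inr ⟨by rw [hR'w]; exact hδ2, ?_⟩⟩
    · intro i k h
      rw [h3, h3]; exact h
    · intro i
      rw [h3, hR'w]
      rcases lt_or_ge 0 (R (g i)) with h | h
      · exact (hδ1 i h).ne'
      · exact (h.trans_lt hδ2).ne
    · intro i h
      rw [h3] at h ⊢
      rw [hR'w]; exact hδ1 i h

theorem span_lcomb {g : List Vc} {w : VV}
    (h : w ∈ Submodule.span ℚ (Set.range (fun i : Fin g.length => vv (gx g i)))) :
    ∃ c : List (Qc × ℕ), LAll c (fun p => p.2 < g.length) ∧ w = vv (lcomb c g) := by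
  classical
  rw [Submodule.mem_span_range_iff_exists_fun] at h
  obtain ⟨c, hc⟩ := h
  choose code hcode using qv_surj
  refine ⟨(List.finRange g.length).map (fun i => (code (c i), (i : ℕ))), ?_, ?_⟩
  · intro p hp
    rw [List.mem_map] at hp
    obtain ⟨i, _, rfl⟩ := hp
    exact i.2
  · rw [vv_lcomb, List.map_map, ← hc, ← List.sum_ofFn, List.ofFn_eq_map]
    simp only [Function.comp_def, hcode, gx]

theorem extR_exists (g : List Vc) (r w : Vc) (hw : ∀ y ∈ g, vv y ≠ vv w) :
    ∃ r', ExtR g r w r' := by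
  classical
  obtain ⟨R', h1, h2, h3⟩ := ext_lin (fun i : Fin g.length => vv (gx g i)) (fn (vv r)) (vv w)
    (fun i => hw _ (by
      simp only [gx]
      rw [List.getD_eq_getElem?_getD, List.getElem?_eq_getElem i.2]
      exact List.getElem_mem i.2))
  obtain ⟨r', hr'⟩ := fcode R' (insert (vv w) (Finset.univ.image
    (fun i : Fin g.length => vv (gx g i))))
  have hg : ∀ i, i < g.length → fn (vv r') (vv (gx g i)) = R' (vv (gx g i)) := by
    intro i hi
    exact hr' _ (Finset.mem_insert_of_mem (Finset.mem_image.2 ⟨⟨i, hi⟩, Finset.mem_univ _, rfl⟩))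
  have hww : fn (vv r') (vv w) = R' (vv w) := hr' _ (Finset.mem_insert_self _ _)
  refine ⟨r', ?_, ?_, ?_⟩
  · intro i hi k hk
    simp only [qv_dotc]
    rw [hg i hi, hg k hk]
    by_cases h : fn (vv r) (vv (gx g i)) < fn (vv r) (vv (gx g k))
    · exact Or.inr (h1 ⟨i, hi⟩ ⟨k, hk⟩ h)
    · exact Or.inl (not_lt.1 h)
  · intro i hi
    unfold Qne
    rw [qv_dotc, qv_dotc, hg i hi, hww]
    exact h2 ⟨i, hi⟩
  · rcases h3 with h3 | ⟨h3, h4⟩
    · left
      obtain ⟨c, hc1, hc2⟩ := span_lcomb h3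
      exact ⟨c, hc1, hc2⟩
    · right
      refine ⟨by rw [qv_dotc, hww, qv_q0]; exact h3, fun i hi => ?_⟩
      simp only [qv_dotc, qv_q0]
      rw [hg i hi, hww]
      by_cases h : 0 < R' (vv (gx g i))
      · exact Or.inr (h4 ⟨i, hi⟩ h)
      · exact Or.inl (not_lt.1 h)

theorem gx_take {g : List Vc} {M i : ℕ} (h : i < M) : gx (g.take M) i = gx g i := by
  unfold gx
  rw [List.getD_eq_getElem?_getD, List.getD_eq_getElem?_getD, List.getElem?_take, if_pos h]

theorem gx_nil_of_ge {g : List Vc} {i : ℕ} (h : g.length ≤ i) : gx g i = [] := by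
  unfold gx
  rw [List.getD_eq_getElem?_getD, List.getElem?_eq_none h]; rfl

theorem qv_sgc (b : Bool) : qv (sgc b) = if b = true then 1 else -1 := by
  cases b <;> simp [sgc]

theorem qv_sgc_ne (b : Bool) : qv (sgc b) ≠ 0 := by
  rw [qv_sgc]; split_ifs <;> norm_num

/-- the signed vectors of a pattern -/
noncomputable def yv (g : List Vc) (x : List (ℕ × Bool)) (a : ℕ) : VV :=
  qv (sgc (xx x a).2) • vv (gx g (xx x a).1)

theorem killR_exists {VG : ℕ → Vc → Prop} {HS : Vc → Prop} {A : ℕ → List (ℕ × Bool) → Prop}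
    (v : ℕ → Vc) (hVG : ∀ j w, VG j w ↔ v j = w) (H1 : AddSubgroup VV)
    (hHS : ∀ l, HS l ↔ vv l ∈ H1) {e : ℕ} {g : List Vc} {r : Vc} {x : List (ℕ × Bool)} {M : ℕ}
    (hM : e ≤ M) (hchk : ChkR VG A e (g.take M) x) (hmix : MixR g r x)
    (hg : ∀ i < g.length, vv (gx g i) ∈ H1) : ∃ g', KillR VG HS e g r x g' := by
  classical
  obtain ⟨_, hlen, hxl, ψ, hψ⟩ := hchk
  obtain ⟨hm1, hm2, hm3⟩ := hmix
  set n := x.length with hn
  have hxx : ∀ a, a < n → xx x a ∈ x := by
    intro a ha
    unfold xx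
    rw [List.getD_eq_getElem?_getD, List.getElem?_eq_getElem ha]
    exact List.getElem_mem ha
  have hxM : ∀ a, a < n → (xx x a).1 < M ∧ (xx x a).1 < g.length := by
    intro a ha
    have := hxl _ (hxx a ha)
    rw [List.length_take] at this
    omega
  -- protected part
  let h : Fin e ⊕ Fin e → VV := Sum.elim (fun i => vv (gx g i)) (fun j => vv (v j))
  let U : Submodule ℚ VV := Submodule.span ℚ (Set.range h)
  have hUfin : FiniteDimensional ℚ U := FiniteDimensional.span_of_finite ℚ (Set.finite_range h)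
  have hUrank : finrank ℚ U ≤ 2 * e := by
    have := finrank_range_le_card (R := ℚ) h
    simp only [Fintype.card_sum, Fintype.card_fin] at this
    have h2 : finrank ℚ U = (Set.range h).finrank ℚ := rfl
    omega
  let y : Fin n → VV := fun a => yv g x a
  let Ψ : Fin n → VV →ₗ[ℚ] ℚ := fun a => fn (vv (gx ψ a))
  have hΨU : ∀ a, ∀ u ∈ U, Ψ a u = 0 := by
    intro a u hu
    have : U ≤ LinearMap.ker (Ψ a) := by
      refine Submodule.span_le.2 ?_
      rintro _ ⟨i | j, rfl⟩
      · have h1 := (hψ a a.2).2.1 i i.2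
        simp only [Qeq, qv_dotc, qv_q0] at h1
        rw [gx_take (by omega)] at h1
        exact h1
      · obtain ⟨w, hw, h1⟩ := (hψ a a.2).2.2 j j.2
        rw [hVG] at hw
        subst hw
        simp only [Qeq, qv_dotc, qv_q0] at h1
        exact h1
    exact this hu
  have hΨy : ∀ a b, Ψ a (y b) = if a = b then qv (sgc (xx x a).2) else 0 := by
    intro a b
    have h1 := (hψ a a.2).1 b b.2
    simp only [y, yv, map_smul, smul_eq_mul, Ψ]
    rcases h1 with ⟨h1, h2⟩ | ⟨h1, h2⟩
    · have : a = b := Fin.ext h1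
      subst this
      simp only [Qeq, qv_dotc, qv_q1] at h2
      rw [gx_take (hxM a a.2).1] at h2
      rw [h2, if_pos rfl, mul_one]
    · rw [if_neg (fun h => h1 (congrArg Fin.val h))]
      simp only [Qeq, qv_dotc, qv_q0] at h2
      rw [gx_take (hxM b b.2).1] at h2
      rw [h2, mul_zero]
  have hli : LinearIndependent ℚ (fun a => U.mkQ (y a)) := by
    rw [Fintype.linearIndependent_iff]
    intro c hc b
    have h1 : ∑ a, c a • y a ∈ U := by
      rw [← Submodule.Quotient.mk_eq_zero]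
      rw [← Submodule.mkQ_apply, map_sum]
      simpa using hc
    have h2 := hΨU b _ h1
    rw [map_sum] at h2
    simp only [map_smul, smul_eq_mul, hΨy] at h2
    rw [Finset.sum_eq_single b (fun a _ hab => by rw [if_neg (Ne.symm hab), mul_zero])
      (fun hb => absurd (Finset.mem_univ b) hb), if_pos rfl] at h2
    exact (mul_eq_zero.1 h2).resolve_right (qv_sgc_ne _)
  let Λ : Submodule ℤ VV := Submodule.span ℤ (Set.range (fun i : Fin g.length => vv (gx g i)))
  have hΛ : Λ.FG := Submodule.fg_span (Set.finite_range _)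
  have hgΛ : ∀ i, i < g.length → vv (gx g i) ∈ Λ := fun i hi =>
    Submodule.subset_span ⟨⟨i, hi⟩, rfl⟩
  have hyΛ : ∀ a, y a ∈ Λ := by
    intro a
    simp only [y, yv, qv_sgc]
    split_ifs
    · rw [one_smul]; exact hgΛ _ (hxM a a.2).2
    · rw [neg_one_smul]; exact Λ.neg_mem (hgΛ _ (hxM a a.2).2)
  -- signs
  let sv : Fin n → ℚ := fun a => fn (vv r) (y a)
  have hsv : ∀ a, sv a = qv (sgc (xx x a).2) * fn (vv r) (vv (gx g (xx x a).1)) := by
    intro a; simp only [sv, y, yv, map_smul, smul_eq_mul]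
  have hsv0 : ∀ a, sv a ≠ 0 := by
    intro a
    rw [hsv]
    refine mul_ne_zero (qv_sgc_ne _) ?_
    have := hm3 _ (hxx a a.2)
    simp only [Qne, qv_dotc, qv_q0] at this
    exact this
  have hidx : ∀ z ∈ x, ∃ a : Fin n, xx x a = z := by
    intro z hz
    obtain ⟨i, hi, rfl⟩ := List.getElem_of_mem hz
    refine ⟨⟨i, hi⟩, ?_⟩
    unfold xx
    rw [List.getD_eq_getElem?_getD, List.getElem?_eq_getElem hi]; rfl
  have hpos : ∃ a, 0 < sv a := by
    obtain ⟨z, hz, h1⟩ := hm1
    obtain ⟨a, ha⟩ := hidx z hz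
    refine ⟨a, ?_⟩
    rw [hsv, ha, qv_sgc]
    simp only [qv_dotc, qv_q0] at h1
    rcases h1 with ⟨h1, h2⟩ | ⟨h1, h2⟩
    · rw [if_pos h1, one_mul]; exact h2
    · rw [if_neg (by simp [h1])]; linarith
  have hneg : ∃ a, sv a < 0 := by
    obtain ⟨z, hz, h1⟩ := hm2
    obtain ⟨a, ha⟩ := hidx z hz
    refine ⟨a, ?_⟩
    rw [hsv, ha, qv_sgc]
    simp only [qv_dotc, qv_q0] at h1
    rcases h1 with ⟨h1, h2⟩ | ⟨h1, h2⟩
    · rw [if_neg (by simp [h1])]; linarith
    · rw [if_pos h1, one_mul]; exact h2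
  let Pq : ℚ := ∑ a, if 0 < sv a then sv a else 0
  let Nq : ℚ := ∑ a, if 0 < sv a then 0 else -sv a
  have hPq : 0 < Pq := by
    obtain ⟨a, ha⟩ := hpos
    refine Finset.sum_pos' (fun b _ => ?_) ⟨a, Finset.mem_univ a, by rw [if_pos ha]; exact ha⟩
    split_ifs with h
    · exact h.le
    · exact le_rfl
  have hNq : 0 < Nq := by
    obtain ⟨a, ha⟩ := hneg
    refine Finset.sum_pos' (fun b _ => ?_)
      ⟨a, Finset.mem_univ a, by rw [if_neg (not_lt.2 ha.le)]; linarith⟩
    split_ifs with h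
    · exact le_rfl
    · linarith [not_lt.1 h]
  let α : Fin n → ℚ := fun a => if 0 < sv a then Nq else Pq
  have hα : ∀ a, 0 < α a := by
    intro a; simp only [α]; split_ifs <;> assumption
  have hαs : ∑ a, α a * fn (vv r) (y a) = 0 := by
    have h1 : ∀ a, α a * fn (vv r) (y a) = Nq * (if 0 < sv a then sv a else 0) -
        Pq * (if 0 < sv a then 0 else -sv a) := by
      intro a
      change α a * sv a = _
      simp only [α]
      split_ifs
      · ring
      · ring
    simp only [h1]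
    rw [Finset.sum_sub_distrib, ← Finset.mul_sum, ← Finset.mul_sum]
    change Nq * Pq - Pq * Nq = 0
    ring
  obtain ⟨k, hk, θ, hθU, hθΛ, hθk, hrk, β, hβ, hkβ⟩ := kill_exists U y hli
    (by rw [Fintype.card_fin]; omega) Λ hΛ hyΛ (fn (vv r)) α hα hαs
  have hkH : k ∈ H1 := by
    have h1 : Λ ≤ AddSubgroup.toIntSubmodule H1 := by
      refine Submodule.span_le.2 ?_
      rintro _ ⟨i, rfl⟩
      exact hg i i.2
    exact h1 hk
  obtain ⟨kc, hkc⟩ := vv_surj k
  obtain ⟨θc, hθc⟩ := fcode θ (insert k ((Finset.univ.image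
    (fun i : Fin g.length => vv (gx g i))) ∪ (Finset.univ.image (fun j : Fin e => vv (v j)))))
  have hθck : fn (vv θc) k = 1 := by rw [hθc k (Finset.mem_insert_self _ _), hθk]
  have hθcg : ∀ i, i < g.length → fn (vv θc) (vv (gx g i)) = θ (vv (gx g i)) := by
    intro i hi
    refine hθc _ (Finset.mem_insert_of_mem (Finset.mem_union_left _ ?_))
    exact Finset.mem_image.2 ⟨⟨i, hi⟩, Finset.mem_univ _, rfl⟩
  have hθcv : ∀ j, j < e → fn (vv θc) (vv (v j)) = 0 := by
    intro j hj
    rw [hθc _ (Finset.mem_insert_of_mem (Finset.mem_union_right _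
      (Finset.mem_image.2 ⟨⟨j, hj⟩, Finset.mem_univ _, rfl⟩)))]
    exact hθU _ (Submodule.subset_span ⟨Sum.inr ⟨j, hj⟩, rfl⟩)
  -- integral multiplicities
  let N : ℕ := ∏ a, (β a).den
  have hN : N ≠ 0 := Finset.prod_ne_zero_iff.2 fun a _ => (β a).den_nz
  have hNβ : ∀ a, ∃ m : ℕ, (N : ℚ) * β a = m := by
    intro a
    have h2 : ((β a).den : ℚ) * β a = (β a).num := Rat.den_mul_eq_num (β a)
    have h3 : ((β a).num.toNat : ℚ) = (β a).num := by
      have : 0 ≤ (β a).num := (Rat.num_pos.2 (hβ a)).le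
      have h4 : ((β a).num.toNat : ℤ) = (β a).num := by omega
      exact_mod_cast h4
    refine ⟨(∏ j ∈ Finset.univ.erase a, (β j).den) * (β a).num.toNat, ?_⟩
    simp only [N]
    rw [← Finset.mul_prod_erase Finset.univ (fun i => (β i).den) (Finset.mem_univ a)]
    push_cast
    rw [h3]
    linear_combination (∏ j ∈ Finset.univ.erase a, ((β j).den : ℚ)) * h2
  choose m hm using hNβ
  let c : List ℕ := ((List.finRange n).map (fun a => List.replicate (m a) (a : ℕ))).flatten
  have hc : ∀ a ∈ c, a < n := by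
    intro a ha
    simp only [c, List.mem_flatten, List.mem_map] at ha
    obtain ⟨l, ⟨b, _, rfl⟩, ha⟩ := ha
    rw [List.eq_of_mem_replicate ha]
    exact b.2
  have hcsum : (c.map (yv g x)).sum = (N : ℚ) • k := by
    simp only [c, List.map_flatten, List.map_map, List.sum_flatten]
    have h1 : (fun a : Fin n => ((List.replicate (m a) (a : ℕ)).map (yv g x)).sum) =
        fun a => ((N : ℚ) * β a) • y a := by
      funext a
      rw [List.map_replicate, List.sum_replicate, hm, Nat.cast_smul_eq_nsmul]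
    have h2 : (List.sum ∘ List.map (yv g x) ∘ fun a : Fin n => List.replicate (m a) (a : ℕ)) =
        fun a => ((N : ℚ) * β a) • y a := by
      rw [← h1]; rfl
    rw [h2, ← List.ofFn_eq_map, List.sum_ofFn, hkβ, Finset.smul_sum]
    refine Finset.sum_congr rfl fun a _ => ?_
    rw [smul_smul]
  let g' : List Vc := (List.range g.length).map (fun i =>
    if fn (vv θc) (vv (gx g i)) = 0 then gx g i else
      vax (gx g i) (qneg (dotc θc (gx g i))) kc)
  have hg' : ∀ i, i < g.length → gx g' i = if fn (vv θc) (vv (gx g i)) = 0 then gx g i else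
      vax (gx g i) (qneg (dotc θc (gx g i))) kc := by
    intro i hi
    simp only [g']
    conv_lhs => unfold gx
    rw [List.getD_eq_getElem?_getD, List.getElem?_map, List.getElem?_range hi]
    rfl
  refine ⟨g', θc, kc, N, c, (hHS _).2 (by rw [hkc]; exact hkH), ?_, ?_, ?_, ?_, ?_, ?_, ?_, hN,
    hc, ?_⟩
  · simp only [Qeq, qv_dotc, qv_q1, hkc, hθck]
  · simp only [Qeq, qv_dotc, qv_q0, hkc, hrk]
  · intro i hi
    simp only [Qeq, qv_dotc, qv_q0]
    by_cases h1 : i < g.length
    · rw [hθcg i h1]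
      exact hθU _ (Submodule.subset_span ⟨Sum.inl ⟨i, hi⟩, rfl⟩)
    · rw [gx_nil_of_ge (not_lt.1 h1), vv_nil, map_zero]
  · intro j hj
    exact ⟨v j, (hVG _ _).2 rfl, by simp only [Qeq, qv_dotc, qv_q0]; exact hθcv j hj⟩
  · intro i hi
    obtain ⟨z, hz⟩ := hθΛ _ (hgΛ i hi)
    refine ⟨(z.toNat, (-z).toNat), ?_⟩
    simp only [Qeq, qv_dotc]
    rw [qv_int, hθcg i hi, hz]
    have : ((z.toNat : ℤ) - ((-z).toNat : ℤ)) = z := by omega
    simp only [this]
  · simp [g']
  · intro i hi
    by_cases h1 : fn (vv θc) (vv (gx g i)) = 0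
    · left
      refine ⟨by simp only [Qeq, qv_dotc, qv_q0]; exact h1, ?_⟩
      rw [hg' i hi, if_pos h1]
    · right
      refine ⟨by simp only [Qne, qv_dotc, qv_q0]; exact h1, ?_⟩
      rw [hg' i hi, if_neg h1]
      rfl
  · unfold Veq
    rw [vv_vax, vv_nil, zero_add, vv_lcomb, List.map_map]
    have hq : qv ((N, 0), 0) = N := by simp [qv]
    rw [hq, hkc, ← hcsum]
    rfl

end Pool.Agent.Helper70.OD
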