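import Pool.Agent.Helper70.OD.DobLim

/-! Stage A (Dobritsa): every computable torsion-free abelian group of infinite rank embeds in the
space of finitely supported rational vectors with c.e. range. -/

namespace Pool.Agent.Helper70.OD

open Encodable

def unitc (i : ℕ) : Vc := (List.range i).map (fun _ => q0) ++ [q1]

theorem vv_unitc (i : ℕ) : vv (unitc i) = Finsupp.single i 1 := by
  ext k
  rw [vv_apply, Finsupp.single_apply]
  unfold unitc
  rw [List.getD_eq_getElem?_getD]
  rcases lt_trichotomy k i with h | h | h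
  · rw [List.getElem?_append_left (by simpa using h), List.getElem?_map,
      List.getElem?_range h, if_neg (by omega)]
    simp
  · subst h
    rw [List.getElem?_append_right (by simp)]
    simp
  · rw [List.getElem?_append_right (by simpa using h.le), if_neg (by omega),
      List.getElem?_eq_none (by simp; omega)]
    simp

def ecode (P : List ℕ) : Vc := P.foldr (fun i acc => vax acc q1 (unitc i)) []

theorem vv_ecode (P : List ℕ) : vv (ecode P) = esum P := by
  induction P with
  | nil => simp [ecode]
  | cons a P ih =>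
    have h1 : ecode (a :: P) = vax (ecode P) q1 (unitc a) := rfl
    have h2 : esum (a :: P) = Finsupp.single a 1 + esum P := by simp [esum]
    rw [h1, h2, vv_vax, ih, vv_unitc, qv_q1, one_smul, add_comm]

section
variable {α : Type} [Primcodable α]
@[fun_prop] theorem P_unitc {f : α → ℕ} (hf : Primrec f) : Primrec (fun a => unitc (f a)) := by
  unfold unitc; fun_prop
@[fun_prop] theorem P_ecode {f : α → List ℕ} (hf : Primrec f) :
    Primrec (fun a => ecode (f a)) := by unfold ecode; fun_prop
end

/-- membership in the image, in coded form -/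
def HSdef (S : List ℕ → ℕ → Prop) (G : ℕ → StA → Prop) (l : Vc) : Prop :=
  ∃ (s : ℕ) (a : StA) (y : Rel) (h : ℕ), G s a ∧ y.1 ≠ 0 ∧ LAll y.2.1 (fun i => i < s) ∧
    LAll y.2.2 (fun i => i < s) ∧ Veq (vax (ecode y.2.1) ((y.1, 0), 0) l) (ecode y.2.2) ∧
    (∃ x, S ((List.range y.1).map (fun _ => h) ++ y.2.1.map (fun i => bx a.1 i)) x ∧
      S (y.2.2.map (fun i => bx a.1 i)) x) ∧
    BAll l.length (fun i => ∃ mn : ℕ × ℕ, Qeq (qmul ((a.2, 0), 0) (l.getD i q0)) (mn, 0))

theorem RE_HSdef (S : List ℕ → ℕ → Prop) (G : ℕ → StA → Prop)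
    (hS : RE (fun p : List ℕ × ℕ => S p.1 p.2)) (hG : RE (fun p : ℕ × StA => G p.1 p.2)) :
    RE (fun l => HSdef S G l) := by
  unfold HSdef
  fun_prop

theorem esum_apply_eq_zero {P : List ℕ} {s i : ℕ} (h : ∀ k ∈ P, k < s) (hi : s ≤ i) :
    esum P i = 0 := by
  induction P with
  | nil => simp
  | cons a P ih =>
    have h2 : esum (a :: P) = Finsupp.single a 1 + esum P := by simp [esum]
    have h3 : a < s := h a (by simp)
    rw [h2, Finsupp.add_apply, ih fun k hk => h k (by simp [hk]), Finsupp.single_apply,
      if_neg (by omega), add_zero]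

theorem stageA (H : Type) [AddCommGroup H]
    (htf : ∀ (n : ℕ) (x : H), n ≠ 0 → n • x = 0 → x = 0)
    (hrank : Cardinal.aleph0 ≤ Module.rank ℤ H) (ν : ℕ ≃ H)
    (hν : Computable₂ (fun a b : ℕ => ν.symm (ν a + ν b))) :
    ∃ (ι : H →+ VV) (HS : Vc → Prop), Function.Injective ι ∧ RE HS ∧
      (∀ l, HS l ↔ ∃ h, ι h = vv l) ∧
      ∀ U : Submodule ℚ VV, FiniteDimensional ℚ U → ∃ h, ι h ∉ U := by
  classical
  obtain ⟨D, _, _, jj, hj, hR⟩ := exists_hull H htf hrank
  obtain ⟨f, hf, hf1, hf2⟩ := exists_seqA ν hν
  let B : ℕ → ℕ → H := fun s i => ν (bx (f s).1 i)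
  obtain ⟨b, t, hb, ht, hli, hspan⟩ := limA jj hj hR ν B (fun s i => cx (f s).1 i)
    (fun s => by simp only [B, (hf2 s).1]) (fun s => by
      rcases (hf2 s).2 with ⟨h1, h2, h3, h4, h5⟩ | ⟨h1, h2⟩
      · left
        exact ⟨h1, h2, h3, h4, fun i hi hne => ⟨congrArg ν (h5 i hi hne).1, (h5 i hi hne).2⟩⟩
      · right
        exact ⟨h1, fun i hi => ⟨congrArg ν (h2 i hi).1, (h2 i hi).2⟩⟩)
  let LC : VV →ₗ[ℚ] D := Finsupp.linearCombination ℚ (fun i => jj (b i))
  have hLCinj : Function.Injective LC := hli
  have hex : ∀ h : H, ∃ v, LC v = jj h := by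
    intro h
    have := hspan h
    rw [Finsupp.mem_span_range_iff_exists_finsupp] at this
    obtain ⟨v, hv⟩ := this
    exact ⟨v, by rw [← hv]; rfl⟩
  choose g hg using hex
  let ι : H →+ VV := AddMonoidHom.mk' g (fun a a' => hLCinj (by rw [map_add, hg, hg, hg, map_add]))
  have hι : ∀ h, LC (ι h) = jj h := hg
  have hιinj : Function.Injective ι := fun a a' h => hj (by rw [← hι, ← hι, h])
  have hιiff : ∀ v, (∃ h, ι h = v) ↔ ∃ h, LC v = jj h := by
    intro v
    constructor
    · rintro ⟨h, rfl⟩; exact ⟨h, hι h⟩
    · rintro ⟨h, hh⟩; exact ⟨h, hLCinj (by rw [hι, hh])⟩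
  -- one step
  have hpers : ∀ (v : VV) (s : ℕ), (∀ i, v i ≠ 0 → i < s) →
      (∀ i, ∃ z : ℤ, (s.factorial : ℚ) * v i = z) →
      (∃ h, Finsupp.linearCombination ℚ (fun i => jj (B s i)) v = jj h) →
      ∃ h, Finsupp.linearCombination ℚ (fun i => jj (B (s + 1) i)) v = jj h := by
    rintro v s hv hz ⟨h, hh⟩
    have h1 : ∀ i, v i ≠ 0 → ∃ h, v i • jj (B (s + 1) i) - v i • jj (B s i) = jj h := by
      intro i hi
      rcases (hf2 s).2 with ⟨h1, h2, h3, h4, h5⟩ | ⟨h1, h2⟩
      · by_cases hik : i = s.unpair.1
        · obtain ⟨z, hz⟩ := hz i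
          refine ⟨z • ν (cx (f s).1 s.unpair.1), ?_⟩
          have : B (s + 1) i = B s i + s.factorial • ν (cx (f s).1 s.unpair.1) := by
            simp only [B]; rw [hik]; exact h3
          rw [this, map_add, smul_add, add_sub_cancel_left, map_nsmul, map_zsmul,
            ← Nat.cast_smul_eq_nsmul ℚ, smul_smul, ← Int.cast_smul_eq_zsmul ℚ, ← hz]
          congr 1; ring
        · refine ⟨0, ?_⟩
          have : B (s + 1) i = B s i := congrArg ν (h5 i (hv i hi) hik).1
          rw [this, sub_self, map_zero]
      · refine ⟨0, ?_⟩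
        have : B (s + 1) i = B s i := congrArg ν (h2 i (hv i hi)).1
        rw [this, sub_self, map_zero]
    choose! k hk using h1
    refine ⟨h + ∑ i ∈ v.support, k i, ?_⟩
    rw [map_add, map_sum, ← hh, Finsupp.linearCombination_apply, Finsupp.linearCombination_apply,
      Finsupp.sum, Finsupp.sum, ← Finset.sum_add_distrib]
    refine Finset.sum_congr rfl fun i hi => ?_
    rw [← hk i (Finsupp.mem_support_iff.1 hi)]
    abel
  have hpers' : ∀ (v : VV) (s : ℕ), (∀ i, v i ≠ 0 → i < s) →
      (∀ i, ∃ z : ℤ, (s.factorial : ℚ) * v i = z) →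
      (∃ h, Finsupp.linearCombination ℚ (fun i => jj (B s i)) v = jj h) → ∀ u, s ≤ u →
      ∃ h, Finsupp.linearCombination ℚ (fun i => jj (B u i)) v = jj h := by
    intro v s hv hz hh u hu
    induction u, hu using Nat.le_induction with
    | base => exact hh
    | succ u hu ih =>
      refine hpers v u (fun i hi => (hv i hi).trans_le hu) (fun i => ?_) ih
      obtain ⟨z, hz⟩ := hz i
      obtain ⟨w, hw⟩ := Nat.factorial_dvd_factorial hu
      refine ⟨w * z, ?_⟩
      rw [hw]; push_cast; rw [← hz]; ring
  -- agreement with the limit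
  have hlim : ∀ (v : VV), ∃ T, ∀ u ≥ T,
      Finsupp.linearCombination ℚ (fun i => jj (B u i)) v = LC v := by
    intro v
    refine ⟨∑ i ∈ v.support, t i, fun u hu => ?_⟩
    simp only [LC]
    rw [Finsupp.linearCombination_apply, Finsupp.linearCombination_apply]
    refine Finset.sum_congr rfl fun i hi => ?_
    have h1 : t i ≤ ∑ i ∈ v.support, t i :=
      Finset.single_le_sum (f := t) (fun _ _ => Nat.zero_le _) hi
    simp only [hb i u (h1.trans hu)]
  let S : List ℕ → ℕ → Prop := fun l x => (l.map ν).sum = ν x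
  let G : ℕ → StA → Prop := fun s a => f s = a
  refine ⟨ι, fun l => HSdef S G l, hιinj, RE_HSdef S G (RE_sum ν hν) hf, fun l => ?_, ?_⟩
  · rw [hιiff]
    constructor
    · rintro ⟨s, a, y, h, rfl, h1, h2, h3, h4, ⟨x, h5, h6⟩, h7⟩
      unfold Veq at h4
      rw [vv_vax, vv_ecode, vv_ecode] at h4
      have hN : (y.1 : ℚ) ≠ 0 := by exact_mod_cast h1
      have hq : qv ((y.1, 0), 0) = y.1 := by simp [qv]
      rw [hq] at h4
      have hv : ∀ i, vv l i ≠ 0 → i < s := by
        intro i hi
        by_contra hle
        push Not at hle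
        have h8 := congrArg (fun w : VV => w i) h4
        simp only [Finsupp.add_apply, Finsupp.smul_apply, smul_eq_mul] at h8
        rw [esum_apply_eq_zero h2 hle, esum_apply_eq_zero h3 hle, zero_add] at h8
        rcases mul_eq_zero.1 h8 with h9 | h9
        · exact hN h9
        · exact hi h9
      have hz : ∀ i, ∃ z : ℤ, (s.factorial : ℚ) * vv l i = z := by
        intro i
        rw [vv_apply]
        by_cases hi : i < l.length
        · obtain ⟨mn, hmn⟩ := h7 i hi
          unfold Qeq at hmn
          rw [qv_qmul, qv_int mn, (hf1 s).2] at hmn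
          have hq' : qv ((s.factorial, 0), 0) = s.factorial := by simp [qv]
          rw [hq'] at hmn
          exact ⟨_, hmn⟩
        · rw [getD_ge (by omega)]
          exact ⟨0, by simp⟩
      have hh : ∃ h, Finsupp.linearCombination ℚ (fun i => jj (B s i)) (vv l) = jj h := by
        refine ⟨ν h, ?_⟩
        have h8 := congrArg (Finsupp.linearCombination ℚ (fun i => jj (B s i))) h4
        rw [map_add, map_smul, lc_esum, lc_esum] at h8
        have h9 : (y.2.1.map (B s)).sum + y.1 • ν h = (y.2.2.map (B s)).sum := by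
          have e1 : ((List.range y.1).map (fun _ => h) ++ y.2.1.map (fun i => bx (f s).1 i)).map ν
              = List.replicate y.1 (ν h) ++ y.2.1.map (B s) := by
            simp only [List.map_append, List.map_map, Function.comp_def, List.map_const',
              List.length_range, List.map_replicate, B]
          have e2 : (y.2.2.map (fun i => bx (f s).1 i)).map ν = y.2.2.map (B s) := by
            simp only [List.map_map, Function.comp_def, B]
          simp only [S] at h5 h6
          rw [e1, List.sum_append, List.sum_replicate] at h5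
          rw [e2] at h6
          rw [h6, ← h5, add_comm]
        have h10 := congrArg jj h9
        rw [map_add, map_nsmul, ← Nat.cast_smul_eq_nsmul ℚ] at h10
        have h11 : (y.1 : ℚ) • Finsupp.linearCombination ℚ (fun i => jj (B s i)) (vv l) =
            (y.1 : ℚ) • jj (ν h) := by
          have := h8.trans h10.symm
          exact add_left_cancel this
        exact smul_right_injective D hN h11
      obtain ⟨T, hT⟩ := hlim (vv l)
      obtain ⟨h', hh'⟩ := hpers' (vv l) s hv hz hh (max s T) (le_max_left _ _)
      exact ⟨h', by rw [← hT (max s T) (le_max_right _ _), hh']⟩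
    · rintro ⟨h, hh⟩
      obtain ⟨T, hT⟩ := hlim (vv l)
      set s := T + l.length + ∑ i ∈ Finset.range l.length, (qv (l.getD i q0)).den with hs
      have hTs : T ≤ s := by omega
      have hsupp : ∀ i, vv l i ≠ 0 → i < s := by
        intro i hi
        by_contra hle
        apply hi
        rw [vv_apply, getD_ge (by omega), qv_q0]
      obtain ⟨N, hN, P, Q, hP, hQ, hNPQ⟩ := repV_of_support hsupp
      refine ⟨s, f s, (N, P, Q), ν.symm h, rfl, hN, hP, hQ, ?_, ⟨ν.symm ((Q.map (B s)).sum), ?_, ?_⟩, ?_⟩
      · unfold Veq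
        rw [vv_vax, vv_ecode, vv_ecode]
        have hq : qv ((N, 0), 0) = N := by simp [qv]
        simp only [hq]
        rw [add_comm]; exact hNPQ
      · simp only [S]
        have e1 : ((List.range N).map (fun _ => ν.symm h) ++ P.map (fun i => bx (f s).1 i)).map ν
            = List.replicate N h ++ P.map (B s) := by
          simp only [List.map_append, List.map_map, Function.comp_def, List.map_const',
            List.length_range, List.map_replicate, B, Equiv.apply_symm_apply]
        rw [e1, List.sum_append, List.sum_replicate, Equiv.apply_symm_apply]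
        apply hj
        have h8 := congrArg (Finsupp.linearCombination ℚ (fun i => jj (B s i))) hNPQ
        rw [map_add, map_smul, lc_esum, lc_esum, hT s hTs, hh, Nat.cast_smul_eq_nsmul] at h8
        rw [map_add, map_nsmul]
        exact h8
      · simp only [S]
        have e2 : (Q.map (fun i => bx (f s).1 i)).map ν = Q.map (B s) := by
          simp only [List.map_map, Function.comp_def, B]
        rw [e2, Equiv.apply_symm_apply]
      · intro i hi
        have h8 : (qv (l.getD i q0)).den ≤ s := by
          have := Finset.single_le_sum (f := fun i => (qv (l.getD i q0)).den)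
            (fun _ _ => Nat.zero_le _) (Finset.mem_range.2 hi)
          omega
        obtain ⟨w, hw⟩ := Nat.dvd_factorial (qv (l.getD i q0)).den_pos h8
        set z : ℤ := w * (qv (l.getD i q0)).num with hz
        refine ⟨(z.toNat, (-z).toNat), ?_⟩
        unfold Qeq
        rw [qv_qmul, qv_int (z.toNat, (-z).toNat), (hf1 s).2]
        have hq' : qv ((s.factorial, 0), 0) = s.factorial := by simp [qv]
        rw [hq', hw]
        have h9 : ((z.toNat : ℤ) - ((-z).toNat : ℤ)) = z := by omega
        have h10 : ((qv (l.getD i q0)).den : ℚ) * qv (l.getD i q0) = (qv (l.getD i q0)).num :=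
          Rat.den_mul_eq_num _
        simp only
        rw [h9, hz]
        push_cast
        rw [← h10]; ring
  · intro U hU
    obtain ⟨h, _, hh⟩ := hR (U.map LC) inferInstance ∅
    exact ⟨h, fun hmem => hh ⟨ι h, hmem, hι h⟩⟩

end Pool.Agent.Helper70.OD
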