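import Pool.Agent.Helper70.OD.BMain
import Pool.Agent.Helper70.OD.Dob

/-! Stage B: the final statement. -/

namespace Pool.Agent.Helper70.OD

open Encodable Module

theorem RE_PosN {f : ℕ → StB} (hf : RE (fun p : ℕ × StB => f p.1 = p.2)) :
    RE (PosN f) := by
  have h1 : RE (fun i : ℕ => ∃ s : ℕ, ∃ a : StB, f s = a ∧
      (i < a.1.1.length ∧ qv q0 < qv (dotc a.1.2 (gx a.1.1 i)))) := by
    refine RE.ex (R := fun (i : ℕ) (s : ℕ) => ∃ a : StB, f s = a ∧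
      (i < a.1.1.length ∧ qv q0 < qv (dotc a.1.2 (gx a.1.1 i)))) ?_
    refine RE.ex (R := fun (p : ℕ × ℕ) (a : StB) => f p.2 = a ∧
      (p.1 < a.1.1.length ∧ qv q0 < qv (dotc a.1.2 (gx a.1.1 p.1)))) ?_
    refine RE.and ?_ (by fun_prop)
    exact RE.comp (f := fun q : (ℕ × ℕ) × StB => (q.1.2, q.2)) hf (by fun_prop)
  refine h1.of_eq fun i => ?_
  unfold PosN
  simp only [qv_dotc, qv_q0]
  constructor
  · rintro ⟨s, h⟩; exact ⟨s, _, rfl, h⟩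
  · rintro ⟨s, a, rfl, h⟩; exact ⟨s, h⟩

theorem RE_NegN {f : ℕ → StB} (hf : RE (fun p : ℕ × StB => f p.1 = p.2)) :
    RE (NegN f) := by
  have h1 : RE (fun i : ℕ => ∃ s : ℕ, ∃ a : StB, f s = a ∧
      (i < a.1.1.length ∧ qv (dotc a.1.2 (gx a.1.1 i)) < qv q0)) := by
    refine RE.ex (R := fun (i : ℕ) (s : ℕ) => ∃ a : StB, f s = a ∧
      (i < a.1.1.length ∧ qv (dotc a.1.2 (gx a.1.1 i)) < qv q0)) ?_
    refine RE.ex (R := fun (p : ℕ × ℕ) (a : StB) => f p.2 = a ∧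
      (p.1 < a.1.1.length ∧ qv (dotc a.1.2 (gx a.1.1 p.1)) < qv q0)) ?_
    refine RE.and ?_ (by fun_prop)
    exact RE.comp (f := fun q : (ℕ × ℕ) × StB => (q.1.2, q.2)) hf (by fun_prop)
  refine h1.of_eq fun i => ?_
  unfold NegN
  simp only [qv_dotc, qv_q0]
  constructor
  · rintro ⟨s, h⟩; exact ⟨s, _, rfl, h⟩
  · rintro ⟨s, a, rfl, h⟩; exact ⟨s, h⟩

/-- addition on names is c.e. at stages -/
theorem RE_addN {f : ℕ → StB} (hf : RE (fun p : ℕ × StB => f p.1 = p.2)) :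
    RE (fun p : (ℕ × ℕ) × ℕ => ∃ s : ℕ, p.1.1 < (f s).1.1.length ∧ p.1.2 < (f s).1.1.length ∧
      p.2 < (f s).1.1.length ∧ vv (gx (f s).1.1 p.2) =
        vv (gx (f s).1.1 p.1.1) + vv (gx (f s).1.1 p.1.2)) := by
  have h1 : RE (fun p : (ℕ × ℕ) × ℕ => ∃ s : ℕ, ∃ a : StB, f s = a ∧
      (p.1.1 < a.1.1.length ∧ p.1.2 < a.1.1.length ∧ p.2 < a.1.1.length ∧
        Veq (gx a.1.1 p.2) (vax (gx a.1.1 p.1.1) q1 (gx a.1.1 p.1.2)))) := by
    refine RE.ex (R := fun (p : (ℕ × ℕ) × ℕ) (s : ℕ) => ∃ a : StB, f s = a ∧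
      (p.1.1 < a.1.1.length ∧ p.1.2 < a.1.1.length ∧ p.2 < a.1.1.length ∧
        Veq (gx a.1.1 p.2) (vax (gx a.1.1 p.1.1) q1 (gx a.1.1 p.1.2)))) ?_
    refine RE.ex (R := fun (p : ((ℕ × ℕ) × ℕ) × ℕ) (a : StB) => f p.2 = a ∧
      (p.1.1.1 < a.1.1.length ∧ p.1.1.2 < a.1.1.length ∧ p.1.2 < a.1.1.length ∧
        Veq (gx a.1.1 p.1.2) (vax (gx a.1.1 p.1.1.1) q1 (gx a.1.1 p.1.1.2)))) ?_
    refine RE.and ?_ (by fun_prop)
    exact RE.comp (f := fun q : (((ℕ × ℕ) × ℕ) × ℕ) × StB => (q.1.2, q.2)) hf (by fun_prop)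
  refine h1.of_eq fun p => ?_
  unfold Veq
  simp only [vv_vax, qv_q1, one_smul]
  constructor
  · rintro ⟨s, h⟩; exact ⟨s, _, rfl, h⟩
  · rintro ⟨s, a, rfl, h⟩; exact ⟨s, h⟩

theorem stageB (H : Type) [AddCommGroup H] (ι : H →+ VV) (hι : Function.Injective ι)
    {HS : Vc → Prop} (hHS : RE HS) (hH : ∀ l, HS l ↔ ∃ h, ι h = vv l)
    (hinf : ∀ U : Submodule ℚ VV, FiniteDimensional ℚ U → ∃ h, ι h ∉ U)
    {A : ℕ → List (ℕ × Bool) → Prop}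
    (hA : RE (fun p : ℕ × List (ℕ × Bool) => A p.1 p.2)) :
    ∃ μ : ℕ ≃ H, Computable₂ (fun a b : ℕ => μ.symm (μ a + μ b)) ∧
      ∃ P : Set H, IsOrd P ∧
        Computable (Set.indicator (μ ⁻¹' P) (fun _ => (1 : ℕ)) : ℕ → ℕ) ∧
        ∀ (e : ℕ) (Q : Set H), IsOrd Q → Q ≠ P → Q ≠ {a | -a ∈ P} →
          (∀ D : Finset ℕ, ∃ p, A e p ∧ (∀ n ∈ D, ∃ b, (n, b) ∈ p) ∧
            ∀ y ∈ p, (y.2 = true ↔ μ y.1 ∈ Q)) →
          ∃ p, A e p ∧ ∀ Q' : Set H, IsOrd Q' → ¬ ∀ y ∈ p, (y.2 = true ↔ μ y.1 ∈ Q') := by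
  classical
  have hH1 : ∀ u, u ∈ ι.range ↔ ∃ h, ι h = u := fun u => AddMonoidHom.mem_range
  have hinf' : ∀ U : Submodule ℚ VV, FiniteDimensional ℚ U → ∃ h ∈ ι.range, h ∉ U := by
    intro U hU
    obtain ⟨h, hh⟩ := hinf U hU
    exact ⟨ι h, ⟨h, rfl⟩, hh⟩
  obtain ⟨v, hv1, hv2, K, hK, f, hR⟩ := exists_run hHS ι.range
    (fun l => by rw [hH, hH1]) hA
  obtain ⟨gs, hL⟩ := hR.lim hv2 hinf'
  have hm : ∀ i, ∃ h, ι h = vv (gs i) := fun i => (hH1 _).1 (hL.mem i)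
  choose m hm using hm
  have hmb : Function.Bijective m := by
    constructor
    · intro i k hik
      apply hL.inj
      rw [← hm, ← hm, hik]
    · intro h
      obtain ⟨i, hi⟩ := hL.surj (ι h) ⟨h, rfl⟩
      exact ⟨i, hι (by rw [hm, hi])⟩
  let μ : ℕ ≃ H := Equiv.ofBijective m hmb
  have hμ : ∀ i, ι (μ i) = vv (gs i) := hm
  refine ⟨μ, ?_, PP f μ, PP_ord hR hL ι hι μ hμ, ?_, fun e Q hQ h1 h2 h3 =>
    requirement hR hL ι hι μ hμ hinf' (fun h => ⟨h, rfl⟩) hK e Q hQ h1 h2 h3⟩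
  · change Computable (fun p : ℕ × ℕ => μ.symm (μ p.1 + μ p.2))
    refine computable_of_RE ((RE_addN hR.re).of_eq fun p => ?_)
    obtain ⟨⟨a, b⟩, c⟩ := p
    simp only
    constructor
    · rintro rfl
      obtain ⟨T, hT⟩ := hL.stab (a + b + μ.symm (μ a + μ b) + 1)
      obtain ⟨h1, h2⟩ := hT T le_rfl
      refine ⟨T, by omega, by omega, by omega, ?_⟩
      rw [h2 a (by omega), h2 b (by omega), h2 _ (by omega), vv_symm ι μ hμ, map_add, hμ, hμ]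
    · rintro ⟨s, ha, hb, hc, h⟩
      obtain ⟨φ, hφ⟩ := hL.lin s
      rw [Equiv.symm_apply_eq]
      apply hι
      rw [map_add, hμ, hμ, hμ, hφ a ha, hφ b hb, hφ c hc, h, map_add]
  · have h1 := RE_PosN hR.re
    have h2 := RE_NegN hR.re
    have h3 : RE (fun p : ℕ × ℕ => (p.2 = 1 ∧ (p.1 = 0 ∨ PosN f p.1)) ∨
        (p.2 = 0 ∧ NegN f p.1)) := by
      refine RE.or (RE.and (by fun_prop) (RE.or (by fun_prop) ?_)) (RE.and (by fun_prop) ?_)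
      · exact RE.comp (f := fun p : ℕ × ℕ => p.1) h1 (by fun_prop)
      · exact RE.comp (f := fun p : ℕ × ℕ => p.1) h2 (by fun_prop)
    refine computable_of_RE (h3.of_eq fun p => ?_)
    obtain ⟨i, n⟩ := p
    simp only
    have hmem : i ∈ μ ⁻¹' (PP f μ) ↔ (i = 0 ∨ PosN f i) := by
      change (μ.symm (μ i) = 0 ∨ PosN f (μ.symm (μ i))) ↔ _
      rw [Equiv.symm_apply_apply]
    by_cases hi : i = 0 ∨ PosN f i
    · rw [Set.indicator_of_mem (hmem.2 hi)]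
      constructor
      · rintro rfl; exact Or.inl ⟨rfl, hi⟩
      · rintro (⟨h, _⟩ | ⟨_, h⟩)
        · exact h.symm
        · exfalso
          rcases hi with h0 | hp
          · exact negN_ne_zero hR h h0
          · exact not_pos_neg hR hp h
    · rw [Set.indicator_of_notMem (fun h => hi (hmem.1 h))]
      push Not at hi
      constructor
      · rintro rfl
        exact Or.inr ⟨rfl, (pos_or_neg hR hL hi.1).resolve_left hi.2⟩
      · rintro (⟨_, h0 | hp⟩ | ⟨h, _⟩)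
        · exact absurd h0 hi.1
        · exact absurd hp hi.2
        · exact h.symm

end Pool.Agent.Helper70.OD
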