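import Pool.Agent.Helper70.OD.BTr

/-! Stage B: the run of the construction and its limit. -/

namespace Pool.Agent.Helper70.OD

open Encodable Module

/-- a run of the construction -/
structure Run (A : ℕ → List (ℕ × Bool) → Prop) (v : ℕ → Vc) (H1 : AddSubgroup VV)
    (K : (ℕ × List Vc × List (ℕ × Bool)) × ℕ → Prop) (f : ℕ → StB) : Prop where
  re : RE (fun p : ℕ × StB => f p.1 = p.2)
  zero : f 0 = (([[]], []), [])
  inv : ∀ s, InvB H1 (f s)
  tr : ∀ s, TrB A v K s (f s) (f (s + 1))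

theorem exists_run {HS : Vc → Prop} (hHS : RE HS) (H1 : AddSubgroup VV)
    (hH : ∀ l, HS l ↔ vv l ∈ H1) {A : ℕ → List (ℕ × Bool) → Prop}
    (hA : RE (fun p : ℕ × List (ℕ × Bool) => A p.1 p.2)) :
    ∃ v : ℕ → Vc, (∀ j, vv (v j) ∈ H1) ∧ (∀ u ∈ H1, ∃ j, vv (v j) = u) ∧
      ∃ K : (ℕ × List Vc × List (ℕ × Bool)) × ℕ → Prop,
        (∀ e l x, ChkR (fun j w => v j = w) A e l x ↔ ∃ k, K ((e, l, x), k)) ∧
        ∃ f : ℕ → StB, Run A v H1 K f := by
  classical
  obtain ⟨L, hL, hHSL⟩ := hHS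
  have hLc : RE L := RE.prim hL
  obtain ⟨Ln, hLn, hLn'⟩ : ∃ Ln : Vc × ℕ → Prop, RE Ln ∧ ∀ p, Ln p ↔ ¬ L p :=
    ⟨fun p => ¬ L p, RE.prim hL.not, fun _ => Iff.rfl⟩
  let v : ℕ → Vc := fun j =>
    ((decode (α := Vc × ℕ) j).bind (fun q => if L q then some q.1 else none)).getD []
  have hv : RE (fun p : ℕ × Vc => v p.1 = p.2) := by
    have h1 : RE (fun p : ℕ × Vc => (∃ q : Vc × ℕ, decode (α := Vc × ℕ) p.1 = some q ∧
        ((L q ∧ q.1 = p.2) ∨ (Ln q ∧ p.2 = []))) ∨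
        (decode (α := Vc × ℕ) p.1 = none ∧ p.2 = [])) := by
      fun_prop
    refine h1.of_eq fun ⟨j, w⟩ => ?_
    simp only [v]
    rcases hd : decode (α := Vc × ℕ) j with _ | q
    · simp [eq_comm]
    · by_cases hq : L q
      · simp [hq, hLn']
      · simp [hq, hLn', eq_comm]
  have hv1 : ∀ j, vv (v j) ∈ H1 := by
    intro j
    simp only [v]
    rcases hd : decode (α := Vc × ℕ) j with _ | q
    · simp [H1.zero_mem]
    · by_cases hq : L q
      · simp only [Option.bind_some, if_pos hq, Option.getD_some]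
        exact (hH _).1 ((hHSL _).2 ⟨q.2, hq⟩)
      · simp [hq, H1.zero_mem]
  have hv2 : ∀ u ∈ H1, ∃ j, vv (v j) = u := by
    intro u hu
    obtain ⟨l, rfl⟩ := vv_surj u
    obtain ⟨k, hk⟩ := (hHSL l).1 ((hH _).2 hu)
    refine ⟨encode (l, k), ?_⟩
    simp [v, hk]
  refine ⟨v, hv1, hv2, ?_⟩
  have hVG : ∀ j w, (fun j w => v j = w) j w ↔ v j = w := fun _ _ => Iff.rfl
  have hchk : RE (fun p : ℕ × List Vc × List (ℕ × Bool) =>
      ChkR (fun j w => v j = w) A p.1 p.2.1 p.2.2) := RE_ChkR (fun j w => v j = w) A hv hA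
  obtain ⟨K, hK, hKc⟩ := hchk
  have hK' : ∀ e l x k, K ((e, l, x), k) → ChkR (fun j w => v j = w) A e l x :=
    fun e l x k h => (hKc (e, l, x)).2 ⟨k, h⟩
  have hHS' : RE HS := ⟨L, hL, hHSL⟩
  have h0 : InvB H1 ((([[]], []), []) : StB) := by
    refine ⟨by simp, rfl, ?_, ?_⟩
    · intro i hi
      simp only [List.length_singleton, Nat.lt_one_iff] at hi
      subst hi
      simp only [gx, List.getD_cons_zero, vv_nil]
      exact H1.zero_mem
    · intro i hi k hk hik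
      simp only [List.length_singleton, Nat.lt_one_iff] at hi hk
      omega
  obtain ⟨f, hf, hf0, hfs⟩ := RE.iterate
    (R := StepB (fun j w => v j = w) HS K (fun z => ¬ K z))
    (RE_StepB (fun j w => v j = w) HS hv hHS' K (fun z => ¬ K z) (RE.prim hK)
      (RE.prim hK.not)) (fun _ a => InvB H1 a) (([[]], []), []) h0
    (fun s a ha => stepB_total v hVG H1 hH (fun _ => Iff.rfl) hK' s a ha)
    (fun s a a' ha h => (stepB_facts v hVG H1 hH hv1 (fun _ => Iff.rfl) hK' s _ _ ha h).1)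
  refine ⟨K, fun e l x => hKc (e, l, x), f, hf, hf0, fun s => (hfs s).1, fun s => ?_⟩
  exact (stepB_facts v hVG H1 hH hv1 (fun _ => Iff.rfl) hK' s _ _ (hfs s).1 (hfs s).2).2

namespace Run

variable {A : ℕ → List (ℕ × Bool) → Prop} {v : ℕ → Vc} {H1 : AddSubgroup VV}
  {K : (ℕ × List Vc × List (ℕ × Bool)) × ℕ → Prop} {f : ℕ → StB} (hR : Run A v H1 K f)

include hR

theorem len_mono {s t : ℕ} (h : s ≤ t) : (f s).1.1.length ≤ (f t).1.1.length := by
  induction t, h using Nat.le_induction with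
  | base => exact le_rfl
  | succ t _ ih => exact ih.trans (hR.tr t).len

theorem lin_le {s t : ℕ} (h : s ≤ t) : ∃ φ : VV →ₗ[ℚ] VV, ∀ i < (f s).1.1.length,
    vv (gx (f t).1.1 i) = φ (vv (gx (f s).1.1 i)) := by
  induction t, h using Nat.le_induction with
  | base => exact ⟨LinearMap.id, fun i _ => rfl⟩
  | succ t hst ih =>
    obtain ⟨φ, hφ⟩ := ih
    obtain ⟨χ, hχ⟩ := (hR.tr t).lin
    refine ⟨χ ∘ₗ φ, fun i hi => ?_⟩
    rw [hχ i (hi.trans_le (hR.len_mono hst)), hφ i hi]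
    rfl

theorem ord_le {s t : ℕ} (h : s ≤ t) : ∀ i < (f s).1.1.length, ∀ k < (f s).1.1.length,
    fn (vv (f s).1.2) (vv (gx (f s).1.1 i)) < fn (vv (f s).1.2) (vv (gx (f s).1.1 k)) →
    fn (vv (f t).1.2) (vv (gx (f t).1.1 i)) < fn (vv (f t).1.2) (vv (gx (f t).1.1 k)) := by
  induction t, h using Nat.le_induction with
  | base => exact fun i _ k _ h => h
  | succ t hst ih =>
    intro i hi k hk hlt
    exact (hR.tr t).ord i (hi.trans_le (hR.len_mono hst)) k (hk.trans_le (hR.len_mono hst))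
      (ih i hi k hk hlt)

theorem done_succ (s : ℕ) {e : ℕ} (h : e ∈ (f s).2) : e ∈ (f (s + 1)).2 := by
  rcases Nat.mod_two_eq_zero_or_one s with hs | hs
  · rw [((hR.tr s).even hs).2.2.1]; exact h
  · rcases ((hR.tr s).odd hs).2 with ⟨h1, _⟩ | ⟨_, h1, _⟩
    · rw [h1]; exact h
    · rw [h1]; exact List.mem_cons_of_mem _ h

theorem done_mono {s t : ℕ} (h : s ≤ t) {e : ℕ} (he : e ∈ (f s).2) : e ∈ (f t).2 := by
  induction t, h using Nat.le_induction with
  | base => exact he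
  | succ t _ ih => exact hR.done_succ t ih

/-- if a requirement is done, there is a stage at which it acted -/
theorem acted {s : ℕ} {e : ℕ} (he : e ∈ (f s).2) : ∃ t, t < s ∧ t % 2 = 1 ∧
    (t / 2).unpair.1 = e ∧ e ∉ (f t).2 ∧ e ∈ (f (t + 1)).2 := by
  induction s with
  | zero => rw [hR.zero] at he; cases he
  | succ s ih =>
    by_cases h : e ∈ (f s).2
    · obtain ⟨t, ht, h1⟩ := ih h
      exact ⟨t, by omega, h1⟩
    · rcases Nat.mod_two_eq_zero_or_one s with hs | hs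
      · rw [((hR.tr s).even hs).2.2.1] at he; exact absurd he h
      · rcases ((hR.tr s).odd hs).2 with ⟨h1, _⟩ | ⟨_, h1, _⟩
        · rw [h1] at he; exact absurd he h
        · have he' := he
          rw [h1] at he'
          rcases List.mem_cons.1 he' with h2 | h2
          · exact ⟨s, by omega, hs, h2.symm, h, he⟩
          · exact absurd h2 h

theorem settled (e : ℕ) : ∃ S, ∀ s, S ≤ s → s % 2 = 1 → (s / 2).unpair.1 = e →
    f (s + 1) = f s ∧ (e ∈ (f s).2 ∨ ∀ c ∈ cand Cnd s, e ≤ c.1 →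
        K ((e, (f s).1.1.take c.1, c.2.1), c.2.2) → ¬ MixR (f s).1.1 (f s).1.2 c.2.1) := by
  by_cases h : ∃ t, e ∈ (f t).2
  · obtain ⟨t, ht⟩ := h
    refine ⟨t, fun s hs hs1 hse => ?_⟩
    have hes : e ∈ (f s).2 := hR.done_mono hs ht
    have := ((hR.tr s).odd hs1).2
    rw [hse] at this
    rcases this with h1 | h1
    · exact h1
    · exact absurd hes h1.1
  · push Not at h
    refine ⟨0, fun s _ hs1 hse => ?_⟩
    have := ((hR.tr s).odd hs1).2
    rw [hse] at this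
    rcases this with h1 | h1
    · exact h1
    · refine absurd ?_ (h (s + 1))
      rw [h1.2.1]; exact List.mem_cons_self

theorem settled_lt (n : ℕ) : ∃ S, ∀ s, S ≤ s → s % 2 = 1 → (s / 2).unpair.1 < n →
    f (s + 1) = f s := by
  induction n with
  | zero => exact ⟨0, fun s _ _ h => absurd h (Nat.not_lt_zero _)⟩
  | succ n ih =>
    obtain ⟨S, hS⟩ := ih
    obtain ⟨S', hS'⟩ := hR.settled n
    refine ⟨max S S', fun s hs hs1 h => ?_⟩
    rcases Nat.lt_succ_iff_lt_or_eq.1 h with h | h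
    · exact hS s (le_trans (le_max_left _ _) hs) hs1 h
    · exact (hS' s (le_trans (le_max_right _ _) hs) hs1 h).1

/-- codes stabilise -/
theorem stable (i : ℕ) : ∃ T, ∀ s, T ≤ s → gx (f s).1.1 i = gx (f T).1.1 i := by
  obtain ⟨S, hS⟩ := hR.settled_lt (i + 1)
  by_cases hb : ∃ t, i < (f t).1.1.length
  · obtain ⟨t, ht⟩ := hb
    refine ⟨max S t, fun s hs => ?_⟩
    induction s, hs using Nat.le_induction with
    | base => rfl
    | succ s hs ih =>
      rw [← ih]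
      have hi : i < (f s).1.1.length :=
        ht.trans_le (hR.len_mono (le_trans (le_max_right _ _) hs))
      rcases Nat.mod_two_eq_zero_or_one s with h0 | h1
      · exact ((hR.tr s).even h0).2.1 i hi
      · rcases ((hR.tr s).odd h1).2 with ⟨h2, _⟩ | ⟨_, _, h2, _⟩
        · rw [h2]
        · by_cases h3 : i < (s / 2).unpair.1
          · exact h2 i hi h3
          · rw [hS s (le_trans (le_max_left _ _) hs) h1 (by omega)]
  · push Not at hb
    exact ⟨0, fun s _ => by rw [gx_nil_of_ge (hb s), gx_nil_of_ge (hb 0)]⟩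

/-- every element eventually gets a permanent name -/
theorem perm (j : ℕ) : ∃ i T, ∀ s, T ≤ s → i < (f s).1.1.length ∧
    vv (gx (f s).1.1 i) = vv (v j) := by
  obtain ⟨S, hS⟩ := hR.settled_lt (j + 1)
  have hs2 : (2 * Nat.pair j S) / 2 = Nat.pair j S := by omega
  obtain ⟨i, hi, hiv⟩ := ((hR.tr (2 * Nat.pair j S)).even (by omega)).1
  rw [hs2, Nat.unpair_pair] at hiv
  have hSle : S ≤ 2 * Nat.pair j S := by
    have := Nat.right_le_pair j S
    omega
  refine ⟨i, 2 * Nat.pair j S + 1, fun s hs => ?_⟩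
  induction s, hs using Nat.le_induction with
  | base => exact ⟨hi, hiv⟩
  | succ s hs ih =>
    obtain ⟨h1, h2⟩ := ih
    refine ⟨h1.trans_le (hR.tr s).len, ?_⟩
    rcases Nat.mod_two_eq_zero_or_one s with h0 | h0
    · rw [((hR.tr s).even h0).2.1 i h1]; exact h2
    · rcases ((hR.tr s).odd h0).2 with ⟨h3, _⟩ | ⟨_, _, _, h3, _⟩
      · rw [h3]; exact h2
      · by_cases h4 : j < (s / 2).unpair.1
        · rw [h3 i h1 j h4 h2]; exact h2
        · rw [hS s (by omega) h0 (by omega)]; exact h2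

end Run

/-- the limit structure -/
structure Lim (f : ℕ → StB) (H1 : AddSubgroup VV) (gs : ℕ → Vc) : Prop where
  stab : ∀ n, ∃ T, ∀ s, T ≤ s → n ≤ (f s).1.1.length ∧ ∀ i < n, gx (f s).1.1 i = gs i
  zero : gs 0 = []
  mem : ∀ i, vv (gs i) ∈ H1
  surj : ∀ u ∈ H1, ∃ i, vv (gs i) = u
  inj : ∀ i k, vv (gs i) = vv (gs k) → i = k
  lin : ∀ s, ∃ φ : VV →ₗ[ℚ] VV, ∀ i < (f s).1.1.length, vv (gs i) = φ (vv (gx (f s).1.1 i))

theorem Run.lim {A : ℕ → List (ℕ × Bool) → Prop} {v : ℕ → Vc} {H1 : AddSubgroup VV}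
    {K : (ℕ × List Vc × List (ℕ × Bool)) × ℕ → Prop} {f : ℕ → StB} (hR : Run A v H1 K f)
    (hv2 : ∀ u ∈ H1, ∃ j, vv (v j) = u)
    (hinf : ∀ U : Submodule ℚ VV, FiniteDimensional ℚ U → ∃ h ∈ H1, h ∉ U) :
    ∃ gs, Lim f H1 gs := by
  classical
  choose T hT using hR.stable
  let gs : ℕ → Vc := fun i => gx (f (T i)).1.1 i
  have hgs : ∀ i s, T i ≤ s → gx (f s).1.1 i = gs i := hT
  have hsurj : ∀ u ∈ H1, ∃ i, (∃ s, i < (f s).1.1.length) ∧ vv (gs i) = u := by
    intro u hu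
    obtain ⟨j, rfl⟩ := hv2 u hu
    obtain ⟨i, T', h⟩ := hR.perm j
    refine ⟨i, ⟨T', (h T' le_rfl).1⟩, ?_⟩
    rw [← hgs i (max (T i) T') (le_max_left _ _)]
    exact (h _ (le_max_right _ _)).2
  have hunb : ∀ n, ∃ s, n ≤ (f s).1.1.length := by
    intro n
    by_contra hcon
    push Not at hcon
    obtain ⟨h, hh, hhU⟩ := hinf (Submodule.span ℚ (Set.range (fun i : Fin n => vv (gs i))))
      (FiniteDimensional.span_of_finite ℚ (Set.finite_range _))
    obtain ⟨i, ⟨s, hs⟩, rfl⟩ := hsurj h hh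
    exact hhU (Submodule.subset_span ⟨⟨i, hs.trans (hcon s)⟩, rfl⟩)
  have hstab : ∀ n, ∃ T', ∀ s, T' ≤ s → n ≤ (f s).1.1.length ∧
      ∀ i < n, gx (f s).1.1 i = gs i := by
    intro n
    obtain ⟨s0, hs0⟩ := hunb n
    refine ⟨max s0 ((Finset.range n).sup T), fun s hs => ⟨hs0.trans (hR.len_mono
      (le_trans (le_max_left _ _) hs)), fun i hi => hgs i s ?_⟩⟩
    exact le_trans (Finset.le_sup (f := T) (Finset.mem_range.2 hi))
      (le_trans (le_max_right _ _) hs)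
  refine ⟨gs, hstab, ?_, ?_, ?_, ?_, ?_⟩
  · exact (hR.inv _).2.1
  · intro i
    obtain ⟨T', hT'⟩ := hstab (i + 1)
    rw [← (hT' T' le_rfl).2 i (by omega)]
    exact (hR.inv T').2.2.1 i (lt_of_lt_of_le (Nat.lt_succ_self i) (hT' T' le_rfl).1)
  · intro u hu
    obtain ⟨i, _, h⟩ := hsurj u hu
    exact ⟨i, h⟩
  · intro i k hik
    by_contra hne
    obtain ⟨T', hT'⟩ := hstab (i + k + 1)
    obtain ⟨h1, h2⟩ := hT' T' le_rfl
    refine (hR.inv T').2.2.2 i (by omega) k (by omega) hne ?_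
    rw [h2 i (by omega), h2 k (by omega), hik]
  · intro s
    obtain ⟨T', hT'⟩ := hstab (f s).1.1.length
    obtain ⟨φ, hφ⟩ := hR.lin_le (le_max_right T' s)
    refine ⟨φ, fun i hi => ?_⟩
    rw [← hφ i hi, (hT' _ (le_max_left _ _)).2 i hi]

/-- positive names -/
def PosN (f : ℕ → StB) (i : ℕ) : Prop :=
  ∃ s, i < (f s).1.1.length ∧ 0 < fn (vv (f s).1.2) (vv (gx (f s).1.1 i))

/-- negative names -/
def NegN (f : ℕ → StB) (i : ℕ) : Prop :=
  ∃ s, i < (f s).1.1.length ∧ fn (vv (f s).1.2) (vv (gx (f s).1.1 i)) < 0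

section
variable {A : ℕ → List (ℕ × Bool) → Prop} {v : ℕ → Vc} {H1 : AddSubgroup VV}
  {K : (ℕ × List Vc × List (ℕ × Bool)) × ℕ → Prop} {f : ℕ → StB} (hR : Run A v H1 K f)
  {gs : ℕ → Vc} (hL : Lim f H1 gs)

include hR

theorem fn_zero_name (s : ℕ) : fn (vv (f s).1.2) (vv (gx (f s).1.1 0)) = 0 := by
  rw [(hR.inv s).2.1, vv_nil, map_zero]

theorem pos_le {s t : ℕ} (h : s ≤ t) {i : ℕ} (hi : i < (f s).1.1.length)
    (hp : 0 < fn (vv (f s).1.2) (vv (gx (f s).1.1 i))) :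
    0 < fn (vv (f t).1.2) (vv (gx (f t).1.1 i)) := by
  have := hR.ord_le h 0 (hR.inv s).1 i hi (by rw [fn_zero_name hR]; exact hp)
  rwa [fn_zero_name hR] at this

theorem neg_le {s t : ℕ} (h : s ≤ t) {i : ℕ} (hi : i < (f s).1.1.length)
    (hp : fn (vv (f s).1.2) (vv (gx (f s).1.1 i)) < 0) :
    fn (vv (f t).1.2) (vv (gx (f t).1.1 i)) < 0 := by
  have := hR.ord_le h i hi 0 (hR.inv s).1 (by rw [fn_zero_name hR]; exact hp)
  rwa [fn_zero_name hR] at this

theorem ne_zero_name {s i : ℕ} (hi : i < (f s).1.1.length) (h0 : i ≠ 0) :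
    fn (vv (f s).1.2) (vv (gx (f s).1.1 i)) ≠ 0 := by
  have := (hR.inv s).2.2.2 i hi 0 (hR.inv s).1 h0
  rwa [fn_zero_name hR] at this

theorem not_pos_neg {i : ℕ} (h : PosN f i) (h' : NegN f i) : False := by
  obtain ⟨s, hs, h⟩ := h
  obtain ⟨t, ht, h'⟩ := h'
  have h1 := pos_le hR (le_max_left s t) hs h
  have h2 := neg_le hR (le_max_right s t) ht h'
  exact lt_asymm h1 h2

theorem posN_ne_zero {i : ℕ} (h : PosN f i) : i ≠ 0 := by
  rintro rfl
  obtain ⟨s, hs, h⟩ := h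
  rw [fn_zero_name hR] at h
  exact lt_irrefl _ h

theorem negN_ne_zero {i : ℕ} (h : NegN f i) : i ≠ 0 := by
  rintro rfl
  obtain ⟨s, hs, h⟩ := h
  rw [fn_zero_name hR] at h
  exact lt_irrefl _ h

theorem posN_at {i : ℕ} (h : PosN f i) {s : ℕ} (hi : i < (f s).1.1.length) :
    0 < fn (vv (f s).1.2) (vv (gx (f s).1.1 i)) := by
  rcases lt_or_gt_of_ne (ne_zero_name hR hi (posN_ne_zero hR h)) with h1 | h1
  · exact absurd ⟨s, hi, h1⟩ (fun h' => not_pos_neg hR h h')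
  · exact h1

theorem negN_at {i : ℕ} (h : NegN f i) {s : ℕ} (hi : i < (f s).1.1.length) :
    fn (vv (f s).1.2) (vv (gx (f s).1.1 i)) < 0 := by
  rcases lt_or_gt_of_ne (ne_zero_name hR hi (negN_ne_zero hR h)) with h1 | h1
  · exact h1
  · exact absurd ⟨s, hi, h1⟩ (fun h' => not_pos_neg hR h' h)

include hL

theorem pos_or_neg {i : ℕ} (h0 : i ≠ 0) : PosN f i ∨ NegN f i := by
  obtain ⟨T, hT⟩ := hL.stab (i + 1)
  have hi : i < (f T).1.1.length := lt_of_lt_of_le (Nat.lt_succ_self i) (hT T le_rfl).1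
  rcases lt_or_gt_of_ne (ne_zero_name hR hi h0) with h1 | h1
  · exact Or.inr ⟨T, hi, h1⟩
  · exact Or.inl ⟨T, hi, h1⟩

theorem posN_add {i j k : ℕ} (hi : PosN f i) (hj : PosN f j)
    (hk : vv (gs k) = vv (gs i) + vv (gs j)) : PosN f k := by
  obtain ⟨T, hT⟩ := hL.stab (i + j + k + 1)
  obtain ⟨h1, h2⟩ := hT T le_rfl
  refine ⟨T, by omega, ?_⟩
  have h3 := posN_at hR hi (s := T) (by omega)
  have h4 := posN_at hR hj (s := T) (by omega)
  rw [h2 i (by omega)] at h3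
  rw [h2 j (by omega)] at h4
  rw [h2 k (by omega), hk, map_add]
  linarith

theorem posN_neg {i k : ℕ} (hk : vv (gs k) = - vv (gs i)) : PosN f i ↔ NegN f k := by
  obtain ⟨T, hT⟩ := hL.stab (i + k + 1)
  obtain ⟨h1, h2⟩ := hT T le_rfl
  constructor
  · intro hi
    refine ⟨T, by omega, ?_⟩
    have h3 := posN_at hR hi (s := T) (by omega)
    rw [h2 i (by omega)] at h3
    rw [h2 k (by omega), hk, map_neg]
    linarith
  · intro hi
    refine ⟨T, by omega, ?_⟩
    have h3 := negN_at hR hi (s := T) (by omega)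
    rw [h2 k (by omega), hk, map_neg] at h3
    rw [h2 i (by omega)]
    linarith

/-- the dichotomy for new names -/
theorem dich (n : ℕ) : vv (gs n) ∈ Submodule.span ℚ ((fun i => vv (gs i)) '' {i | i < n}) ∨
    (PosN f n ∧ ∀ i < n, PosN f i → ∀ k, vv (gs k) = vv (gs i) - vv (gs n) → PosN f k) := by
  classical
  rcases Nat.eq_zero_or_pos n with rfl | hn
  · left; rw [hL.zero, vv_nil]; exact Submodule.zero_mem _
  obtain ⟨T, hT⟩ := hL.stab (n + 1)
  have hex : ∃ s, n < (f s).1.1.length := ⟨T, lt_of_lt_of_le (Nat.lt_succ_self n) (hT T le_rfl).1⟩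
  obtain ⟨s, hs⟩ : ∃ s, Nat.find hex = s + 1 := by
    refine Nat.exists_eq_succ_of_ne_zero fun h => ?_
    have := Nat.find_spec hex
    rw [h, hR.zero] at this
    simp at this; omega
  have h1 : n < (f (s + 1)).1.1.length := by
    have := Nat.find_spec hex
    rwa [hs] at this
  have h2 : (f s).1.1.length ≤ n := by
    have := Nat.find_min hex (m := s) (by omega)
    omega
  rcases Nat.mod_two_eq_zero_or_one s with h0 | h0
  swap
  · have := ((hR.tr s).odd h0).1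
    omega
  obtain ⟨_, h3, _, h4⟩ := (hR.tr s).even h0
  rcases h4 with h4 | ⟨h4, h5⟩
  · omega
  have h6 : (f s).1.1.length = n := by omega
  rw [h6] at h4 h5
  rcases h5 with h5 | ⟨h5, h7⟩
  · left
    obtain ⟨φ, hφ⟩ := hL.lin (s + 1)
    rw [hφ n h1]
    have h8 := Submodule.mem_map_of_mem (f := φ) h5
    rw [Submodule.map_span, Set.image_image] at h8
    have h9 : (fun i => φ (vv (gx (f (s + 1)).1.1 i))) '' {i | i < n} =
        (fun i => vv (gs i)) '' {i | i < n} := by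
      refine Set.image_congr fun i hi => ?_
      rw [hφ i (lt_trans hi h1)]
    rw [h9] at h8
    exact h8
  · right
    refine ⟨⟨s + 1, h1, h5⟩, fun i hi hpi k hk => ?_⟩
    have h8 := h7 i hi (posN_at hR hpi (by omega))
    obtain ⟨T', hT'⟩ := hL.stab (n + k + 1)
    obtain ⟨h10, h11⟩ := hT' (max T' (s + 1)) (le_max_left _ _)
    have h12 := hR.ord_le (le_max_right T' (s + 1)) n h1 i (by omega) h8
    refine ⟨max T' (s + 1), by omega, ?_⟩
    rw [h11 n (by omega), h11 i (by omega)] at h12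
    rw [h11 k (by omega), hk, map_sub]
    linarith

end

end Pool.Agent.Helper70.OD
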