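import Pool.Agent.Helper70.OD.BLim

/-! Stage B: the copy, its order and the requirements. -/

namespace Pool.Agent.Helper70.OD

open Encodable Module

/-- positive cones of orders -/
def IsOrd {H : Type} [AddCommGroup H] (P : Set H) : Prop :=
  (∀ a ∈ P, ∀ b ∈ P, a + b ∈ P) ∧ (∀ a : H, a ∈ P → -a ∈ P → a = 0) ∧
    (∀ a : H, a ∈ P ∨ -a ∈ P)

theorem seqs {H1 : AddSubgroup VV}
    (hinf : ∀ U : Submodule ℚ VV, FiniteDimensional ℚ U → ∃ h ∈ H1, h ∉ U)
    (W : Submodule ℚ VV) (hW : FiniteDimensional ℚ W) (n0 : ℕ) (w0 : ℕ → VV)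
    (h0 : ∀ i < n0, w0 i ∈ H1 ∧ w0 i ∉ W ⊔ Submodule.span ℚ (w0 '' {k | k < i})) (n : ℕ)
    (hn : n0 ≤ n) : ∃ w : ℕ → VV, (∀ i < n0, w i = w0 i) ∧
      ∀ i < n, w i ∈ H1 ∧ w i ∉ W ⊔ Submodule.span ℚ (w '' {k | k < i}) := by
  classical
  induction n, hn using Nat.le_induction with
  | base => exact ⟨w0, fun _ _ => rfl, h0⟩
  | succ n hn ih =>
    obtain ⟨w, hw, hw'⟩ := ih
    have hfin : FiniteDimensional ℚ (Submodule.span ℚ (w '' {k | k < n})) :=
      FiniteDimensional.span_of_finite ℚ ((Set.finite_lt_nat n).image w)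
    obtain ⟨y, hy, hyU⟩ := hinf (W ⊔ Submodule.span ℚ (w '' {k | k < n})) inferInstance
    have him : ∀ i ≤ n, (Function.update w n y) '' {k | k < i} = w '' {k | k < i} := by
      intro i hi
      refine Set.image_congr fun k hk => ?_
      have hk' : k < i := hk
      rw [Function.update_of_ne (by omega)]
    refine ⟨Function.update w n y, fun i hi => ?_, fun i hi => ?_⟩
    · rw [Function.update_of_ne (by omega)]; exact hw i hi
    · rcases Nat.lt_succ_iff_lt_or_eq.1 hi with hi | rfl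
      · rw [him i hi.le, Function.update_of_ne (by omega)]
        exact hw' i hi
      · rw [him i le_rfl, Function.update_self]
        exact ⟨hy, hyU⟩

theorem duals (W : Submodule ℚ VV) (w : ℕ → VV) (n : ℕ)
    (h : ∀ i < n, w i ∉ W ⊔ Submodule.span ℚ (w '' {k | k < i})) :
    ∃ ψ : ℕ → VV →ₗ[ℚ] ℚ, ∀ a < n, (∀ u ∈ W, ψ a u = 0) ∧
      ∀ b < n, ψ a (w b) = if a = b then 1 else 0 := by
  classical
  induction n with
  | zero => exact ⟨fun _ => 0, fun a ha => absurd ha (Nat.not_lt_zero _)⟩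
  | succ n ih =>
    obtain ⟨ψ, hψ⟩ := ih fun i hi => h i (by omega)
    obtain ⟨χ, hχ, hχn⟩ := LinearMap.exists_extend_of_notMem
      (0 : (W ⊔ Submodule.span ℚ (w '' {k | k < n}) : Submodule ℚ VV) →ₗ[ℚ] ℚ)
      (h n (Nat.lt_succ_self n)) 1
    have hχ0 : ∀ u ∈ W ⊔ Submodule.span ℚ (w '' {k | k < n}), χ u = 0 := by
      intro u hu
      have := LinearMap.congr_fun hχ ⟨u, hu⟩
      simpa using this
    have hχW : ∀ u ∈ W, χ u = 0 := fun u hu => hχ0 u (Submodule.mem_sup_left hu)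
    have hχw : ∀ b < n, χ (w b) = 0 := fun b hb => hχ0 _ (Submodule.mem_sup_right
      (Submodule.subset_span ⟨b, hb, rfl⟩))
    refine ⟨fun a => if a = n then χ else ψ a - (ψ a (w n)) • χ, fun a ha => ?_⟩
    rcases Nat.lt_succ_iff_lt_or_eq.1 ha with ha | rfl
    · simp only [if_neg ha.ne]
      refine ⟨fun u hu => ?_, fun b hb => ?_⟩
      · simp [(hψ a ha).1 u hu, hχW u hu]
      · rcases Nat.lt_succ_iff_lt_or_eq.1 hb with hb | rfl
        · simp [(hψ a ha).2 b hb, hχw b hb]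
        · simp [hχn, ha.ne]
    · simp only [if_true]
      refine ⟨hχW, fun b hb => ?_⟩
      rcases Nat.lt_succ_iff_lt_or_eq.1 hb with hb | rfl
      · rw [hχw b hb, if_neg hb.ne']
      · rw [hχn, if_pos rfl]

theorem ord_pos_sum {H : Type} [AddCommGroup H] {Q : Set H} (hQ : IsOrd Q) (l : List H)
    (hl : ∀ a ∈ l, a ∈ Q ∧ a ≠ 0) (hne : l ≠ []) : l.sum ∈ Q ∧ l.sum ≠ 0 := by
  induction l with
  | nil => exact absurd rfl hne
  | cons a l ih =>
    rw [List.sum_cons]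
    by_cases hln : l = []
    · subst hln
      simpa using hl a (by simp)
    · obtain ⟨h1, h2⟩ := ih (fun b hb => hl b (by simp [hb])) hln
      obtain ⟨h3, h4⟩ := hl a (by simp)
      refine ⟨hQ.1 _ h3 _ h1, fun h => ?_⟩
      have h5 : -a = l.sum := (eq_neg_of_add_eq_zero_right h).symm
      exact h4 (hQ.2.1 a h3 (by rw [h5]; exact h1))

section

variable {A : ℕ → List (ℕ × Bool) → Prop} {v : ℕ → Vc} {H1 : AddSubgroup VV}
  {K : (ℕ × List Vc × List (ℕ × Bool)) × ℕ → Prop} {f : ℕ → StB} (hR : Run A v H1 K f)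
  {gs : ℕ → Vc} (hL : Lim f H1 gs) {H : Type} [AddCommGroup H] (ι : H →+ VV)
  (hι : Function.Injective ι) (hH1 : ∀ u, u ∈ H1 ↔ ∃ h, ι h = u) (μ : ℕ ≃ H)
  (hμ : ∀ i, ι (μ i) = vv (gs i))

/-- the order -/
def PP (f : ℕ → StB) (μ : ℕ ≃ H) : Set H := {h | μ.symm h = 0 ∨ PosN f (μ.symm h)}

include hR hL hι hμ

omit hR in
theorem mu_zero : μ 0 = 0 := by
  apply hι
  rw [hμ, hL.zero, vv_nil, map_zero]

omit hR in
theorem symm_eq_zero {a : H} : μ.symm a = 0 ↔ a = 0 := by
  rw [Equiv.symm_apply_eq, mu_zero hL ι hι μ hμ]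

omit hR hL hι in
theorem vv_symm (a : H) : vv (gs (μ.symm a)) = ι a := by
  rw [← hμ, Equiv.apply_symm_apply]

omit hR in
theorem mem_PP {a : H} : a ∈ PP f μ ↔ a = 0 ∨ PosN f (μ.symm a) := by
  unfold PP
  change (μ.symm a = 0 ∨ _) ↔ _
  rw [symm_eq_zero hL ι hι μ hμ]

theorem PP_ord : IsOrd (PP f μ) := by
  refine ⟨?_, ?_, ?_⟩
  · intro a ha b hb
    rw [mem_PP hL ι hι μ hμ] at ha hb ⊢
    rcases ha with rfl | ha
    · rw [zero_add]; exact hb
    · rcases hb with rfl | hb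
      · rw [add_zero]; exact Or.inr ha
      · right
        refine posN_add hR hL ha hb ?_
        rw [vv_symm ι μ hμ, vv_symm ι μ hμ, vv_symm ι μ hμ, map_add]
  · intro a ha hb
    rw [mem_PP hL ι hι μ hμ] at ha hb
    rcases ha with rfl | ha
    · rfl
    · rcases hb with hb | hb
      · simpa using hb
      · exfalso
        have h1 : NegN f (μ.symm (-a)) := (posN_neg hR hL (i := μ.symm a) (by
          rw [vv_symm ι μ hμ, vv_symm ι μ hμ, map_neg])).1 ha
        exact not_pos_neg hR hb h1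
  · intro a
    rw [mem_PP hL ι hι μ hμ, mem_PP hL ι hι μ hμ]
    by_cases h0 : a = 0
    · exact Or.inl (Or.inl h0)
    · have h1 : μ.symm a ≠ 0 := fun h => h0 ((symm_eq_zero hL ι hι μ hμ).1 h)
      rcases pos_or_neg hR hL h1 with h2 | h2
      · exact Or.inl (Or.inr h2)
      · right; right
        refine (posN_neg hR hL (i := μ.symm (-a)) (k := μ.symm a) ?_).2 h2
        rw [vv_symm ι μ hμ, vv_symm ι μ hμ, map_neg, neg_neg]

theorem small (hinf : ∀ U : Submodule ℚ VV, FiniteDimensional ℚ U → ∃ h ∈ H1, h ∉ U)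
    (W : Submodule ℚ VV) (hW : FiniteDimensional ℚ W) {x : H} (hx : x ∈ PP f μ) (hx0 : x ≠ 0) :
    ∃ y, y ∈ PP f μ ∧ x - y ∈ PP f μ ∧ ι y ∉ W := by
  classical
  set m := μ.symm x with hm
  have hxm : PosN f m := by
    rw [mem_PP hL ι hι μ hμ] at hx
    exact hx.resolve_left hx0
  let W' : Submodule ℚ VV := W ⊔ Submodule.span ℚ ((fun i => vv (gs i)) '' {i | i < m + 1})
  have hfin : FiniteDimensional ℚ
      (Submodule.span ℚ ((fun i => vv (gs i)) '' {i | i < m + 1})) :=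
    FiniteDimensional.span_of_finite ℚ ((Set.finite_lt_nat (m + 1)).image _)
  have hex : ∃ n, vv (gs n) ∉ W' := by
    obtain ⟨h, hh, hhW⟩ := hinf W' inferInstance
    obtain ⟨n, rfl⟩ := hL.surj h hh
    exact ⟨n, hhW⟩
  have hmin : ∀ i < Nat.find hex, vv (gs i) ∈ W' := by
    intro i hi
    have := Nat.find_min hex hi
    exact not_not.1 this
  have hn := Nat.find_spec hex
  set n := Nat.find hex with hndef
  have hmn : m < n := by
    by_contra hc
    exact hn (Submodule.mem_sup_right (Submodule.subset_span ⟨n, by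
      change n < m + 1; omega, rfl⟩))
  rcases dich hR hL n with h1 | ⟨h1, h2⟩
  · exfalso
    refine hn ?_
    refine (Submodule.span_le (p := W')).2 ?_ h1
    rintro _ ⟨i, hi, rfl⟩
    exact hmin i hi
  · refine ⟨μ n, ?_, ?_, ?_⟩
    · rw [mem_PP hL ι hι μ hμ, Equiv.symm_apply_apply]
      exact Or.inr h1
    · rw [mem_PP hL ι hι μ hμ]
      right
      refine h2 m hmn hxm _ ?_
      rw [vv_symm ι μ hμ, map_sub, hμ, hm, vv_symm ι μ hμ]
    · rw [hμ]
      exact fun h => hn (Submodule.mem_sup_left h)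

omit hR hL hι hμ in
theorem ord_eq {P Q : Set H} (hP : IsOrd P) (hQ : IsOrd Q) (h : P ⊆ Q) : Q = P := by
  refine Set.Subset.antisymm (fun q hq => ?_) h
  rcases hP.2.2 q with h1 | h1
  · exact h1
  · have := hQ.2.1 q hq (h h1)
    subst this
    simpa using h1

omit hR hL hι hμ in
theorem isOrd_neg {P : Set H} (hP : IsOrd P) : IsOrd {a | -a ∈ P} := by
  refine ⟨fun a ha b hb => ?_, fun a ha hb => ?_, fun a => ?_⟩
  · change -(a + b) ∈ P
    rw [neg_add]; exact hP.1 _ ha _ hb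
  · have := hP.2.1 (-a) ha hb
    simpa using this
  · exact hP.2.2 (-a)

/-- once a requirement has acted, it is satisfied -/
theorem req_done {e s : ℕ} (he : e ∈ (f s).2) :
    ∃ p, A e p ∧ ∀ Q' : Set H, IsOrd Q' → ¬ ∀ y ∈ p, (y.2 = true ↔ μ y.1 ∈ Q') := by
  classical
  obtain ⟨t, _, ht1, ht2, ht3, ht4⟩ := hR.acted he
  have h1 := ((hR.tr t).odd ht1).2
  rw [ht2] at h1
  rcases h1 with ⟨h1, _⟩ | ⟨_, _, _, _, x, ⟨p, hp, hxp⟩, hx, c, hc, hcx, hsum⟩
  · rw [h1] at ht4; exact absurd ht4 ht3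
  refine ⟨p, hp, fun Q' hQ' hall => ?_⟩
  have hxx : ∀ b, b < x.length → xx x b ∈ x := by
    intro b hb
    unfold xx
    rw [List.getD_eq_getElem?_getD, List.getElem?_eq_getElem hb]
    exact List.getElem_mem hb
  obtain ⟨φ, hφ⟩ := hL.lin (t + 1)
  let hb : ℕ → H := fun b => if (xx x b).2 = true then μ (xx x b).1 else -μ (xx x b).1
  have hιb : ∀ b ∈ c, ι (hb b) = φ (yv (f (t + 1)).1.1 x b) := by
    intro b hbc
    have h2 := (hx _ (hxx b (hcx b hbc))).1
    have h3 : (xx x b).1 < (f (t + 1)).1.1.length := h2.trans_le (hR.tr t).len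
    simp only [hb, yv, map_smul, qv_sgc]
    rw [← hφ _ h3]
    split_ifs
    · rw [hμ, one_smul]
    · rw [map_neg, hμ, neg_one_smul]
  have h2 : ι (c.map hb).sum = 0 := by
    rw [map_list_sum, List.map_map]
    have h3 : c.map (ι ∘ hb) = (c.map (yv (f (t + 1)).1.1 x)).map φ := by
      rw [List.map_map]
      exact List.map_congr_left fun b hbc => hιb b hbc
    rw [h3, ← map_list_sum, hsum, map_zero]
  have h3 : (c.map hb).sum = 0 := hι (by rw [h2, map_zero])
  refine (ord_pos_sum hQ' (c.map hb) ?_ (by simpa using hc)).2 h3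
  intro a ha
  rw [List.mem_map] at ha
  obtain ⟨b, hbc, rfl⟩ := ha
  have h4 := hxx b (hcx b hbc)
  have h5 : (xx x b).1 ≠ 0 := by
    intro h0
    have := (hx _ h4).2
    rw [h0, fn_zero_name hR] at this
    exact this rfl
  have h6 : μ (xx x b).1 ≠ 0 := by
    intro h0
    rw [← mu_zero hL ι hι μ hμ] at h0
    exact h5 (μ.injective h0)
  have h7 := hall _ (hxp _ h4)
  simp only [hb]
  split_ifs with h8
  · exact ⟨h7.1 h8, h6⟩
  · have h9 : μ (xx x b).1 ∉ Q' := fun h => h8 (h7.2 h)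
    exact ⟨(hQ'.2.2 _).resolve_left h9, neg_ne_zero.2 h6⟩

theorem requirement (hinf : ∀ U : Submodule ℚ VV, FiniteDimensional ℚ U → ∃ h ∈ H1, h ∉ U)
    (hHι : ∀ h, ι h ∈ H1)
    (hK : ∀ e l x, ChkR (fun j w => v j = w) A e l x ↔ ∃ k, K ((e, l, x), k))
    (e : ℕ) (Q : Set H) (hQ : IsOrd Q) (hQ1 : Q ≠ PP f μ) (hQ2 : Q ≠ {a | -a ∈ PP f μ})
    (hD : ∀ D : Finset ℕ, ∃ p, A e p ∧ (∀ n ∈ D, ∃ b, (n, b) ∈ p) ∧
      ∀ y ∈ p, (y.2 = true ↔ μ y.1 ∈ Q)) :
    ∃ p, A e p ∧ ∀ Q' : Set H, IsOrd Q' → ¬ ∀ y ∈ p, (y.2 = true ↔ μ y.1 ∈ Q') := by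
  classical
  suffices h : ∃ s, e ∈ (f s).2 by
    obtain ⟨s, hs⟩ := h
    exact req_done hR hL ι hι μ hμ hs
  have hP := PP_ord hR hL ι hι μ hμ
  obtain ⟨x1, hx1, hx1Q⟩ : ∃ x1, x1 ∈ PP f μ ∧ x1 ∉ Q := by
    by_contra hcon
    push Not at hcon
    exact hQ1 (ord_eq hP hQ hcon)
  obtain ⟨x2, hx2, hx2Q⟩ : ∃ x2, x2 ∈ PP f μ ∧ -x2 ∉ Q := by
    by_contra hcon
    push Not at hcon
    have := ord_eq hP (isOrd_neg hQ) hcon
    apply hQ2
    rw [← this]
    ext a
    change a ∈ Q ↔ - -a ∈ Q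
    rw [neg_neg]
  have hx1Q' : -x1 ∈ Q := (hQ.2.2 x1).resolve_left hx1Q
  have hx2Q' : x2 ∈ Q := (hQ.2.2 x2).resolve_right hx2Q
  have h0Q : (0 : H) ∈ Q := by
    rcases hQ.2.2 0 with h | h
    · exact h
    · simpa using h
  have hx10 : x1 ≠ 0 := by rintro rfl; exact hx1Q h0Q
  have hx20 : x2 ≠ 0 := by rintro rfl; exact hx2Q (by simpa using h0Q)
  let h : Fin e ⊕ Fin e → VV := Sum.elim (fun i => vv (gs i)) (fun j => vv (v j))
  let W : Submodule ℚ VV := Submodule.span ℚ (Set.range h ∪ {ι x1, ι x2})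
  have hW : FiniteDimensional ℚ W := FiniteDimensional.span_of_finite ℚ
    ((Set.finite_range h).union (Set.toFinite _))
  have hWx1 : ι x1 ∈ W := Submodule.subset_span (Or.inr (by simp))
  have hWx2 : ι x2 ∈ W := Submodule.subset_span (Or.inr (by simp))
  have hWg : ∀ i < e, vv (gs i) ∈ W := fun i hi => Submodule.subset_span
    (Or.inl ⟨Sum.inl ⟨i, hi⟩, rfl⟩)
  have hWv : ∀ j < e, vv (v j) ∈ W := fun i hi => Submodule.subset_span
    (Or.inl ⟨Sum.inr ⟨i, hi⟩, rfl⟩)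
  obtain ⟨u, huP, huQ, huW⟩ : ∃ u, u ∈ PP f μ ∧ u ∈ Q ∧ ι u ∉ W := by
    obtain ⟨y, hy1, hy2, hy3⟩ := small hR hL ι hι μ hμ hinf W hW hx2 hx20
    by_cases hyQ : y ∈ Q
    · exact ⟨y, hy1, hyQ, hy3⟩
    · refine ⟨x2 - y, hy2, ?_, ?_⟩
      · rw [sub_eq_add_neg]
        exact hQ.1 _ hx2Q' _ ((hQ.2.2 y).resolve_left hyQ)
      · intro hc
        rw [map_sub] at hc
        refine hy3 ?_
        have := W.sub_mem hWx2 hc
        simpa using this
  let W1 : Submodule ℚ VV := W ⊔ Submodule.span ℚ {ι u}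
  obtain ⟨u', huP', huQ', huW'⟩ : ∃ u, u ∈ PP f μ ∧ -u ∈ Q ∧ ι u ∉ W1 := by
    obtain ⟨y, hy1, hy2, hy3⟩ := small hR hL ι hι μ hμ hinf W1 inferInstance hx1 hx10
    by_cases hyQ : -y ∈ Q
    · exact ⟨y, hy1, hyQ, hy3⟩
    · refine ⟨x1 - y, hy2, ?_, ?_⟩
      · rw [neg_sub, sub_eq_add_neg]
        exact hQ.1 _ ((hQ.2.2 y).resolve_right hyQ) _ hx1Q'
      · intro hc
        rw [map_sub] at hc
        refine hy3 ?_
        have := W1.sub_mem (Submodule.mem_sup_left hWx1) hc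
        simpa using this
  have hu0' : u' ≠ 0 := by rintro rfl; exact huW' (by simp)
  have hu0 : u ≠ 0 := by rintro rfl; exact huW (by simp)
  have huQ'' : u' ∉ Q := fun hc => hu0' (hQ.2.1 _ hc huQ')
  obtain ⟨w, hw0, hw⟩ := seqs hinf W hW 2 (fun i => if i = 0 then ι u else ι u') (by
    intro i hi
    rcases (by omega : i = 0 ∨ i = 1) with rfl | rfl
    · refine ⟨by simpa using hHι u, ?_⟩
      have : (fun i => if i = 0 then ι u else ι u') '' {k | k < 0} = (∅ : Set VV) := by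
        simp
      rw [this, Submodule.span_empty, sup_bot_eq]
      simpa using huW
    · refine ⟨by simpa using hHι u', ?_⟩
      have : (fun i => if i = 0 then ι u else ι u') '' {k | k < 1} = ({ι u} : Set VV) := by
        ext z
        simp
      rw [this]
      simpa using huW') (2 * e + 2) (by omega)
  obtain ⟨ψ, hψ⟩ := duals W w (2 * e + 2) fun i hi => (hw i hi).2
  have hnm : ∀ i, ∃ k, i < 2 * e + 2 → vv (gs k) = w i := by
    intro i
    by_cases hi : i < 2 * e + 2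
    · obtain ⟨k, hk⟩ := hL.surj _ (hw i hi).1
      exact ⟨k, fun _ => hk⟩
    · exact ⟨0, fun h => absurd h hi⟩
  choose nm hnm using hnm
  obtain ⟨p, hp, hpD, hpQ⟩ := hD ((Finset.range (2 * e + 2)).image nm)
  let x : List (ℕ × Bool) := (List.range (2 * e + 2)).map
    (fun a => (nm a, decide (μ (nm a) ∈ Q)))
  have hxlen : x.length = 2 * e + 2 := by simp [x]
  have hxx : ∀ b, b < 2 * e + 2 → xx x b = (nm b, decide (μ (nm b) ∈ Q)) := by
    intro b hb
    simp only [xx, x]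
    rw [List.getD_eq_getElem?_getD, List.getElem?_map, List.getElem?_range hb]
    rfl
  have hxmem : ∀ b, b < 2 * e + 2 → (nm b, decide (μ (nm b) ∈ Q)) ∈ x := by
    intro b hb
    exact List.mem_map.2 ⟨b, List.mem_range.2 hb, rfl⟩
  have hxp : ∀ y ∈ x, y ∈ p := by
    intro y hy
    obtain ⟨a, ha, rfl⟩ := List.mem_map.1 hy
    rw [List.mem_range] at ha
    obtain ⟨b, hb⟩ := hpD (nm a) (Finset.mem_image.2 ⟨a, Finset.mem_range.2 ha, rfl⟩)
    have h1 := hpQ _ hb
    have h2 : decide (μ (nm a) ∈ Q) = b := by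
      cases b
      · simp only [decide_eq_false_iff_not]
        exact fun h => by simpa using h1.2 h
      · simp only [decide_eq_true_eq]
        exact h1.1 rfl
    rw [h2]; exact hb
  let M := e + (Finset.range (2 * e + 2)).sup nm + 1
  have hnmM : ∀ a, a < 2 * e + 2 → nm a < M := by
    intro a ha
    have := Finset.le_sup (f := nm) (Finset.mem_range.2 ha)
    simp only [M]; omega
  let l : List Vc := (List.range M).map gs
  have hl : ∀ i < M, gx l i = gs i := by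
    intro i hi
    simp only [gx, l]
    rw [List.getD_eq_getElem?_getD, List.getElem?_map, List.getElem?_range hi]
    rfl
  have hcode : ∀ a, ∃ c : Vc, ∀ z ∈ ((Finset.range M).image (fun i => vv (gs i))) ∪
      ((Finset.range e).image (fun j => vv (v j))), fn (vv c) z = ψ a z := by
    intro a
    exact fcode (ψ a) _
  choose cd hcd using hcode
  have hcd1 : ∀ a, ∀ i < M, fn (vv (cd a)) (vv (gs i)) = ψ a (vv (gs i)) := by
    intro a i hi
    exact hcd a _ (Finset.mem_union_left _ (Finset.mem_image.2 ⟨i, Finset.mem_range.2 hi, rfl⟩))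
  have hcd2 : ∀ a, ∀ j < e, fn (vv (cd a)) (vv (v j)) = ψ a (vv (v j)) := by
    intro a i hi
    exact hcd a _ (Finset.mem_union_right _ (Finset.mem_image.2 ⟨i, Finset.mem_range.2 hi, rfl⟩))
  let ψc : List Vc := (List.range (2 * e + 2)).map cd
  have hψc : ∀ a < 2 * e + 2, gx ψc a = cd a := by
    intro a ha
    simp only [gx, ψc]
    rw [List.getD_eq_getElem?_getD, List.getElem?_map, List.getElem?_range ha]
    rfl
  have hchk : ChkR (fun j w => v j = w) A e l x := by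
    refine ⟨⟨p, hp, hxp⟩, hxlen, ?_, ψc, ?_⟩
    · intro y hy
      obtain ⟨a, ha, rfl⟩ := List.mem_map.1 hy
      rw [List.mem_range] at ha
      simpa [l] using hnmM a ha
    · rw [hxlen]
      intro a ha
      refine ⟨fun b hb => ?_, fun i hi => ?_, fun j hj => ⟨v j, rfl, ?_⟩⟩
      · simp only [Qeq, qv_dotc, qv_q1, qv_q0]
        rw [hxx b hb, hψc a ha, hl _ (hnmM b hb), hcd1 a _ (hnmM b hb), hnm b hb,
          (hψ a ha).2 b hb]
        by_cases hab : a = b
        · left; exact ⟨hab, if_pos hab⟩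
        · right; exact ⟨hab, if_neg hab⟩
      · simp only [Qeq, qv_dotc, qv_q0]
        have : i < M := by simp only [M]; omega
        rw [hψc a ha, hl i this, hcd1 a i this]
        exact (hψ a ha).1 _ (hWg i hi)
      · simp only [Qeq, qv_dotc, qv_q0]
        rw [hψc a ha, hcd2 a j hj]
        exact (hψ a ha).1 _ (hWv j hj)
  obtain ⟨k, hk⟩ := (hK e l x).1 hchk
  obtain ⟨T, hT⟩ := hL.stab M
  obtain ⟨S, hS⟩ := hR.settled e
  let c : Cnd := (M, x, k)
  let N := Nat.pair e (T + S + encode c)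
  have hN : T + S + encode c ≤ N := Nat.right_le_pair _ _
  have hs2 : (2 * N + 1) / 2 = N := by omega
  have hse : ((2 * N + 1) / 2).unpair.1 = e := by rw [hs2]; simp [N]
  have hcc : c ∈ cand Cnd (2 * N + 1) := mem_cand (by omega)
  obtain ⟨hT1, hT2⟩ := hT (2 * N + 1) (by omega)
  obtain ⟨_, hS2⟩ := hS (2 * N + 1) (by omega) (by omega) hse
  refine ⟨2 * N + 1, hS2.resolve_right fun hS3 => ?_⟩
  have htake : (f (2 * N + 1)).1.1.take M = l := by
    apply List.ext_getElem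
    · simp only [List.length_take, l, List.length_map, List.length_range]; omega
    · intro i hi1 hi2
      have hiM : i < M := by simpa [l] using hi2
      have h1 := hT2 i hiM
      unfold gx at h1
      rw [List.getD_eq_getElem?_getD, List.getElem?_eq_getElem (by omega)] at h1
      simp only [Option.getD_some] at h1
      simp only [List.getElem_take, l, List.getElem_map, List.getElem_range]
      exact h1
  refine hS3 c hcc (by simp only [c, M]; omega) (by simp only [c]; rw [htake]; exact hk) ?_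
  have hμnm : ∀ a < 2 * e + 2, ι (μ (nm a)) = w a := by
    intro a ha
    rw [hμ, hnm a ha]
  have hμ0 : μ (nm 0) = u := by
    apply hι
    rw [hμnm 0 (by omega), hw0 0 (by omega), if_pos rfl]
  have hμ1 : μ (nm 1) = u' := by
    apply hι
    rw [hμnm 1 (by omega), hw0 1 (by omega), if_neg one_ne_zero]
  have hpos : ∀ a z, μ a = z → z ∈ PP f μ → z ≠ 0 → PosN f a := by
    intro a z haz hz hz0
    rw [mem_PP hL ι hι μ hμ] at hz
    have := hz.resolve_left hz0
    rwa [← haz, Equiv.symm_apply_apply] at this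
  refine ⟨⟨_, hxmem 0 (by omega), ?_⟩, ⟨_, hxmem 1 (by omega), ?_⟩, ?_⟩
  · left
    refine ⟨by simp [hμ0, huQ], ?_⟩
    simp only [qv_dotc, qv_q0]
    exact posN_at hR (hpos _ _ hμ0 huP hu0) ((hnmM 0 (by omega)).trans_le hT1)
  · left
    refine ⟨by simp [hμ1, huQ''], ?_⟩
    simp only [qv_dotc, qv_q0]
    exact posN_at hR (hpos _ _ hμ1 huP' hu0') ((hnmM 1 (by omega)).trans_le hT1)
  · intro y hy
    obtain ⟨a, ha, rfl⟩ := List.mem_map.1 hy
    rw [List.mem_range] at ha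
    simp only [Qne, qv_dotc, qv_q0]
    refine ne_zero_name hR ((hnmM a ha).trans_le hT1) fun h0 => ?_
    refine (hw a ha).2 ?_
    rw [← hnm a ha, h0, hL.zero, vv_nil]
    exact Submodule.zero_mem _

end

end Pool.Agent.Helper70.OD
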