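import Pool.Agent.Helper70.OD.Vec

/-! Stage B: the step relation of the main construction. -/

namespace Pool.Agent.Helper70.OD

open Encodable

abbrev StB := (List Vc × Vc) × List ℕ

def gx (g : List Vc) (i : ℕ) : Vc := g.getD i []

def sgc (b : Bool) : Qc := bif b then q1 else qneg q1

def xx (x : List (ℕ × Bool)) (i : ℕ) : ℕ × Bool := x.getD i (0, true)

section
variable {α : Type} [Primcodable α]
@[fun_prop] theorem P_gx {f : α → List Vc} {g : α → ℕ} (hf : Primrec f) (hg : Primrec g) :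
    Primrec (fun a => gx (f a) (g a)) := by unfold gx; fun_prop
@[fun_prop] theorem P_sgc {f : α → Bool} (hf : Primrec f) :
    Primrec (fun a => sgc (f a)) := by unfold sgc; fun_prop
@[fun_prop] theorem P_xx {f : α → List (ℕ × Bool)} {g : α → ℕ} (hf : Primrec f)
    (hg : Primrec g) : Primrec (fun a => xx (f a) (g a)) := by unfold xx; fun_prop
end

variable (VG : ℕ → Vc → Prop) (HS : Vc → Prop) (A : ℕ → List (ℕ × Bool) → Prop)

def ChkR (e : ℕ) (l : List Vc) (x : List (ℕ × Bool)) : Prop :=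
  (∃ p, A e p ∧ LAll x (fun y => y ∈ p)) ∧ x.length = 2 * e + 2 ∧
    LAll x (fun y => y.1 < l.length) ∧
    ∃ ψ : List Vc, BAll x.length (fun a =>
      BAll x.length (fun b => (a = b ∧ Qeq (dotc (gx ψ a) (gx l (xx x b).1)) q1) ∨
        (a ≠ b ∧ Qeq (dotc (gx ψ a) (gx l (xx x b).1)) q0)) ∧
      BAll e (fun i => Qeq (dotc (gx ψ a) (gx l i)) q0) ∧
      BAll e (fun j => ∃ w, VG j w ∧ Qeq (dotc (gx ψ a) w) q0))

def MixR (g : List Vc) (r : Vc) (x : List (ℕ × Bool)) : Prop :=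
  LEx x (fun y => (y.2 = true ∧ qv q0 < qv (dotc r (gx g y.1))) ∨
    (y.2 = false ∧ qv (dotc r (gx g y.1)) < qv q0)) ∧
  LEx x (fun y => (y.2 = false ∧ qv q0 < qv (dotc r (gx g y.1))) ∨
    (y.2 = true ∧ qv (dotc r (gx g y.1)) < qv q0)) ∧
  LAll x (fun y => Qne (dotc r (gx g y.1)) q0)

def NMixR (g : List Vc) (r : Vc) (x : List (ℕ × Bool)) : Prop :=
  LAll x (fun y => (y.2 = true ∧ qv (dotc r (gx g y.1)) ≤ qv q0) ∨
    (y.2 = false ∧ qv q0 ≤ qv (dotc r (gx g y.1)))) ∨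
  LAll x (fun y => (y.2 = false ∧ qv (dotc r (gx g y.1)) ≤ qv q0) ∨
    (y.2 = true ∧ qv q0 ≤ qv (dotc r (gx g y.1)))) ∨
  LEx x (fun y => Qeq (dotc r (gx g y.1)) q0)

def KillR (e : ℕ) (g : List Vc) (r : Vc) (x : List (ℕ × Bool)) (g' : List Vc) : Prop :=
  ∃ (θ k : Vc) (N : ℕ) (c : List ℕ), HS k ∧ Qeq (dotc θ k) q1 ∧ Qeq (dotc r k) q0 ∧
    BAll e (fun i => Qeq (dotc θ (gx g i)) q0) ∧
    BAll e (fun j => ∃ w, VG j w ∧ Qeq (dotc θ w) q0) ∧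
    BAll g.length (fun i => ∃ mn : ℕ × ℕ, Qeq (dotc θ (gx g i)) (mn, 0)) ∧
    g'.length = g.length ∧
    BAll g.length (fun i => (Qeq (dotc θ (gx g i)) q0 ∧ gx g' i = gx g i) ∨
      (Qne (dotc θ (gx g i)) q0 ∧ Veq (gx g' i) (vax (gx g i) (qneg (dotc θ (gx g i))) k))) ∧
    N ≠ 0 ∧ LAll c (fun a => a < x.length) ∧
    Veq (vax [] ((N, 0), 0) k) (lcomb (c.map (fun a => (sgc (xx x a).2, (xx x a).1))) g)

def ExtR (g : List Vc) (r : Vc) (w : Vc) (r' : Vc) : Prop :=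
  BAll g.length (fun i => BAll g.length (fun k =>
    qv (dotc r (gx g k)) ≤ qv (dotc r (gx g i)) ∨ qv (dotc r' (gx g i)) < qv (dotc r' (gx g k)))) ∧
  BAll g.length (fun i => Qne (dotc r' (gx g i)) (dotc r' w)) ∧
  ((∃ c : List (Qc × ℕ), LAll c (fun p => p.2 < g.length) ∧ Veq w (lcomb c g)) ∨
    (qv q0 < qv (dotc r' w) ∧ BAll g.length (fun i => qv (dotc r' (gx g i)) ≤ qv q0 ∨
      qv (dotc r' w) < qv (dotc r' (gx g i)))))

/-- candidates -/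
abbrev Cnd := ℕ × List (ℕ × Bool) × ℕ

def StepB (K Kn : (ℕ × List Vc × List (ℕ × Bool)) × ℕ → Prop) (s : ℕ) (a a' : StB) : Prop :=
  (s % 2 = 0 ∧ ∃ w, VG (s / 2).unpair.1 w ∧
    ((LEx a.1.1 (fun y => Veq y w) ∧ a' = a) ∨
     (LAll a.1.1 (fun y => Vne y w) ∧
        ∃ r', a' = ((a.1.1 ++ [w], r'), a.2) ∧ ExtR a.1.1 a.1.2 w r'))) ∨
  (s % 2 = 1 ∧
    ((LAll a.2 (fun d => d ≠ (s / 2).unpair.1) ∧
      ∃ g', a' = ((g', a.1.2), (s / 2).unpair.1 :: a.2) ∧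
        LEx (cand Cnd s) (fun c => (s / 2).unpair.1 ≤ c.1 ∧
          K (((s / 2).unpair.1, a.1.1.take c.1, c.2.1), c.2.2) ∧ MixR a.1.1 a.1.2 c.2.1 ∧
          KillR VG HS (s / 2).unpair.1 a.1.1 a.1.2 c.2.1 g')) ∨
     (((s / 2).unpair.1 ∈ a.2 ∨ LAll (cand Cnd s) (fun c => c.1 < (s / 2).unpair.1 ∨
          Kn (((s / 2).unpair.1, a.1.1.take c.1, c.2.1), c.2.2) ∨ NMixR a.1.1 a.1.2 c.2.1)) ∧
      a' = a)))

variable (hVG : RE (fun p : ℕ × Vc => VG p.1 p.2)) (hHS : RE HS)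
  (hA : RE (fun p : ℕ × List (ℕ × Bool) => A p.1 p.2))

include hVG hA in
theorem RE_ChkR : RE (fun p : ℕ × List Vc × List (ℕ × Bool) => ChkR VG A p.1 p.2.1 p.2.2) := by
  unfold ChkR
  fun_prop

theorem RE_MixR : RE (fun p : List Vc × Vc × List (ℕ × Bool) => MixR p.1 p.2.1 p.2.2) := by
  unfold MixR
  fun_prop

theorem RE_NMixR : RE (fun p : List Vc × Vc × List (ℕ × Bool) => NMixR p.1 p.2.1 p.2.2) := by
  unfold NMixR
  fun_prop

include hVG hHS in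
theorem RE_KillR : RE (fun p : ℕ × List Vc × Vc × List (ℕ × Bool) × List Vc =>
    KillR VG HS p.1 p.2.1 p.2.2.1 p.2.2.2.1 p.2.2.2.2) := by
  unfold KillR
  fun_prop

theorem RE_ExtR : RE (fun p : List Vc × Vc × Vc × Vc => ExtR p.1 p.2.1 p.2.2.1 p.2.2.2) := by
  unfold ExtR
  fun_prop

include hVG hHS in
theorem RE_StepB (K Kn : (ℕ × List Vc × List (ℕ × Bool)) × ℕ → Prop) (hK : RE K) (hKn : RE Kn) :
    RE (fun p : ℕ × StB × StB => StepB VG HS K Kn p.1 p.2.1 p.2.2) := by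
  unfold StepB MixR NMixR KillR ExtR
  fun_prop

end Pool.Agent.Helper70.OD
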