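import Pool.Agent.Helper70.OD.BExist

/-! Stage B: facts about one step. -/

namespace Pool.Agent.Helper70.OD

open Encodable Module

/-- state invariant -/
def InvB (H1 : AddSubgroup VV) (a : StB) : Prop :=
  0 < a.1.1.length ∧ gx a.1.1 0 = [] ∧ (∀ i < a.1.1.length, vv (gx a.1.1 i) ∈ H1) ∧
    ∀ i < a.1.1.length, ∀ k < a.1.1.length, i ≠ k →
      fn (vv a.1.2) (vv (gx a.1.1 i)) ≠ fn (vv a.1.2) (vv (gx a.1.1 k))

/-- facts about a step -/
structure TrB (A : ℕ → List (ℕ × Bool) → Prop) (v : ℕ → Vc)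
    (K : (ℕ × List Vc × List (ℕ × Bool)) × ℕ → Prop) (s : ℕ) (a a' : StB) : Prop where
  len : a.1.1.length ≤ a'.1.1.length
  lin : ∃ φ : VV →ₗ[ℚ] VV, ∀ i < a.1.1.length, vv (gx a'.1.1 i) = φ (vv (gx a.1.1 i))
  ord : ∀ i < a.1.1.length, ∀ k < a.1.1.length,
    fn (vv a.1.2) (vv (gx a.1.1 i)) < fn (vv a.1.2) (vv (gx a.1.1 k)) →
    fn (vv a'.1.2) (vv (gx a'.1.1 i)) < fn (vv a'.1.2) (vv (gx a'.1.1 k))
  even : s % 2 = 0 → (∃ i < a'.1.1.length, vv (gx a'.1.1 i) = vv (v (s / 2).unpair.1)) ∧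
    (∀ i < a.1.1.length, gx a'.1.1 i = gx a.1.1 i) ∧ a'.2 = a.2 ∧
    (a'.1.1.length = a.1.1.length ∨ (a'.1.1.length = a.1.1.length + 1 ∧
      (vv (gx a'.1.1 a.1.1.length) ∈
          Submodule.span ℚ ((fun i => vv (gx a'.1.1 i)) '' {i | i < a.1.1.length}) ∨
        (0 < fn (vv a'.1.2) (vv (gx a'.1.1 a.1.1.length)) ∧ ∀ i < a.1.1.length,
          0 < fn (vv a'.1.2) (vv (gx a'.1.1 i)) →
            fn (vv a'.1.2) (vv (gx a'.1.1 a.1.1.length)) < fn (vv a'.1.2) (vv (gx a'.1.1 i))))))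
  odd : s % 2 = 1 → a'.1.1.length = a.1.1.length ∧
    ((a' = a ∧ ((s / 2).unpair.1 ∈ a.2 ∨ ∀ c ∈ cand Cnd s, (s / 2).unpair.1 ≤ c.1 →
        K (((s / 2).unpair.1, a.1.1.take c.1, c.2.1), c.2.2) → ¬ MixR a.1.1 a.1.2 c.2.1)) ∨
      ((s / 2).unpair.1 ∉ a.2 ∧ a'.2 = (s / 2).unpair.1 :: a.2 ∧
        (∀ i < a.1.1.length, i < (s / 2).unpair.1 → gx a'.1.1 i = gx a.1.1 i) ∧
        (∀ i < a.1.1.length, ∀ j < (s / 2).unpair.1, vv (gx a.1.1 i) = vv (v j) →
          gx a'.1.1 i = gx a.1.1 i) ∧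
        ∃ x : List (ℕ × Bool), (∃ p, A (s / 2).unpair.1 p ∧ ∀ y ∈ x, y ∈ p) ∧
          (∀ y ∈ x, y.1 < a.1.1.length ∧ fn (vv a.1.2) (vv (gx a.1.1 y.1)) ≠ 0) ∧
          ∃ c : List ℕ, c ≠ [] ∧ (∀ b ∈ c, b < x.length) ∧
            (c.map (yv a'.1.1 x)).sum = 0))

theorem kill_facts {VG : ℕ → Vc → Prop} {HS : Vc → Prop}
    (v : ℕ → Vc) (hVG : ∀ j w, VG j w ↔ v j = w) (H1 : AddSubgroup VV)
    (hHS : ∀ l, HS l ↔ vv l ∈ H1) {e : ℕ} {g g' : List Vc} {r : Vc} {x : List (ℕ × Bool)}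
    (hk : KillR VG HS e g r x g') (hg : ∀ i < g.length, vv (gx g i) ∈ H1)
    (hx : ∀ y ∈ x, y.1 < g.length) :
    g'.length = g.length ∧ (∃ φ : VV →ₗ[ℚ] VV, ∀ i < g.length, vv (gx g' i) = φ (vv (gx g i))) ∧
    (∀ i < g.length, fn (vv r) (vv (gx g' i)) = fn (vv r) (vv (gx g i))) ∧
    (∀ i < g.length, vv (gx g' i) ∈ H1) ∧
    (∀ i < g.length, i < e → gx g' i = gx g i) ∧
    (∀ i < g.length, ∀ j < e, vv (gx g i) = vv (v j) → gx g' i = gx g i) ∧
    (gx g 0 = [] → gx g' 0 = []) ∧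
    ∃ c : List ℕ, c ≠ [] ∧ (∀ b ∈ c, b < x.length) ∧ (c.map (yv g' x)).sum = 0 := by
  obtain ⟨θ, k, N, c, hkS, hθk, hrk, hθe, hθv, hint, hlen, hg', hN, hc, hck⟩ := hk
  simp only [Qeq, qv_dotc, qv_q1, qv_q0] at hθk hrk
  have hkH : vv k ∈ H1 := (hHS _).1 hkS
  let φ : VV →ₗ[ℚ] VV := LinearMap.id - (fn (vv θ)).smulRight (vv k)
  have hφ : ∀ u, φ u = u - fn (vv θ) u • vv k := fun u => rfl
  have hφg : ∀ i < g.length, vv (gx g' i) = φ (vv (gx g i)) := by
    intro i hi
    rw [hφ]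
    rcases hg' i hi with ⟨h1, h2⟩ | ⟨_, h2⟩
    · simp only [Qeq, qv_dotc, qv_q0] at h1
      rw [h2, h1, zero_smul, sub_zero]
    · unfold Veq at h2
      rw [h2, vv_vax, qv_qneg, qv_dotc, neg_smul, sub_eq_add_neg]
  have hsame : ∀ i < g.length, fn (vv θ) (vv (gx g i)) = 0 → gx g' i = gx g i := by
    intro i hi h0
    rcases hg' i hi with ⟨_, h2⟩ | ⟨h1, _⟩
    · exact h2
    · simp only [Qne, qv_dotc, qv_q0] at h1
      exact absurd h0 h1
  refine ⟨hlen, ⟨φ, hφg⟩, ?_, ?_, ?_, ?_, ?_, c, ?_, hc, ?_⟩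
  · intro i hi
    rw [hφg i hi, hφ, map_sub, map_smul, hrk, smul_zero, sub_zero]
  · intro i hi
    rw [hφg i hi, hφ]
    obtain ⟨mn, hmn⟩ := hint i hi
    simp only [Qeq, qv_dotc] at hmn
    rw [qv_int] at hmn
    rw [hmn, Int.cast_smul_eq_zsmul]
    exact H1.sub_mem (hg i hi) (H1.zsmul_mem hkH _)
  · intro i hi hie
    refine hsame i hi ?_
    have := hθe i hie
    simp only [Qeq, qv_dotc, qv_q0] at this
    exact this
  · intro i hi j hj h1
    refine hsame i hi ?_
    obtain ⟨w, hw, h2⟩ := hθv j hj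
    rw [hVG] at hw
    subst hw
    simp only [Qeq, qv_dotc, qv_q0] at h2
    rw [h1]; exact h2
  · intro h0
    by_cases hl : 0 < g.length
    · rw [hsame 0 hl (by rw [h0, vv_nil, map_zero]), h0]
    · exact gx_nil_of_ge (by omega)
  · rintro rfl
    unfold Veq at hck
    rw [vv_vax, vv_nil, zero_add] at hck
    have hq : qv ((N, 0), 0) = N := by simp [qv]
    rw [hq] at hck
    simp only [List.map_nil, lcomb, List.foldr_nil, vv_nil] at hck
    have : vv k = 0 := by
      rcases smul_eq_zero.1 hck with h | h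
      · exact absurd h (by exact_mod_cast hN)
      · exact h
    rw [this, map_zero] at hθk
    exact zero_ne_one hθk
  · have hxx : ∀ b, b < x.length → (xx x b).1 < g.length := by
      intro b hb
      refine hx _ ?_
      unfold xx
      rw [List.getD_eq_getElem?_getD, List.getElem?_eq_getElem hb]
      exact List.getElem_mem hb
    have h1 : (c.map (yv g' x)) = (c.map (yv g x)).map φ := by
      rw [List.map_map]
      refine List.map_congr_left fun b hb => ?_
      simp only [Function.comp_apply, yv, map_smul]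
      rw [hφg _ (hxx b (hc b hb))]
    have h2 : (c.map (yv g x)).sum = (N : ℚ) • vv k := by
      unfold Veq at hck
      rw [vv_vax, vv_nil, zero_add, vv_lcomb, List.map_map] at hck
      have hq : qv ((N, 0), 0) = N := by simp [qv]
      rw [hq] at hck
      rw [hck]
      rfl
    rw [h1, ← map_list_sum, h2, map_smul, hφ, hθk, one_smul, sub_self, smul_zero]

theorem nmix_iff (g : List Vc) (r : Vc) (x : List (ℕ × Bool)) :
    NMixR g r x ↔ ¬ MixR g r x := by
  unfold NMixR MixR LEx LAll Qne Qeq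
  constructor
  · rintro (h | h | h) ⟨⟨y1, hy1, h1⟩, ⟨y2, hy2, h2⟩, h3⟩
    · rcases h y1 hy1 with ⟨e1, e2⟩ | ⟨e1, e2⟩ <;> rcases h1 with ⟨e3, e4⟩ | ⟨e3, e4⟩
      · linarith
      · rw [e1] at e3; cases e3
      · rw [e1] at e3; cases e3
      · linarith
    · rcases h y2 hy2 with ⟨e1, e2⟩ | ⟨e1, e2⟩ <;> rcases h2 with ⟨e3, e4⟩ | ⟨e3, e4⟩
      · linarith
      · rw [e1] at e3; cases e3
      · rw [e1] at e3; cases e3
      · linarith
    · obtain ⟨y, hy, h⟩ := h
      exact h3 y hy h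
  · intro h
    by_cases h1 : ∃ b ∈ x, (b.2 = true ∧ qv q0 < qv (dotc r (gx g b.1))) ∨
        (b.2 = false ∧ qv (dotc r (gx g b.1)) < qv q0)
    · by_cases h2 : ∃ b ∈ x, (b.2 = false ∧ qv q0 < qv (dotc r (gx g b.1))) ∨
        (b.2 = true ∧ qv (dotc r (gx g b.1)) < qv q0)
      · right; right
        by_contra h3
        push Not at h3
        exact h ⟨h1, h2, h3⟩
      · right; left
        intro y hy
        push Not at h2
        have := h2 y hy
        cases hyb : y.2
        · exact Or.inl ⟨rfl, not_lt.1 fun h' => absurd h' (not_lt.2 (this.1 hyb))⟩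
        · exact Or.inr ⟨rfl, not_lt.1 fun h' => absurd h' (not_lt.2 (this.2 hyb))⟩
    · left
      intro y hy
      push Not at h1
      have := h1 y hy
      cases hyb : y.2
      · exact Or.inr ⟨rfl, this.2 hyb⟩
      · exact Or.inl ⟨rfl, this.1 hyb⟩

theorem stepB_total {VG : ℕ → Vc → Prop} {HS : Vc → Prop} {A : ℕ → List (ℕ × Bool) → Prop}
    (v : ℕ → Vc) (hVG : ∀ j w, VG j w ↔ v j = w) (H1 : AddSubgroup VV)
    (hHS : ∀ l, HS l ↔ vv l ∈ H1)
    {K Kn : (ℕ × List Vc × List (ℕ × Bool)) × ℕ → Prop} (hKn : ∀ z, Kn z ↔ ¬ K z)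
    (hK : ∀ e l x k, K ((e, l, x), k) → ChkR VG A e l x) (s : ℕ) (a : StB) (ha : InvB H1 a) :
    ∃ a', StepB VG HS K Kn s a a' := by
  classical
  rcases Nat.mod_two_eq_zero_or_one s with hs | hs
  · by_cases hin : ∃ y ∈ a.1.1, vv y = vv (v (s / 2).unpair.1)
    · exact ⟨a, Or.inl ⟨hs, _, (hVG _ _).2 rfl, Or.inl ⟨hin, rfl⟩⟩⟩
    · push Not at hin
      obtain ⟨r', hr'⟩ := extR_exists a.1.1 a.1.2 _ hin
      exact ⟨_, Or.inl ⟨hs, _, (hVG _ _).2 rfl, Or.inr ⟨hin, r', rfl, hr'⟩⟩⟩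
  · set e := (s / 2).unpair.1 with he
    by_cases h1 : e ∉ a.2 ∧ ∃ c ∈ cand Cnd s, e ≤ c.1 ∧ K ((e, a.1.1.take c.1, c.2.1), c.2.2) ∧
        MixR a.1.1 a.1.2 c.2.1
    · obtain ⟨h2, c, hc, h3, h4, h5⟩ := h1
      obtain ⟨g', hg'⟩ := killR_exists v hVG H1 hHS h3 (hK _ _ _ _ h4) h5 ha.2.2.1
      refine ⟨((g', a.1.2), e :: a.2), Or.inr ⟨hs, Or.inl ⟨?_, g', rfl, c, hc, h3, h4, h5, hg'⟩⟩⟩
      intro d hd hde
      rw [← he] at hde
      rw [← hde] at h2
      exact h2 hd
    · refine ⟨a, Or.inr ⟨hs, Or.inr ⟨?_, rfl⟩⟩⟩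
      by_cases h2 : e ∈ a.2
      · exact Or.inl h2
      · right
        intro c hc
        by_cases h3 : c.1 < e
        · exact Or.inl h3
        · by_cases h4 : K ((e, a.1.1.take c.1, c.2.1), c.2.2)
          · right; right
            rw [nmix_iff]
            exact fun h5 => h1 ⟨h2, c, hc, not_lt.1 h3, h4, h5⟩
          · right; left
            exact (hKn _).2 h4

theorem gx_append_left {g : List Vc} {w : Vc} {i : ℕ} (h : i < g.length) :
    gx (g ++ [w]) i = gx g i := by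
  unfold gx
  rw [List.getD_eq_getElem?_getD, List.getD_eq_getElem?_getD, List.getElem?_append_left h]

theorem gx_append_self (g : List Vc) (w : Vc) : gx (g ++ [w]) g.length = w := by
  unfold gx
  rw [List.getD_eq_getElem?_getD, List.getElem?_append_right le_rfl]
  simp

theorem exists_idx {g : List Vc} {y : Vc} (h : y ∈ g) : ∃ i < g.length, gx g i = y := by
  obtain ⟨i, hi, rfl⟩ := List.getElem_of_mem h
  refine ⟨i, hi, ?_⟩
  unfold gx
  rw [List.getD_eq_getElem?_getD, List.getElem?_eq_getElem hi]; rfl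

theorem gx_mem {g : List Vc} {i : ℕ} (h : i < g.length) : gx g i ∈ g := by
  unfold gx
  rw [List.getD_eq_getElem?_getD, List.getElem?_eq_getElem h]
  exact List.getElem_mem h

theorem stepB_facts {VG : ℕ → Vc → Prop} {HS : Vc → Prop} {A : ℕ → List (ℕ × Bool) → Prop}
    (v : ℕ → Vc) (hVG : ∀ j w, VG j w ↔ v j = w) (H1 : AddSubgroup VV)
    (hHS : ∀ l, HS l ↔ vv l ∈ H1) (hv : ∀ j, vv (v j) ∈ H1)
    {K Kn : (ℕ × List Vc × List (ℕ × Bool)) × ℕ → Prop} (hKn : ∀ z, Kn z ↔ ¬ K z)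
    (hK : ∀ e l x k, K ((e, l, x), k) → ChkR VG A e l x) (s : ℕ) (a a' : StB)
    (ha : InvB H1 a) (h : StepB VG HS K Kn s a a') : InvB H1 a' ∧ TrB A v K s a a' := by
  classical
  obtain ⟨ha1, ha2, ha3, ha4⟩ := ha
  rcases h with ⟨hs, w, hw, h⟩ | ⟨hs, h⟩
  · rw [hVG] at hw
    subst hw
    rcases h with ⟨h1, rfl⟩ | ⟨h1, r', rfl, h2⟩
    · refine ⟨⟨ha1, ha2, ha3, ha4⟩, le_rfl, ⟨LinearMap.id, fun i _ => rfl⟩,
        fun i _ k _ h => h, fun _ => ⟨?_, fun i _ => rfl, rfl, Or.inl rfl⟩, fun h => by omega⟩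
      obtain ⟨y, hy, hyv⟩ := h1
      obtain ⟨i, hi, rfl⟩ := exists_idx hy
      exact ⟨i, hi, hyv⟩
    · obtain ⟨e1, e2, e3⟩ := h2
      have hlen : (a.1.1 ++ [v (s / 2).unpair.1]).length = a.1.1.length + 1 := by simp
      have hord : ∀ i < a.1.1.length, ∀ k < a.1.1.length,
          fn (vv a.1.2) (vv (gx a.1.1 i)) < fn (vv a.1.2) (vv (gx a.1.1 k)) →
          fn (vv r') (vv (gx a.1.1 i)) < fn (vv r') (vv (gx a.1.1 k)) := by
        intro i hi k hk hlt
        have := e1 i hi k hk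
        simp only [qv_dotc] at this
        rcases this with h | h
        · exact absurd hlt (not_lt.2 h)
        · exact h
      have hne : ∀ i < a.1.1.length, fn (vv r') (vv (gx a.1.1 i)) ≠
          fn (vv r') (vv (v (s / 2).unpair.1)) := by
        intro i hi
        have := e2 i hi
        simp only [Qne, qv_dotc] at this
        exact this
      refine ⟨⟨?_, ?_, ?_, ?_⟩, ?_, ⟨LinearMap.id, fun i hi => ?_⟩, ?_, fun _ => ⟨?_, ?_, rfl,
        Or.inr ⟨hlen, ?_⟩⟩, fun h => by omega⟩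
      · simp only [hlen]; omega
      · simp only; rw [gx_append_left ha1]; exact ha2
      · intro i hi
        simp only [hlen] at hi
        simp only
        rcases Nat.lt_succ_iff_lt_or_eq.1 hi with hi | rfl
        · rw [gx_append_left hi]; exact ha3 i hi
        · rw [gx_append_self]; exact hv _
      · intro i hi k hk hik
        simp only [hlen] at hi hk
        simp only
        rcases Nat.lt_succ_iff_lt_or_eq.1 hi with hi | rfl <;>
          rcases Nat.lt_succ_iff_lt_or_eq.1 hk with hk | rfl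
        · rw [gx_append_left hi, gx_append_left hk]
          rcases lt_or_gt_of_ne (ha4 i hi k hk hik) with h | h
          · exact (hord i hi k hk h).ne
          · exact (hord k hk i hi h).ne'
        · rw [gx_append_left hi, gx_append_self]; exact hne i hi
        · rw [gx_append_left hk, gx_append_self]; exact (hne k hk).symm
        · exact absurd rfl hik
      · simp only [hlen]; omega
      · simp only; rw [gx_append_left hi]; rfl
      · intro i hi k hk hlt
        simp only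
        rw [gx_append_left hi, gx_append_left hk]
        exact hord i hi k hk hlt
      · exact ⟨a.1.1.length, by simp only [hlen]; omega, by simp only; rw [gx_append_self]⟩
      · intro i hi; simp only; rw [gx_append_left hi]
      · simp only
        rw [gx_append_self]
        rcases e3 with ⟨c, hc, e3⟩ | ⟨e3, e4⟩
        · left
          unfold Veq at e3
          rw [e3, vv_lcomb]
          have key : ∀ c : List (Qc × ℕ), (∀ p ∈ c, p.2 < a.1.1.length) →
              (c.map (fun p => qv p.1 • vv (a.1.1.getD p.2 []))).sum ∈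
              Submodule.span ℚ ((fun i => vv (gx (a.1.1 ++ [v (s / 2).unpair.1]) i)) ''
                {i | i < a.1.1.length}) := by
            intro c hc
            induction c with
            | nil => simp
            | cons p c ih =>
              rw [List.map_cons, List.sum_cons]
              refine Submodule.add_mem _ (Submodule.smul_mem _ _ (Submodule.subset_span
                ⟨p.2, hc p (by simp), ?_⟩)) (ih fun q hq => hc q (by simp [hq]))
              simp only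
              rw [gx_append_left (hc p (by simp))]; rfl
          exact key c hc
        · right
          simp only [qv_dotc, qv_q0] at e3 e4
          refine ⟨e3, fun i hi h => ?_⟩
          rw [gx_append_left hi] at h ⊢
          rcases e4 i hi with h' | h'
          · exact absurd h (not_lt.2 h')
          · exact h'
  · rcases h with ⟨h1, g', rfl, c, hc, h2, h3, h4, h5⟩ | ⟨h1, rfl⟩
    · have hchk := hK _ _ _ _ h3
      have hx : ∀ y ∈ c.2.1, y.1 < a.1.1.length := by
        intro y hy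
        have := hchk.2.2.1 y hy
        rw [List.length_take] at this
        omega
      obtain ⟨k1, k2, k3, k4, k5, k6, k7, k8⟩ := kill_facts v hVG H1 hHS h5 ha3 hx
      refine ⟨⟨by simp only [k1]; exact ha1, k7 ha2, fun i hi => k4 i (by simpa [k1] using hi),
        ?_⟩, by simp only [k1]; exact le_rfl, k2, ?_, fun h => by omega, fun _ => ⟨k1, Or.inr ⟨?_, rfl, k5, k6,
          c.2.1, hchk.1, fun y hy => ⟨hx y hy, ?_⟩, k8⟩⟩⟩
      · intro i hi k hk hik
        simp only [k1] at hi hk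
        simp only
        rw [k3 i hi, k3 k hk]
        exact ha4 i hi k hk hik
      · intro i hi k hk hlt
        simp only
        rw [k3 i hi, k3 k hk]
        exact hlt
      · intro hmem
        exact h1 _ hmem rfl
      · have := h4.2.2 y hy
        simp only [Qne, qv_dotc, qv_q0] at this
        exact this
    · refine ⟨⟨ha1, ha2, ha3, ha4⟩, le_rfl, ⟨LinearMap.id, fun i _ => rfl⟩,
        fun i _ k _ h => h, fun h => by omega, fun _ => ⟨rfl, Or.inl ⟨rfl, ?_⟩⟩⟩
      rcases h1 with h1 | h1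
      · exact Or.inl h1
      · right
        intro c hc h2 h3
        rcases h1 c hc with h4 | h4 | h4
        · omega
        · exact absurd h3 ((hKn _).1 h4)
        · exact (nmix_iff _ _ _).1 h4

end Pool.Agent.Helper70.OD
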