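import Mathlib

/-! Divisible hull and rank. -/

namespace Pool.Agent.Helper70.OD

open Module TensorProduct

/-- A torsion-free group of infinite rank inside a rational vector space. -/
theorem exists_hull (H : Type) [AddCommGroup H]
    (htf : ∀ (n : ℕ) (x : H), n ≠ 0 → n • x = 0 → x = 0)
    (hrank : Cardinal.aleph0 ≤ Module.rank ℤ H) :
    ∃ (D : Type) (_ : AddCommGroup D) (_ : Module ℚ D) (j : H →+ D), Function.Injective j ∧
      ∀ (U : Submodule ℚ D), FiniteDimensional ℚ U → ∀ F : Finset H, ∃ h ∉ F, j h ∉ U := by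
  classical
  let f : H →ₗ[ℤ] (ℚ ⊗[ℤ] H) := TensorProduct.mk ℤ ℚ H 1
  have hloc : IsLocalizedModule (nonZeroDivisors ℤ) f :=
    IsLocalization.tensorProduct_isLocalizedModule (nonZeroDivisors ℤ) ℚ
  have hinj : Function.Injective f := by
    rw [injective_iff_map_eq_zero]
    intro x hx
    obtain ⟨⟨s, hs⟩, h⟩ := (IsLocalizedModule.eq_zero_iff (nonZeroDivisors ℤ) f).1 hx
    have hs0 : s ≠ 0 := nonZeroDivisors.ne_zero hs
    have h1 : s • x = 0 := h
    have h2 : s.natAbs • x = 0 := by
      rcases Int.natAbs_eq s with h3 | h3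
      · rw [← natCast_zsmul, ← h3]; exact h1
      · have : (s.natAbs : ℤ) = -s := by omega
        rw [← natCast_zsmul, this, neg_smul, h1, neg_zero]
    exact htf _ _ (Int.natAbs_ne_zero.2 hs0) h2
  refine ⟨ℚ ⊗[ℤ] H, inferInstance, inferInstance, f.toAddMonoidHom, hinj, ?_⟩
  intro U hU F
  -- some element is outside U
  have h1 : ∃ h, f h ∉ U := by
    by_contra hcon
    push Not at hcon
    have hle : Module.rank ℤ H ≤ (finrank ℚ U : Cardinal) := by
      refine _root_.rank_le fun s hs => ?_
      let g : s → U := fun x => ⟨f x, hcon x⟩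
      have h2 : LinearIndependent ℤ (fun x : s => f x) :=
        hs.map' f (LinearMap.ker_eq_bot.2 hinj)
      have h3 : LinearIndependent ℚ (fun x : s => f x) :=
        (LinearIndependent.iff_fractionRing ℤ ℚ).1 h2
      have h4 : LinearIndependent ℚ g := by
        refine LinearIndependent.of_comp U.subtype ?_
        exact h3
      have h5 := h4.fintype_card_le_finrank
      simpa using h5
    exact absurd (hrank.trans hle) (not_le.2 (Cardinal.natCast_lt_aleph0))
  obtain ⟨h, hh⟩ := h1
  have hh0 : h ≠ 0 := by rintro rfl; exact hh (by simp)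
  have hinf : Function.Injective (fun n : ℕ => (n + 1) • h) := by
    intro a b hab
    simp only at hab
    by_contra hne
    rcases lt_or_gt_of_ne hne with hlt | hlt
    · have : (b - a) • h = 0 := by
        have h2 : (b + 1) • h = (b - a) • h + (a + 1) • h := by
          rw [← add_smul]; congr 1; omega
        rw [← hab] at h2
        exact right_eq_add.1 h2
      exact hh0 (htf _ _ (by omega) this)
    · have : (a - b) • h = 0 := by
        have h2 : (a + 1) • h = (a - b) • h + (b + 1) • h := by
          rw [← add_smul]; congr 1; omega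
        rw [hab] at h2
        exact right_eq_add.1 h2
      exact hh0 (htf _ _ (by omega) this)
  have h3 : ∃ n : ℕ, (n + 1) • h ∉ F := by
    by_contra hcon
    push Not at hcon
    exact Set.infinite_univ (α := ℕ)
      (Set.Finite.of_injOn (f := fun n : ℕ => (n + 1) • h) (t := (F : Set H))
        (fun n _ => hcon n) (hinf.injOn) F.finite_toSet)
  obtain ⟨n, hn⟩ := h3
  refine ⟨(n + 1) • h, hn, fun h4 => hh ?_⟩
  have h5 : f ((n + 1) • h) = ((n + 1 : ℕ) : ℚ) • f h := by
    rw [map_nsmul, Nat.cast_smul_eq_nsmul]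
  have h6 : ((n + 1 : ℕ) : ℚ) ≠ 0 := by positivity
  have h7 : ((n + 1 : ℕ) : ℚ) • f h ∈ U := by rw [← h5]; exact h4
  exact (U.smul_mem_iff h6).1 h7

end Pool.Agent.Helper70.OD
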