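import Pool.Agent.Helper70.OD.Rec

/-! Codes for rational numbers and finitely supported rational vectors. -/

namespace Pool.Agent.Helper70.OD

open Encodable

abbrev Qc := (ℕ × ℕ) × ℕ

/-- value of a code -/
def qv (x : Qc) : ℚ := ((x.1.1 : ℚ) - x.1.2) / (x.2 + 1)

def q0 : Qc := ((0, 0), 0)
def q1 : Qc := ((1, 0), 0)

@[simp] theorem qv_q0 : qv q0 = 0 := by simp [qv, q0]
@[simp] theorem qv_q1 : qv q1 = 1 := by simp [qv, q1]

theorem qv_int (x : ℕ × ℕ) : qv (x, 0) = ((x.1 : ℤ) - x.2 : ℤ) := by simp [qv]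

theorem qv_surj (q : ℚ) : ∃ x, qv x = q := by
  refine ⟨((q.num.toNat, (-q.num).toNat), q.den - 1), ?_⟩
  have h1 : ((q.num.toNat : ℚ) - ((-q.num).toNat : ℚ)) = q.num := by
    have : ((q.num.toNat : ℤ) - ((-q.num).toNat : ℤ)) = q.num := by omega
    exact_mod_cast this
  have h2 : (((q.den - 1 : ℕ) : ℚ) + 1) = q.den := by
    have := q.den_pos
    have h3 : q.den - 1 + 1 = q.den := by omega
    exact_mod_cast h3
  simp only [qv, h1, h2]
  exact Rat.num_div_den q

def qadd (x y : Qc) : Qc :=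
  ((x.1.1 * (y.2 + 1) + y.1.1 * (x.2 + 1), x.1.2 * (y.2 + 1) + y.1.2 * (x.2 + 1)),
    x.2 * y.2 + x.2 + y.2)
def qmul (x y : Qc) : Qc :=
  ((x.1.1 * y.1.1 + x.1.2 * y.1.2, x.1.1 * y.1.2 + x.1.2 * y.1.1), x.2 * y.2 + x.2 + y.2)
def qneg (x : Qc) : Qc := ((x.1.2, x.1.1), x.2)

@[simp] theorem qv_qadd (x y : Qc) : qv (qadd x y) = qv x + qv y := by
  have h1 : ((x.2 : ℚ) + 1) ≠ 0 := by positivity
  have h2 : ((y.2 : ℚ) + 1) ≠ 0 := by positivity
  have h3 : ((x.2 : ℚ) * y.2 + x.2 + y.2 + 1) = ((x.2 : ℚ) + 1) * ((y.2 : ℚ) + 1) := by ring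
  simp only [qv, qadd]
  push_cast
  rw [h3]
  field_simp
  ring
@[simp] theorem qv_qmul (x y : Qc) : qv (qmul x y) = qv x * qv y := by
  have h1 : ((x.2 : ℚ) + 1) ≠ 0 := by positivity
  have h2 : ((y.2 : ℚ) + 1) ≠ 0 := by positivity
  have h3 : ((x.2 : ℚ) * y.2 + x.2 + y.2 + 1) = ((x.2 : ℚ) + 1) * ((y.2 : ℚ) + 1) := by ring
  simp only [qv, qmul]
  push_cast
  rw [h3]
  field_simp
  ring
@[simp] theorem qv_qneg (x : Qc) : qv (qneg x) = - qv x := by
  simp only [qv, qneg]; ring

theorem qv_lt_iff (x y : Qc) : qv x < qv y ↔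
    x.1.1 * (y.2 + 1) + y.1.2 * (x.2 + 1) < y.1.1 * (x.2 + 1) + x.1.2 * (y.2 + 1) := by
  have h1 : (0 : ℚ) < ((x.2 : ℚ) + 1) := by positivity
  have h2 : (0 : ℚ) < ((y.2 : ℚ) + 1) := by positivity
  simp only [qv]
  rw [div_lt_div_iff₀ h1 h2]
  have : (x.1.1 * (y.2 + 1) + y.1.2 * (x.2 + 1) < y.1.1 * (x.2 + 1) + x.1.2 * (y.2 + 1)) ↔
    ((x.1.1 : ℚ) * (y.2 + 1) + y.1.2 * (x.2 + 1) < y.1.1 * (x.2 + 1) + x.1.2 * (y.2 + 1)) := by
    exact_mod_cast Iff.rfl
  rw [this]
  constructor <;> intro h <;> linarith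

abbrev Vc := List Qc
abbrev VV := ℕ →₀ ℚ

/-- value of a vector code -/
noncomputable def vv (l : Vc) : VV :=
  ∑ i ∈ Finset.range l.length, Finsupp.single i (qv (l.getD i q0))

theorem vv_apply (l : Vc) (i : ℕ) : vv l i = qv (l.getD i q0) := by
  unfold vv
  rw [Finsupp.finsetSum_apply]
  simp only [Finsupp.single_apply]
  rw [Finset.sum_ite_eq' (Finset.range l.length) i]
  split_ifs with h
  · rfl
  · rw [Finset.mem_range, not_lt] at h
    rw [List.getD_eq_getElem?_getD, List.getElem?_eq_none h]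
    simp

theorem vv_surj (v : VV) : ∃ l, vv l = v := by
  choose f hf using qv_surj
  refine ⟨(List.range (v.support.sup id + 1)).map (fun i => f (v i)), ?_⟩
  ext i
  rw [vv_apply]
  by_cases hi : i < v.support.sup id + 1
  · rw [List.getD_eq_getElem?_getD, List.getElem?_map, List.getElem?_range hi]
    simp [hf]
  · rw [List.getD_eq_getElem?_getD, List.getElem?_map, List.getElem?_eq_none (by simpa using hi)]
    simp only [Option.map_none, Option.getD_none, qv_q0]
    symm
    by_contra h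
    have : i ≤ v.support.sup id := Finset.le_sup (f := id) (Finsupp.mem_support_iff.2 h)
    omega

@[simp] theorem vv_nil : vv [] = 0 := by simp [vv]

/-- the functional given by a vector -/
noncomputable def fn (ρ : VV) : VV →ₗ[ℚ] ℚ := Finsupp.linearCombination ℚ (fun j => ρ j)

def dotc (ρ v : Vc) : Qc :=
  (List.range v.length).foldr (fun i acc => qadd (qmul (v.getD i q0) (ρ.getD i q0)) acc) q0

theorem foldr_range_sum (n : ℕ) (f : ℕ → Qc) :
    qv ((List.range n).foldr (fun i acc => qadd (f i) acc) q0) = ∑ i ∈ Finset.range n, qv (f i) := by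
  have key : ∀ (l : List ℕ), qv (l.foldr (fun i acc => qadd (f i) acc) q0) =
      (l.map (fun i => qv (f i))).sum := by
    intro l
    induction l with
    | nil => simp
    | cons a l ih => simp [ih]
  rw [key]
  induction n with
  | zero => simp
  | succ n ih => rw [List.range_succ, List.map_append, List.sum_append, ih, Finset.sum_range_succ]; simp

@[simp] theorem qv_dotc (ρ v : Vc) : qv (dotc ρ v) = fn (vv ρ) (vv v) := by
  unfold dotc
  rw [foldr_range_sum]
  simp only [qv_qmul]
  unfold fn vv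
  rw [map_sum]
  refine Finset.sum_congr rfl fun i _ => ?_
  rw [Finsupp.linearCombination_single, smul_eq_mul]
  congr 1
  exact (vv_apply ρ i).symm

/-- `g + t k` -/
def vax (g : Vc) (t : Qc) (k : Vc) : Vc :=
  (List.range (g.length + k.length)).map (fun i => qadd (g.getD i q0) (qmul t (k.getD i q0)))

theorem getD_ge {l : Vc} {i : ℕ} (h : l.length ≤ i) : l.getD i q0 = q0 := by
  rw [List.getD_eq_getElem?_getD, List.getElem?_eq_none h]; rfl

@[simp] theorem vv_vax (g : Vc) (t : Qc) (k : Vc) : vv (vax g t k) = vv g + qv t • vv k := by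
  ext i
  rw [Finsupp.add_apply, Finsupp.smul_apply, vv_apply, vv_apply, vv_apply]
  unfold vax
  by_cases hi : i < g.length + k.length
  · rw [List.getD_eq_getElem?_getD, List.getElem?_map, List.getElem?_range hi]
    simp
  · rw [List.getD_eq_getElem?_getD, List.getElem?_map, List.getElem?_eq_none (by simpa using hi),
      getD_ge (l := g) (by omega), getD_ge (l := k) (by omega)]
    simp

/-- linear combination of the entries of a list -/
def lcomb (c : List (Qc × ℕ)) (g : List Vc) : Vc :=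
  c.foldr (fun p acc => vax acc p.1 (g.getD p.2 [])) []

theorem vv_lcomb (c : List (Qc × ℕ)) (g : List Vc) :
    vv (lcomb c g) = (c.map (fun p => qv p.1 • vv (g.getD p.2 []))).sum := by
  unfold lcomb
  induction c with
  | nil => simp
  | cons a c ih =>
    rw [List.foldr_cons, vv_vax, ih, List.map_cons, List.sum_cons, add_comm]

section
variable {α : Type} [Primcodable α]

@[fun_prop] theorem P_qadd {f g : α → Qc} (hf : Primrec f) (hg : Primrec g) :
    Primrec (fun a => qadd (f a) (g a)) := by unfold qadd; fun_prop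
@[fun_prop] theorem P_qmul {f g : α → Qc} (hf : Primrec f) (hg : Primrec g) :
    Primrec (fun a => qmul (f a) (g a)) := by unfold qmul; fun_prop
@[fun_prop] theorem P_qneg {f : α → Qc} (hf : Primrec f) :
    Primrec (fun a => qneg (f a)) := by unfold qneg; fun_prop
@[fun_prop] theorem P_dotc {f g : α → Vc} (hf : Primrec f) (hg : Primrec g) :
    Primrec (fun a => dotc (f a) (g a)) := by unfold dotc; fun_prop
@[fun_prop] theorem P_vax {f g : α → Vc} {h : α → Qc} (hf : Primrec f) (hh : Primrec h)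
    (hg : Primrec g) : Primrec (fun a => vax (f a) (h a) (g a)) := by unfold vax; fun_prop
@[fun_prop] theorem P_lcomb {f : α → List (Qc × ℕ)} {g : α → List Vc} (hf : Primrec f)
    (hg : Primrec g) : Primrec (fun a => lcomb (f a) (g a)) := by unfold lcomb; fun_prop

@[fun_prop] theorem RE_qlt {f g : α → Qc} (hf : Primrec f) (hg : Primrec g) :
    RE (fun a => qv (f a) < qv (g a)) := by
  have : RE (fun a => (f a).1.1 * ((g a).2 + 1) + (g a).1.2 * ((f a).2 + 1) <
      (g a).1.1 * ((f a).2 + 1) + (f a).1.2 * ((g a).2 + 1)) := by fun_prop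
  exact this.of_eq fun a => qv_lt_iff _ _
@[fun_prop] theorem RE_qle {f g : α → Qc} (hf : Primrec f) (hg : Primrec g) :
    RE (fun a => qv (f a) ≤ qv (g a)) := by
  have : RE (fun a => (f a).1.1 * ((g a).2 + 1) + (g a).1.2 * ((f a).2 + 1) ≤
      (g a).1.1 * ((f a).2 + 1) + (f a).1.2 * ((g a).2 + 1)) := by fun_prop
  refine this.of_eq fun a => ?_
  rw [← not_lt, qv_lt_iff, not_lt]
theorem RE_qeq {f g : α → Qc} (hf : Primrec f) (hg : Primrec g) :
    RE (fun a => qv (f a) = qv (g a)) := by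
  have : RE (fun a => qv (f a) ≤ qv (g a) ∧ qv (g a) ≤ qv (f a)) := by fun_prop
  exact this.of_eq fun a => le_antisymm_iff
theorem RE_qne {f g : α → Qc} (hf : Primrec f) (hg : Primrec g) :
    RE (fun a => qv (f a) ≠ qv (g a)) := by
  have : RE (fun a => qv (f a) < qv (g a) ∨ qv (g a) < qv (f a)) := by fun_prop
  exact this.of_eq fun a => lt_or_lt_iff_ne.symm

/-- equality of values -/
def Qeq (x y : Qc) : Prop := qv x = qv y
def Qne (x y : Qc) : Prop := qv x ≠ qv y
@[fun_prop] theorem RE_Qeq {f g : α → Qc} (hf : Primrec f) (hg : Primrec g) :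
    RE (fun a => Qeq (f a) (g a)) := RE_qeq hf hg
@[fun_prop] theorem RE_Qne {f g : α → Qc} (hf : Primrec f) (hg : Primrec g) :
    RE (fun a => Qne (f a) (g a)) := RE_qne hf hg

/-- equality of vector values -/
def Veq (x y : Vc) : Prop := vv x = vv y
def Vne (x y : Vc) : Prop := vv x ≠ vv y

theorem veq_iff (l m : Vc) : vv l = vv m ↔
    BAll (l.length + m.length) (fun i => Qeq (l.getD i q0) (m.getD i q0)) := by
  unfold BAll Qeq
  constructor
  · intro h i _
    rw [← vv_apply, ← vv_apply, h]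
  · intro h
    ext i
    rw [vv_apply, vv_apply]
    by_cases hi : i < l.length + m.length
    · exact h i hi
    · rw [getD_ge (l := l) (by omega), getD_ge (l := m) (by omega)]

@[fun_prop] theorem RE_Veq {f g : α → Vc} (hf : Primrec f) (hg : Primrec g) :
    RE (fun a => Veq (f a) (g a)) := by
  have : RE (fun a => BAll ((f a).length + (g a).length)
    (fun i => Qeq ((f a).getD i q0) ((g a).getD i q0))) := by fun_prop
  exact this.of_eq fun a => veq_iff _ _

@[fun_prop] theorem RE_Vne {f g : α → Vc} (hf : Primrec f) (hg : Primrec g) :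
    RE (fun a => Vne (f a) (g a)) := by
  have : RE (fun a => ∃ i : ℕ, Qne ((f a).getD i q0) ((g a).getD i q0)) := by fun_prop
  refine this.of_eq fun a => ?_
  unfold Vne Qne
  rw [← not_forall_not, not_iff_not]
  simp only [not_not, ← vv_apply]
  exact Finsupp.ext_iff

end

end Pool.Agent.Helper70.OD
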