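import Pool.Agent.Helper70.OD.DobStep
import Pool.Agent.Helper70.OD.Vec
import Pool.Agent.Helper70.OD.Hull

/-! Stage A (Dobritsa): the limit. -/

namespace Pool.Agent.Helper70.OD

open Encodable

/-- sum of unit vectors -/
noncomputable def esum (P : List ℕ) : VV := (P.map (fun i => Finsupp.single i (1 : ℚ))).sum

@[simp] theorem esum_nil : esum [] = 0 := rfl
@[simp] theorem esum_append (P Q : List ℕ) : esum (P ++ Q) = esum P + esum Q := by
  simp [esum]
theorem esum_rep (n i : ℕ) : esum (List.replicate n i) = (n : ℚ) • Finsupp.single i 1 := by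
  simp only [esum, List.map_replicate, List.sum_replicate]
  rw [Nat.cast_smul_eq_nsmul]

theorem esum_flat (n : ℕ) (P : List ℕ) : esum (List.replicate n P).flatten = (n : ℚ) • esum P := by
  induction n with
  | zero => simp
  | succ n ih =>
    rw [List.replicate_succ, List.flatten_cons, esum_append, ih]
    push_cast; rw [add_smul, one_smul, add_comm]

theorem mem_flat {n : ℕ} {P : List ℕ} {j : ℕ} (h : ∀ i ∈ P, i < j) :
    ∀ i ∈ (List.replicate n P).flatten, i < j := by
  intro i hi
  rw [List.mem_flatten] at hi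
  obtain ⟨l, hl, hi⟩ := hi
  rw [List.eq_of_mem_replicate hl] at hi
  exact h i hi

/-- rational vectors as scaled differences of multisets -/
def RepV (j : ℕ) (v : VV) : Prop := ∃ N : ℕ, N ≠ 0 ∧ ∃ P Q : List ℕ, (∀ i ∈ P, i < j) ∧
  (∀ i ∈ Q, i < j) ∧ (N : ℚ) • v + esum P = esum Q

theorem repV_zero (j : ℕ) : RepV j 0 := ⟨1, one_ne_zero, [], [], by simp, by simp, by simp⟩

theorem RepV.add {j : ℕ} {v w : VV} (hv : RepV j v) (hw : RepV j w) : RepV j (v + w) := by
  obtain ⟨N, hN, P, Q, h1, h2, h3⟩ := hv
  obtain ⟨M, hM, P', Q', h1', h2', h3'⟩ := hw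
  refine ⟨N * M, mul_ne_zero hN hM, (List.replicate M P).flatten ++ (List.replicate N P').flatten,
    (List.replicate M Q).flatten ++ (List.replicate N Q').flatten, ?_, ?_, ?_⟩
  · intro i hi
    rcases List.mem_append.1 hi with h | h
    · exact mem_flat h1 i h
    · exact mem_flat h1' i h
  · intro i hi
    rcases List.mem_append.1 hi with h | h
    · exact mem_flat h2 i h
    · exact mem_flat h2' i h
  · rw [esum_append, esum_append, esum_flat, esum_flat, esum_flat, esum_flat, ← h3, ← h3']
    push_cast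
    module

theorem RepV.single {j i : ℕ} (hi : i < j) (q : ℚ) : RepV j (Finsupp.single i q) := by
  have hnum : (q.den : ℚ) * q = q.num := Rat.den_mul_eq_num q
  refine ⟨q.den, q.den_nz, List.replicate (-q.num).toNat i, List.replicate q.num.toNat i,
    ?_, ?_, ?_⟩
  · intro k hk; rw [List.eq_of_mem_replicate hk]; exact hi
  · intro k hk; rw [List.eq_of_mem_replicate hk]; exact hi
  · rw [esum_rep, esum_rep, Finsupp.smul_single, Finsupp.smul_single, Finsupp.smul_single,
      ← Finsupp.single_add]
    congr 1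
    have h1 : ((q.num.toNat : ℚ) - ((-q.num).toNat : ℚ)) = q.num := by
      have : ((q.num.toNat : ℤ) - ((-q.num).toNat : ℤ)) = q.num := by omega
      exact_mod_cast this
    simp only [smul_eq_mul, mul_one]
    rw [hnum, ← h1]; ring

theorem repV_of_support {j : ℕ} {v : VV} (h : ∀ i, v i ≠ 0 → i < j) : RepV j v := by
  classical
  have h1 : v = ∑ i ∈ v.support, Finsupp.single i (v i) := (Finsupp.sum_single v).symm
  rw [h1]
  have key : ∀ s : Finset ℕ, s ⊆ v.support → RepV j (∑ i ∈ s, Finsupp.single i (v i)) := by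
    intro s
    induction s using Finset.induction_on with
    | empty => intro _; simpa using repV_zero j
    | insert a s ha ih =>
      intro hs
      rw [Finset.sum_insert ha]
      refine RepV.add (RepV.single (h a ?_) _) (ih ((Finset.subset_insert a s).trans hs))
      exact Finsupp.mem_support_iff.1 (hs (Finset.mem_insert_self a s))
  exact key _ (Finset.Subset.refl _)

section
variable {H : Type} [AddCommGroup H] {D : Type} [AddCommGroup D] [Module ℚ D] (jj : H →+ D)

theorem lc_esum (b : ℕ → H) (P : List ℕ) :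
    Finsupp.linearCombination ℚ (fun i => jj (b i)) (esum P) = jj (P.map b).sum := by
  induction P with
  | nil => simp
  | cons a P ih =>
    have : esum (a :: P) = Finsupp.single a 1 + esum P := by simp [esum]
    rw [this, map_add, ih, Finsupp.linearCombination_single, List.map_cons, List.sum_cons,
      map_add, one_smul]

theorem dep_span {b : ℕ → H} {j : ℕ} {y : Rel} (h : DepB b j y) :
    jj (b j) ∈ Submodule.span ℚ ((fun i => jj (b i)) '' {k | k < j}) := by
  obtain ⟨h1, h2, h3, h4⟩ := h
  have hs : ∀ P : List ℕ, (∀ i ∈ P, i < j) →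
      jj (P.map b).sum ∈ Submodule.span ℚ ((fun i => jj (b i)) '' {k | k < j}) := by
    intro P hP
    induction P with
    | nil => simp
    | cons a P ih =>
      rw [List.map_cons, List.sum_cons, map_add]
      refine Submodule.add_mem _ (Submodule.subset_span ⟨a, hP a (by simp), rfl⟩)
        (ih fun i hi => hP i (by simp [hi]))
  have h5 := congrArg jj h4
  rw [map_add, map_nsmul] at h5
  have h6 : (y.1 : ℚ) • jj (b j) ∈ Submodule.span ℚ ((fun i => jj (b i)) '' {k | k < j}) := by
    rw [Nat.cast_smul_eq_nsmul, ← add_sub_cancel_right (y.1 • jj (b j)) (jj (y.2.1.map b).sum), h5]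
    exact Submodule.sub_mem _ (hs _ h3) (hs _ h2)
  exact (Submodule.smul_mem_iff _ (by exact_mod_cast h1)).1 h6

theorem span_dep (hj : Function.Injective jj) {b : ℕ → H} {j : ℕ}
    (h : jj (b j) ∈ Submodule.span ℚ ((fun i => jj (b i)) '' {k | k < j})) :
    ∃ y : Rel, DepB b j y := by
  rw [Finsupp.mem_span_image_iff_linearCombination] at h
  obtain ⟨v, hv, hve⟩ := h
  have hsupp : ∀ i, v i ≠ 0 → i < j := fun i hi =>
    (Finsupp.mem_supported ℚ v).1 hv (Finsupp.mem_support_iff.2 hi)
  obtain ⟨N, hN, P, Q, hP, hQ, hNPQ⟩ := repV_of_support hsupp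
  refine ⟨(N, P, Q), hN, hP, hQ, ?_⟩
  apply hj
  have := congrArg (Finsupp.linearCombination ℚ (fun i => jj (b i))) hNPQ
  rw [map_add, map_smul, hve, lc_esum, lc_esum, Nat.cast_smul_eq_nsmul] at this
  rw [map_add, map_nsmul]
  exact this

theorem li_of_notMem {v : ℕ → D}
    (h : ∀ i, v i ∉ Submodule.span ℚ (v '' {k | k < i})) : LinearIndependent ℚ v := by
  classical
  rw [linearIndependent_iff]
  intro l hl
  by_contra hne
  have hs : l.support.Nonempty := Finsupp.support_nonempty_iff.2 hne
  set i := l.support.max' hs with hi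
  have hil : l i ≠ 0 := Finsupp.mem_support_iff.1 (l.support.max'_mem hs)
  apply h i
  have h1 : Finsupp.linearCombination ℚ v l = l i • v i +
      ∑ k ∈ l.support.erase i, l k • v k := by
    rw [Finsupp.linearCombination_apply, Finsupp.sum,
      Finset.add_sum_erase _ (fun k => l k • v k) (l.support.max'_mem hs)]
  rw [h1] at hl
  have h2 : l i • v i = -∑ k ∈ l.support.erase i, l k • v k := eq_neg_of_add_eq_zero_left hl
  have h3 : l i • v i ∈ Submodule.span ℚ (v '' {k | k < i}) := by
    rw [h2]
    refine Submodule.neg_mem _ (Submodule.sum_mem _ fun k hk => Submodule.smul_mem _ _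
      (Submodule.subset_span ⟨k, ?_, rfl⟩))
    rw [Finset.mem_erase] at hk
    exact lt_of_le_of_ne (Finset.le_max' _ _ hk.2) hk.1
  exact (Submodule.smul_mem_iff _ hil).1 h3

theorem depB_congr {b b' : ℕ → H} {j : ℕ} {y : Rel} (h : DepB b j y)
    (hb : ∀ k ≤ j, b k = b' k) : DepB b' j y := by
  obtain ⟨h1, h2, h3, h4⟩ := h
  refine ⟨h1, h2, h3, ?_⟩
  rw [hb j le_rfl] at h4
  have e1 : y.2.1.map b = y.2.1.map b' := List.map_congr_left fun i hi => hb i (h2 i hi).le
  have e2 : y.2.2.map b = y.2.2.map b' := List.map_congr_left fun i hi => hb i (h3 i hi).le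
  rwa [e1, e2] at h4

theorem limA (hj : Function.Injective jj)
    (hR : ∀ U : Submodule ℚ D, FiniteDimensional ℚ U → ∀ F : Finset H, ∃ h ∉ F, jj h ∉ U)
    (ν : ℕ ≃ H) (B : ℕ → ℕ → H) (C : ℕ → ℕ → ℕ)
    (hB0 : ∀ s, B (s + 1) s = ν s)
    (hstep : ∀ s : ℕ, (s.unpair.1 < s ∧ (∃ y ∈ cand Rel s, DepB (B s) s.unpair.1 y) ∧
          B (s + 1) s.unpair.1 = B s s.unpair.1 + s.factorial • ν (C s s.unpair.1) ∧
          C (s + 1) s.unpair.1 = C s s.unpair.1 + 1 ∧
          ∀ i < s, i ≠ s.unpair.1 → B (s + 1) i = B s i ∧ C (s + 1) i = C s i) ∨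
        ((s ≤ s.unpair.1 ∨ ∀ y ∈ cand Rel s, ¬ DepB (B s) s.unpair.1 y) ∧
          ∀ i < s, B (s + 1) i = B s i ∧ C (s + 1) i = C s i)) :
    ∃ (b : ℕ → H) (t : ℕ → ℕ), (∀ i s, t i ≤ s → B s i = b i) ∧ (∀ i, i < t i) ∧
      LinearIndependent ℚ (fun i => jj (b i)) ∧
      (∀ h, jj h ∈ Submodule.span ℚ (Set.range (fun i => jj (b i)))) := by
  classical
  let Act : ℕ → ℕ → Prop := fun s i => s.unpair.1 = i ∧ i < s ∧ ∃ y ∈ cand Rel s, DepB (B s) i y
  have hact : ∀ s i, Act s i →
      B (s + 1) i = B s i + s.factorial • ν (C s i) ∧ C (s + 1) i = C s i + 1 := by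
    rintro s i ⟨rfl, h1, y, hy, hy'⟩
    rcases hstep s with ⟨_, _, h2, h3, _⟩ | ⟨h2, _⟩
    · exact ⟨h2, h3⟩
    · rcases h2 with h2 | h2
      · omega
      · exact absurd hy' (h2 y hy)
  have hno : ∀ s i, i < s → ¬ Act s i → B (s + 1) i = B s i ∧ C (s + 1) i = C s i := by
    intro s i hi hna
    rcases hstep s with ⟨h1, h2, _, _, h3⟩ | ⟨_, h3⟩
    · refine h3 i hi ?_
      rintro rfl
      exact hna ⟨rfl, h1, h2⟩
    · exact h3 i hi
  have hconst : ∀ i a, i < a → ∀ c, a ≤ c → (∀ u, a ≤ u → u < c → ¬ Act u i) →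
      B c i = B a i ∧ C c i = C a i := by
    intro i a hia c hac
    induction c, hac using Nat.le_induction with
    | base => intro _; exact ⟨rfl, rfl⟩
    | succ c hac ih =>
      intro h
      obtain ⟨h1, h2⟩ := ih fun u h1 h2 => h u h1 (by omega)
      obtain ⟨h3, h4⟩ := hno c i (by omega) (h c hac (by omega))
      exact ⟨h3.trans h1, h4.trans h2⟩
  -- finitely many actions
  have hfin : ∀ i, ∃ t, i < t ∧ ∀ s ≥ t, ¬ Act s i := by
    intro i
    induction i using Nat.strong_induction_on with
    | _ i IH =>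
      by_contra hcon
      push Not at hcon
      choose t ht using IH
      -- common bound
      obtain ⟨s0, hs0i, hs0⟩ : ∃ s0, i < s0 ∧ ∀ k (hk : k < i), t k hk ≤ s0 := by
        refine ⟨i + 1 + ∑ k : Fin i, t k k.2, by omega, fun k hk => ?_⟩
        have := Finset.single_le_sum (f := fun k : Fin i => t k k.2) (fun _ _ => Nat.zero_le _)
          (Finset.mem_univ (⟨k, hk⟩ : Fin i))
        simp only at this
        omega
      have hst : ∀ s ≥ s0, ∀ k < i, B s k = B s0 k := by
        intro s hs k hk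
        exact (hconst k s0 (by omega) s hs fun u hu _ => (ht k hk).2 u
          ((hs0 k hk).trans hu)).1
      set U := Submodule.span ℚ ((fun k => jj (B s0 k)) '' {k | k < i}) with hU
      have hUfin : FiniteDimensional ℚ U := by
        refine FiniteDimensional.span_of_finite ℚ ?_
        exact (Set.finite_lt_nat i).image _
      have hUact : ∀ s ≥ s0, Act s i → jj (B s i) ∈ U := by
        rintro s hs ⟨_, _, y, _, hy⟩
        have h1 := dep_span jj hy
        have h2 : (fun k => jj (B s k)) '' {k | k < i} = (fun k => jj (B s0 k)) '' {k | k < i} := by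
          refine Set.image_congr fun k hk => ?_
          rw [hst s hs k hk]
        rwa [h2] at h1
      have hnext : ∀ a ≥ s0, ∃ s ≥ a, Act s i ∧ B s i = B a i ∧ C s i = C a i := by
        intro a ha
        have hex : ∃ s, a ≤ s ∧ Act s i := by
          obtain ⟨s, h1, h2⟩ := hcon a (by omega)
          exact ⟨s, h1, h2⟩
        obtain ⟨h1, h2⟩ := Nat.find_spec hex
        refine ⟨Nat.find hex, h1, h2, ?_⟩
        exact hconst i a (by omega) _ h1 fun u hu hu' h => Nat.find_min hex hu' ⟨hu, h⟩
      have hall : ∀ m, ∃ s ≥ s0, Act s i ∧ C s i = C s0 i + m := by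
        intro m
        induction m with
        | zero =>
          obtain ⟨s, h1, h2, _, h3⟩ := hnext s0 le_rfl
          exact ⟨s, h1, h2, h3⟩
        | succ m ih =>
          obtain ⟨s, h1, h2, h3⟩ := ih
          obtain ⟨s', h4, h5, _, h6⟩ := hnext (s + 1) (by omega)
          refine ⟨s', by omega, h5, ?_⟩
          rw [h6, (hact s i h2).2, h3]; ring
      have hmem : ∀ m, jj (ν (C s0 i + m)) ∈ U := by
        intro m
        obtain ⟨s, h1, h2, h3⟩ := hall m
        obtain ⟨s', h4, h5, h6, _⟩ := hnext (s + 1) (by omega)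
        have h7 := hUact s h1 h2
        have h8 := hUact s' (by omega) h5
        rw [h6, (hact s i h2).1, map_add, map_nsmul, h3] at h8
        have h9 : (s.factorial : ℚ) • jj (ν (C s0 i + m)) ∈ U := by
          rw [Nat.cast_smul_eq_nsmul]
          exact (Submodule.add_mem_iff_right _ h7).1 h8
        exact (Submodule.smul_mem_iff _ (by exact_mod_cast s.factorial_ne_zero)).1 h9
      obtain ⟨h, h1, h2⟩ := hR U hUfin ((Finset.range (C s0 i)).image ν)
      apply h2
      have h3 : C s0 i ≤ ν.symm h := by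
        by_contra hlt
        push Not at hlt
        exact h1 (Finset.mem_image.2 ⟨ν.symm h, Finset.mem_range.2 hlt, by simp⟩)
      obtain ⟨m, hm⟩ := Nat.exists_eq_add_of_le h3
      have := hmem m
      rw [← hm, Equiv.apply_symm_apply] at this
      exact this
  choose t ht1 ht2 using hfin
  let b : ℕ → H := fun i => B (t i) i
  have hb : ∀ i s, t i ≤ s → B s i = b i := fun i s hs =>
    (hconst i (t i) (ht1 i) s hs fun u hu _ => ht2 i u hu).1
  -- common bounds
  have hbd : ∀ n, ∃ T, ∀ k ≤ n, t k ≤ T := by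
    intro n
    refine ⟨∑ k ∈ Finset.range (n + 1), t k, fun k hk => ?_⟩
    exact Finset.single_le_sum (f := t) (fun _ _ => Nat.zero_le _)
      (Finset.mem_range.2 (by omega))
  refine ⟨b, t, hb, ht1, ?_, ?_⟩
  · refine li_of_notMem fun i hi => ?_
    obtain ⟨y, hy⟩ := span_dep jj hj hi
    obtain ⟨T, hT⟩ := hbd i
    set s := Nat.pair i (T + i + 1 + encode y) with hs
    have hs1 : T + i + 1 + encode y ≤ s := Nat.right_le_pair _ _
    refine ht2 i s ((hT i le_rfl).trans (by omega)) ⟨by rw [hs, Nat.unpair_pair], by omega, y,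
      mem_cand (by omega), ?_⟩
    exact depB_congr hy fun k hk => (hb k s ((hT k hk).trans (by omega))).symm
  · have hspan : ∀ a s, a < s →
        jj (ν a) ∈ Submodule.span ℚ ((fun i => jj (B s i)) '' {k | k ≤ a}) := by
      intro a s hs
      induction s, hs using Nat.le_induction with
      | base => exact Submodule.subset_span ⟨a, by simp, by simp only [hB0]⟩
      | succ s hs ih =>
        refine Submodule.span_le.2 ?_ ih
        rintro _ ⟨k, hk, rfl⟩
        simp only [Set.mem_ofPred_eq] at hk
        by_cases hak : Act s k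
        · have h1 := dep_span jj hak.2.2.choose_spec.2
          refine Submodule.span_le.2 ?_ h1
          rintro _ ⟨l, hl, rfl⟩
          simp only [Set.mem_ofPred_eq] at hl
          have h2 : ¬ Act s l := fun h => by
            have := h.1; have := hak.1; omega
          refine Submodule.subset_span ⟨l, by simp only [Set.mem_ofPred_eq]; omega, ?_⟩
          simp only [(hno s l (by omega) h2).1]
        · refine Submodule.subset_span ⟨k, hk, ?_⟩
          simp only [(hno s k (by omega) hak).1]
    intro h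
    obtain ⟨T, hT⟩ := hbd (ν.symm h)
    have h1 := hspan (ν.symm h) (T + ν.symm h + 1) (by omega)
    rw [Equiv.apply_symm_apply] at h1
    refine Submodule.span_mono ?_ h1
    rintro _ ⟨k, hk, rfl⟩
    exact ⟨k, by simp only [hb k _ ((hT k hk).trans (by omega : T ≤ T + ν.symm h + 1))]⟩

end

end Pool.Agent.Helper70.OD
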