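import Pool.Agent.Helper70.OD.Rec

/-! Stage A (Dobritsa): the computable sequence of approximate bases. -/

namespace Pool.Agent.Helper70.OD

open Encodable

variable {H : Type} [AddCommGroup H] (ν : ℕ ≃ H)

theorem RE_add (hν : Computable₂ (fun a b : ℕ => ν.symm (ν a + ν b))) :
    RE (fun p : ℕ × ℕ × ℕ => ν p.1 + ν p.2.1 = ν p.2.2) := by
  have h1 : Computable (fun p : ℕ × ℕ => ν.symm (ν p.1 + ν p.2)) := hν
  have h2 := RE_of_computable h1
  have h3 : RE (fun p : ℕ × ℕ × ℕ => ν.symm (ν p.1 + ν p.2.1) = p.2.2) :=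
    RE.comp (f := fun p : ℕ × ℕ × ℕ => ((p.1, p.2.1), p.2.2)) h2 (by fun_prop)
  exact h3.of_eq fun p => by rw [Equiv.symm_apply_eq]

theorem RE_sum (hν : Computable₂ (fun a b : ℕ => ν.symm (ν a + ν b))) :
    RE (fun p : List ℕ × ℕ => (p.1.map ν).sum = ν p.2) := by
  have hA := RE_add ν hν
  generalize hAe : (fun a b c : ℕ => ν a + ν b = ν c) = A
  have hA' : RE (fun p : ℕ × ℕ × ℕ => A p.1 p.2.1 p.2.2) := by rw [← hAe]; exact hA
  have h1 : RE (fun p : List ℕ × ℕ => ∃ T : List ℕ, T[0]? = some (ν.symm 0) ∧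
      BAll p.1.length (fun i => ∃ a b c : ℕ, T[i]? = some a ∧ p.1[i]? = some b ∧
        T[i + 1]? = some c ∧ A a b c) ∧ T[p.1.length]? = some p.2) := by
    fun_prop
  refine h1.of_eq fun ⟨l, x⟩ => ?_
  simp only
  subst hAe
  constructor
  · intro h
    refine ⟨(List.range (l.length + 1)).map (fun i => ν.symm ((l.take i).map ν).sum), ?_, ?_, ?_⟩
    · simp
    · intro i hi
      refine ⟨ν.symm ((l.take i).map ν).sum, l[i], ν.symm ((l.take (i + 1)).map ν).sum, ?_,
        List.getElem?_eq_getElem hi, ?_, ?_⟩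
      · simp [List.getElem?_map, List.getElem?_range (show i < l.length + 1 by omega)]
      · simp [List.getElem?_map, List.getElem?_range (show i + 1 < l.length + 1 by omega)]
      · simp only [Equiv.apply_symm_apply]
        rw [List.take_succ_eq_append_getElem hi]
        simp only [List.map_append, List.sum_append, List.map_cons, List.map_nil, List.sum_cons,
          List.sum_nil, add_zero]
    · rw [List.getElem?_map, List.getElem?_range (show l.length < l.length + 1 by omega)]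
      simp only [Option.map_some, List.take_length, h, Equiv.symm_apply_apply]
  · rintro ⟨T, h1, h2, h3⟩
    have key : ∀ i ≤ l.length, T[i]? = some (ν.symm ((l.take i).map ν).sum) := by
      intro i hi
      induction i with
      | zero => simpa using h1
      | succ i ih =>
        obtain ⟨a, b, c, h4, h5, h6, h7⟩ := h2 i (by omega)
        rw [ih (by omega)] at h4
        cases h4
        rw [List.getElem?_eq_getElem (by omega)] at h5
        cases h5
        rw [h6]
        congr 1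
        rw [Equiv.eq_symm_apply, ← h7, List.take_succ_eq_append_getElem (by omega)]
        simp only [List.map_append, List.sum_append, List.map_cons, List.map_nil, List.sum_cons,
          List.sum_nil, add_zero, Equiv.apply_symm_apply]
    have := key l.length le_rfl
    rw [h3] at this
    simp only [List.take_length, Option.some.injEq] at this
    rw [this]; simp

abbrev StA := List (ℕ × ℕ) × ℕ

def bx (L : List (ℕ × ℕ)) (i : ℕ) : ℕ := (L.getD i (0, 0)).1
def cx (L : List (ℕ × ℕ)) (i : ℕ) : ℕ := (L.getD i (0, 0)).2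

section
variable {α : Type} [Primcodable α]
@[fun_prop] theorem P_bx {f : α → List (ℕ × ℕ)} {g : α → ℕ} (hf : Primrec f) (hg : Primrec g) :
    Primrec (fun a => bx (f a) (g a)) := by unfold bx; fun_prop
@[fun_prop] theorem P_cx {f : α → List (ℕ × ℕ)} {g : α → ℕ} (hf : Primrec f) (hg : Primrec g) :
    Primrec (fun a => cx (f a) (g a)) := by unfold cx; fun_prop
end

/-- candidate relations `N b_j + sum_P b = sum_Q b` -/
abbrev Rel := ℕ × List ℕ × List ℕ

def DepR (S : List ℕ → ℕ → Prop) (L : List (ℕ × ℕ)) (j : ℕ) (y : Rel) : Prop :=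
  y.1 ≠ 0 ∧ LAll y.2.1 (fun i => i < j) ∧ LAll y.2.2 (fun i => i < j) ∧
    ∃ x, S ((List.range y.1).map (fun _ => bx L j) ++ y.2.1.map (fun i => bx L i)) x ∧
      S (y.2.2.map (fun i => bx L i)) x

def NDepR (S : List ℕ → ℕ → Prop) (L : List (ℕ × ℕ)) (j : ℕ) (y : Rel) : Prop :=
  y.1 = 0 ∨ LEx y.2.1 (fun i => j ≤ i) ∨ LEx y.2.2 (fun i => j ≤ i) ∨
    ∃ x x', x ≠ x' ∧
      S ((List.range y.1).map (fun _ => bx L j) ++ y.2.1.map (fun i => bx L i)) x ∧
      S (y.2.2.map (fun i => bx L i)) x'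

def StepA (S : List ℕ → ℕ → Prop) (s : ℕ) (a a' : StA) : Prop :=
  a'.2 = a.2 * (s + 1) ∧ ∃ L1 : List (ℕ × ℕ), a'.1 = L1 ++ [(s, 0)] ∧
    ((s.unpair.1 < a.1.length ∧ LEx (cand Rel s) (fun y => DepR S a.1 s.unpair.1 y) ∧
        ∃ b' : ℕ, S (bx a.1 s.unpair.1 :: (List.range a.2).map (fun _ => cx a.1 s.unpair.1)) b' ∧
          L1 = a.1.set s.unpair.1 (b', cx a.1 s.unpair.1 + 1)) ∨
      ((a.1.length ≤ s.unpair.1 ∨ LAll (cand Rel s) (fun y => NDepR S a.1 s.unpair.1 y)) ∧
        L1 = a.1))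

theorem RE_StepA (S : List ℕ → ℕ → Prop) (hS : RE (fun p : List ℕ × ℕ => S p.1 p.2)) :
    RE (fun p : ℕ × StA × StA => StepA S p.1 p.2.1 p.2.2) := by
  unfold StepA DepR NDepR
  fun_prop

/-- semantic dependency -/
def DepB (b : ℕ → H) (j : ℕ) (y : Rel) : Prop :=
  y.1 ≠ 0 ∧ (∀ i ∈ y.2.1, i < j) ∧ (∀ i ∈ y.2.2, i < j) ∧
    y.1 • b j + (y.2.1.map b).sum = (y.2.2.map b).sum

theorem depR_iff (L : List (ℕ × ℕ)) (j : ℕ) (y : Rel) :
    DepR (fun l x => (l.map ν).sum = ν x) L j y ↔ DepB (fun i => ν (bx L i)) j y := by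
  unfold DepR DepB LAll
  refine and_congr Iff.rfl (and_congr Iff.rfl (and_congr Iff.rfl ?_))
  simp only [List.map_append, List.map_map, List.sum_append, Function.comp_def, List.map_const',
    List.length_range, List.map_replicate, List.sum_replicate]
  constructor
  · rintro ⟨x, h1, h2⟩; rw [h1, h2]
  · intro h
    exact ⟨ν.symm _, by rw [h, Equiv.apply_symm_apply], by rw [Equiv.apply_symm_apply]⟩

theorem ndepR_iff (L : List (ℕ × ℕ)) (j : ℕ) (y : Rel) :
    NDepR (fun l x => (l.map ν).sum = ν x) L j y ↔ ¬ DepB (fun i => ν (bx L i)) j y := by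
  unfold NDepR DepB LEx
  simp only [List.map_append, List.map_map, List.sum_append, Function.comp_def, List.map_const',
    List.length_range, List.map_replicate, List.sum_replicate]
  constructor
  · rintro (h | ⟨i, h, h'⟩ | ⟨i, h, h'⟩ | ⟨x, x', h1, h2, h3⟩) ⟨k1, k2, k3, k4⟩
    · exact k1 h
    · exact absurd (k2 i h) (not_lt.2 h')
    · exact absurd (k3 i h) (not_lt.2 h')
    · rw [h2, h3] at k4; exact h1 (ν.injective k4)
  · intro h
    by_cases k1 : y.1 = 0
    · exact Or.inl k1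
    by_cases k2 : ∀ i ∈ y.2.1, i < j
    · by_cases k3 : ∀ i ∈ y.2.2, i < j
      · refine Or.inr (Or.inr (Or.inr ⟨ν.symm _, ν.symm _, ?_,
          (Equiv.apply_symm_apply _ _).symm, (Equiv.apply_symm_apply _ _).symm⟩))
        intro h4
        exact h ⟨k1, k2, k3, ν.symm.injective h4⟩
      · push Not at k3
        obtain ⟨i, h1, h2⟩ := k3
        exact Or.inr (Or.inr (Or.inl ⟨i, h1, h2⟩))
    · push Not at k2
      obtain ⟨i, h1, h2⟩ := k2
      exact Or.inr (Or.inl ⟨i, h1, h2⟩)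

theorem exists_seqA (hν : Computable₂ (fun a b : ℕ => ν.symm (ν a + ν b))) :
    ∃ f : ℕ → StA, RE (fun p : ℕ × StA => f p.1 = p.2) ∧
      (∀ s, (f s).1.length = s ∧ (f s).2 = s.factorial) ∧
      ∀ s, bx (f (s + 1)).1 s = s ∧
        ((s.unpair.1 < s ∧ (∃ y ∈ cand Rel s, DepB (fun i => ν (bx (f s).1 i)) s.unpair.1 y) ∧
          ν (bx (f (s + 1)).1 s.unpair.1) =
            ν (bx (f s).1 s.unpair.1) + s.factorial • ν (cx (f s).1 s.unpair.1) ∧
          cx (f (s + 1)).1 s.unpair.1 = cx (f s).1 s.unpair.1 + 1 ∧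
          ∀ i < s, i ≠ s.unpair.1 → bx (f (s + 1)).1 i = bx (f s).1 i ∧
            cx (f (s + 1)).1 i = cx (f s).1 i) ∨
        ((s ≤ s.unpair.1 ∨
          ∀ y ∈ cand Rel s, ¬ DepB (fun i => ν (bx (f s).1 i)) s.unpair.1 y) ∧
          ∀ i < s, bx (f (s + 1)).1 i = bx (f s).1 i ∧ cx (f (s + 1)).1 i = cx (f s).1 i)) := by
  obtain ⟨f, h1, h2, h3⟩ := RE.iterate (RE_StepA _ (RE_sum ν hν))
    (fun s a => a.1.length = s ∧ a.2 = s.factorial) ([], 1) ⟨rfl, rfl⟩
    (by
      intro s a ⟨ha1, ha2⟩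
      by_cases h1 : s.unpair.1 < a.1.length ∧
        LEx (cand Rel s) (fun y => DepR (fun l x => (l.map ν).sum = ν x) a.1 s.unpair.1 y)
      · refine ⟨(a.1.set s.unpair.1 (ν.symm ((bx a.1 s.unpair.1 ::
          (List.range a.2).map (fun _ => cx a.1 s.unpair.1)).map ν).sum,
            cx a.1 s.unpair.1 + 1) ++ [(s, 0)], a.2 * (s + 1)), rfl, _, rfl,
            Or.inl ⟨h1.1, h1.2, _, ?_, rfl⟩⟩
        rw [Equiv.apply_symm_apply]
      · refine ⟨(a.1 ++ [(s, 0)], a.2 * (s + 1)), rfl, _, rfl, Or.inr ⟨?_, rfl⟩⟩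
        by_cases h2 : s.unpair.1 < a.1.length
        · right
          intro y hy
          rw [ndepR_iff, ← depR_iff]
          exact fun h => h1 ⟨h2, y, hy, h⟩
        · left; omega)
    (by
      rintro s a a' ⟨ha1, ha2⟩ ⟨h1, L1, h2, h3⟩
      refine ⟨?_, ?_⟩
      · rw [h2, List.length_append]
        rcases h3 with ⟨_, _, b', _, h3⟩ | ⟨_, h3⟩
        · rw [h3, List.length_set, ha1]; rfl
        · rw [h3, ha1]; rfl
      · rw [h1, ha2, Nat.factorial_succ]; ring)
  refine ⟨f, h1, fun s => (h3 s).1, fun s => ?_⟩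
  obtain ⟨⟨hl, hf⟩, hs1, L1, hs2, hs3⟩ := h3 s
  have hL1 : L1.length = s := by
    rcases hs3 with ⟨_, _, b', _, h3⟩ | ⟨_, h3⟩
    · rw [h3, List.length_set, hl]
    · rw [h3, hl]
  have hlt : ∀ i < s, (f (s + 1)).1.getD i (0, 0) = L1.getD i (0, 0) := by
    intro i hi
    rw [hs2, List.getD_eq_getElem?_getD, List.getD_eq_getElem?_getD,
      List.getElem?_append_left (by omega)]
  refine ⟨?_, ?_⟩
  · unfold bx
    rw [hs2, List.getD_eq_getElem?_getD, List.getElem?_append_right (by omega), hL1]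
    simp
  rcases hs3 with ⟨k1, k2, b', k3, k4⟩ | ⟨k1, k2⟩
  · left
    rw [hl] at k1
    refine ⟨k1, ?_, ?_, ?_, ?_⟩
    · obtain ⟨y, hy, hy'⟩ := k2
      exact ⟨y, hy, (depR_iff ν _ _ _).1 hy'⟩
    · have e1 : bx (f (s + 1)).1 s.unpair.1 = b' := by
        unfold bx
        rw [hlt _ k1, k4, List.getD_eq_getElem?_getD, List.getElem?_set_self (by omega)]
        rfl
      rw [e1]
      simp only [List.map_cons, List.sum_cons, List.map_const',
        List.length_range, List.map_replicate, List.sum_replicate, hf] at k3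
      exact k3.symm
    · unfold cx
      rw [hlt _ k1, k4, List.getD_eq_getElem?_getD, List.getElem?_set_self (by omega)]
      rfl
    · intro i hi hne
      unfold bx cx
      rw [hlt _ hi, k4, List.getD_eq_getElem?_getD, List.getElem?_set_ne (Ne.symm hne),
        ← List.getD_eq_getElem?_getD]
      exact ⟨rfl, rfl⟩
  · right
    refine ⟨?_, ?_⟩
    · rcases k1 with k1 | k1
      · left; omega
      · right
        intro y hy
        exact (ndepR_iff ν _ _ _).1 (k1 y hy)
    · intro i hi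
      unfold bx cx
      rw [hlt _ hi, k2]
      exact ⟨rfl, rfl⟩

end Pool.Agent.Helper70.OD
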