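import Pool.Agent.Helper70.OD.BFin

/-! Generic sets and relative computability. -/

namespace Pool.Agent.Helper70.OD

open Encodable
open Nat.Partrec (Code)

theorem rec_graph {Γ : PC} {g f : ℕ →. ℕ} (hg : Γ.S (fun p : ℕ × ℕ => p.2 ∈ g p.1))
    (hf : Nat.RecursiveIn {g} f) : Γ.S (fun p : ℕ × ℕ => p.2 ∈ f p.1) := by
  classical
  induction hf with
  | zero =>
    refine PC.of_eq (Γ.prim (R := fun p : ℕ × ℕ => p.2 = 0)
      (Primrec.eq.comp Primrec.snd (Primrec.const 0))) fun p => ?_
    change p.2 ∈ Part.some 0 ↔ _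
    rw [Part.mem_some_iff]
  | succ =>
    refine PC.of_eq (Γ.prim (R := fun p : ℕ × ℕ => p.2 = p.1 + 1)
      (Primrec.eq.comp Primrec.snd (Primrec.succ.comp Primrec.fst))) fun p => ?_
    change p.2 ∈ Part.some (p.1 + 1) ↔ _
    rw [Part.mem_some_iff]
  | left =>
    refine PC.of_eq (Γ.prim (R := fun p : ℕ × ℕ => p.2 = p.1.unpair.1)
      (Primrec.eq.comp Primrec.snd (by fun_prop))) fun p => ?_
    change p.2 ∈ Part.some (p.1.unpair.1) ↔ _
    rw [Part.mem_some_iff]
  | right =>
    refine PC.of_eq (Γ.prim (R := fun p : ℕ × ℕ => p.2 = p.1.unpair.2)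
      (Primrec.eq.comp Primrec.snd (by fun_prop))) fun p => ?_
    change p.2 ∈ Part.some (p.1.unpair.2) ↔ _
    rw [Part.mem_some_iff]
  | oracle g' hg' =>
    rw [Set.mem_singleton_iff] at hg'
    rw [hg']; exact hg
  | @pair f h _ _ ihf ihh =>
    have h1 : Γ.S (fun p : ℕ × ℕ => ∃ a : ℕ, ∃ b : ℕ, (a ∈ f p.1 ∧ b ∈ h p.1) ∧
        p.2 = Nat.pair a b) := by
      refine PC.ex' (R := fun (p : ℕ × ℕ) (a : ℕ) => ∃ b : ℕ, (a ∈ f p.1 ∧ b ∈ h p.1) ∧
        p.2 = Nat.pair a b) ?_
      refine PC.ex' (R := fun (p : (ℕ × ℕ) × ℕ) (b : ℕ) => (p.2 ∈ f p.1.1 ∧ b ∈ h p.1.1) ∧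
        p.1.2 = Nat.pair p.2 b) ?_
      refine Γ.and (Γ.and ?_ ?_) (Γ.prim ?_)
      · exact Γ.comp (f := fun q : ((ℕ × ℕ) × ℕ) × ℕ => (q.1.1.1, q.1.2)) ihf (by fun_prop)
      · exact Γ.comp (f := fun q : ((ℕ × ℕ) × ℕ) × ℕ => (q.1.1.1, q.2)) ihh (by fun_prop)
      · exact Primrec.eq.comp (by fun_prop)
          (Primrec₂.natPair.comp (Primrec.snd.comp Primrec.fst) Primrec.snd)
    refine PC.of_eq h1 fun p => ?_
    simp only [Seq.seq, Part.map_eq_map, Part.bind_map, Part.mem_bind_iff, Part.mem_map_iff]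
    constructor
    · rintro ⟨a, ha, b, hb, h⟩
      exact ⟨a, b, ⟨ha, hb⟩, h.symm⟩
    · rintro ⟨a, b, ⟨ha, hb⟩, h⟩
      exact ⟨a, ha, b, hb, h.symm⟩
  | @comp f h _ _ ihf ihh =>
    have h1 : Γ.S (fun p : ℕ × ℕ => ∃ a : ℕ, a ∈ h p.1 ∧ p.2 ∈ f a) := by
      refine PC.ex' (R := fun (p : ℕ × ℕ) (a : ℕ) => a ∈ h p.1 ∧ p.2 ∈ f a) ?_
      refine Γ.and ?_ ?_
      · exact Γ.comp (f := fun q : (ℕ × ℕ) × ℕ => (q.1.1, q.2)) ihh (by fun_prop)
      · exact Γ.comp (f := fun q : (ℕ × ℕ) × ℕ => (q.2, q.1.2)) ihf (by fun_prop)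
    refine PC.of_eq h1 fun p => ?_
    exact Part.mem_bind_iff
  | @prec f h _ _ ihf ihh =>
    have h1 : Γ.S (fun p : ℕ × ℕ => ∃ L : List ℕ, (L.getD 0 0 ∈ f p.1.unpair.1 ∧
        ∀ y < p.1.unpair.2, L.getD (y + 1) 0 ∈
          h (Nat.pair p.1.unpair.1 (Nat.pair y (L.getD y 0)))) ∧
        p.2 = L.getD p.1.unpair.2 0) := by
      refine PC.ex' (R := fun (p : ℕ × ℕ) (L : List ℕ) => (L.getD 0 0 ∈ f p.1.unpair.1 ∧
        ∀ y < p.1.unpair.2, L.getD (y + 1) 0 ∈
          h (Nat.pair p.1.unpair.1 (Nat.pair y (L.getD y 0)))) ∧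
        p.2 = L.getD p.1.unpair.2 0) ?_
      refine Γ.and (Γ.and ?_ ?_) (Γ.prim ?_)
      · exact Γ.comp (f := fun q : (ℕ × ℕ) × List ℕ => (q.1.1.unpair.1, q.2.getD 0 0)) ihf
          (by fun_prop)
      · refine PC.ball' (R := fun (q : (ℕ × ℕ) × List ℕ) (y : ℕ) => q.2.getD (y + 1) 0 ∈
          h (Nat.pair q.1.1.unpair.1 (Nat.pair y (q.2.getD y 0))))
          (f := fun q : (ℕ × ℕ) × List ℕ => q.1.1.unpair.2) (by fun_prop) ?_
        refine Γ.comp (f := fun q : ((ℕ × ℕ) × List ℕ) × ℕ =>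
          (Nat.pair q.1.1.1.unpair.1 (Nat.pair q.2 (q.1.2.getD q.2 0)),
            q.1.2.getD (q.2 + 1) 0)) ihh ?_
        refine Primrec.pair ?_ (by fun_prop)
        refine Primrec₂.natPair.comp (by fun_prop) ?_
        exact Primrec₂.natPair.comp (by fun_prop) (by fun_prop)
      · exact Primrec.eq.comp (by fun_prop) (by fun_prop)
    refine PC.of_eq h1 fun p => ?_
    obtain ⟨an, m⟩ := p
    simp only
    set a := an.unpair.1
    set n := an.unpair.2
    have key : ∀ n m : ℕ, (m ∈ (n.rec (f a) fun y IH => do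
          let i ← IH
          h (Nat.pair a (Nat.pair y i)) : Part ℕ)) ↔
        ∃ L : List ℕ, L.length = n + 1 ∧ (L.getD 0 0 ∈ f a ∧
        ∀ y < n, L.getD (y + 1) 0 ∈ h (Nat.pair a (Nat.pair y (L.getD y 0)))) ∧
        m = L.getD n 0 := by
      intro n
      induction n with
      | zero =>
        intro m
        constructor
        · intro hm
          exact ⟨[m], rfl, ⟨hm, fun y hy => absurd hy (Nat.not_lt_zero _)⟩, rfl⟩
        · rintro ⟨L, _, ⟨h1, _⟩, rfl⟩
          exact h1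
      | succ n ih =>
        intro m
        have h2 : (m ∈ ((n + 1).rec (f a) fun y IH => do
          let i ← IH
          h (Nat.pair a (Nat.pair y i)) : Part ℕ)) ↔ ∃ i ∈ (n.rec (f a) fun y IH => do
          let i ← IH
          h (Nat.pair a (Nat.pair y i)) : Part ℕ), m ∈ h (Nat.pair a (Nat.pair n i)) :=
          Part.mem_bind_iff
        rw [h2]
        constructor
        · rintro ⟨i, hi, hm⟩
          obtain ⟨L, hL0, ⟨hL1, hL2⟩, rfl⟩ := (ih i).1 hi
          refine ⟨L ++ [m], by simp [hL0], ⟨?_, ?_⟩, ?_⟩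
          · rw [List.getD_append _ _ _ _ (by omega)]; exact hL1
          · intro y hy
            rcases Nat.lt_succ_iff_lt_or_eq.1 hy with hy | rfl
            · rw [List.getD_append _ _ _ _ (by omega), List.getD_append _ _ _ _ (by omega)]
              exact hL2 y hy
            · rw [List.getD_append _ _ _ y (by omega),
                List.getD_append_right _ _ _ (y + 1) (by omega), hL0]
              simpa using hm
          · rw [List.getD_append_right _ _ _ _ (by omega), hL0]
            simp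
        · rintro ⟨L, hL0, ⟨hL1, hL2⟩, rfl⟩
          refine ⟨L.getD n 0, (ih _).2 ⟨L.take (n + 1), by simp [hL0], ⟨?_, ?_⟩, ?_⟩,
            hL2 n (Nat.lt_succ_self n)⟩
          · simpa [List.getD_eq_getElem?_getD, List.getElem?_take] using hL1
          · intro y hy
            have := hL2 y (by omega)
            simp only [List.getD_eq_getElem?_getD, List.getElem?_take] at this ⊢
            rw [if_pos (by omega), if_pos (by omega)]
            exact this
          · simp only [List.getD_eq_getElem?_getD, List.getElem?_take]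
            rw [if_pos (by omega)]
    have := key n m
    refine this.trans ?_
    constructor
    · rintro ⟨L, _, hL⟩
      exact ⟨L, hL⟩
    · rintro ⟨L, ⟨hL1, hL2⟩, hL3⟩
      let L' : List ℕ := (List.range (n + 1)).map (fun i => L.getD i 0)
      have hL' : ∀ i < n + 1, L'.getD i 0 = L.getD i 0 := by
        intro i hi
        simp only [L']
        rw [List.getD_eq_getElem?_getD, List.getElem?_map, List.getElem?_range hi]
        rfl
      refine ⟨L', by simp [L'], ⟨?_, ?_⟩, ?_⟩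
      · rw [hL' 0 (by omega)]; exact hL1
      · intro y hy
        rw [hL' _ (by omega), hL' _ (by omega)]
        exact hL2 y hy
      · rw [hL' _ (by omega)]; exact hL3
  | @rfind f _ ihf =>
    have h1 : Γ.S (fun p : ℕ × ℕ => 0 ∈ f (Nat.pair p.1 p.2) ∧
        ∀ k < p.2, ∃ j : ℕ, j ≠ 0 ∧ j ∈ f (Nat.pair p.1 k)) := by
      refine Γ.and ?_ ?_
      · refine Γ.comp (f := fun q : ℕ × ℕ => (Nat.pair q.1 q.2, 0)) ihf ?_
        exact (Primrec₂.natPair.comp Primrec.fst Primrec.snd).pair (Primrec.const 0)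
      · refine PC.ball' (R := fun (q : ℕ × ℕ) (k : ℕ) =>
          ∃ j : ℕ, j ≠ 0 ∧ j ∈ f (Nat.pair q.1 k)) (f := fun q : ℕ × ℕ => q.2) (by fun_prop) ?_
        refine PC.ex' (R := fun (q : (ℕ × ℕ) × ℕ) (j : ℕ) =>
          j ≠ 0 ∧ j ∈ f (Nat.pair q.1.1 q.2)) ?_
        refine Γ.and (Γ.prim ?_) ?_
        · exact PrimrecPred.not (Primrec.eq.comp Primrec.snd (Primrec.const 0))
        · refine Γ.comp (f := fun q : ((ℕ × ℕ) × ℕ) × ℕ => (Nat.pair q.1.1.1 q.1.2, q.2)) ihf ?_
          exact (Primrec₂.natPair.comp (by fun_prop) (by fun_prop)).pair Primrec.snd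
    refine PC.of_eq h1 fun p => ?_
    refine Nat.mem_rfind.trans ?_
    simp only [Part.map_eq_map, Part.mem_map_iff]
    refine and_congr ?_ ?_
    · constructor
      · rintro ⟨a, ha, h⟩
        have : a = 0 := by simpa using h
        rw [this] at ha; exact ha
      · intro h
        exact ⟨0, h, by simp⟩
    · refine forall₂_congr fun k _ => ?_
      constructor
      · rintro ⟨a, ha, h⟩
        exact ⟨a, by simpa using h, ha⟩
      · rintro ⟨a, ha, h⟩
        exact ⟨a, h, by simpa using ha⟩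

/-- existence of generic sets -/
theorem exists_generic (D : ℕ → Set (List Bool)) : ∃ G : ℕ → Bool, ∀ n, ∃ k,
    res G k ∈ D n ∨ ∀ τ, res G k <+: τ → τ ∉ D n := by
  classical
  have step : ∀ (n : ℕ) (σ : List Bool), ∃ σ' : List Bool, σ <+: σ' ∧ σ.length < σ'.length ∧
      (σ' ∈ D n ∨ ∀ τ, σ' <+: τ → τ ∉ D n) := by
    intro n σ
    by_cases h : ∃ τ, (σ ++ [true]) <+: τ ∧ τ ∈ D n
    · obtain ⟨τ, h1, h2⟩ := h
      refine ⟨τ, (List.prefix_append _ _).trans h1, ?_, Or.inl h2⟩
      have := h1.length_le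
      simp at this; omega
    · push Not at h
      exact ⟨σ ++ [true], List.prefix_append _ _, by simp, Or.inr h⟩
  choose F hF1 hF2 hF3 using step
  let S : ℕ → List Bool := fun n => Nat.rec [] (fun n σ => F n σ) n
  have hS : ∀ n, S (n + 1) = F n (S n) := fun n => rfl
  have hlen : ∀ n, n ≤ (S n).length := by
    intro n
    induction n with
    | zero => exact Nat.zero_le _
    | succ n ih =>
      rw [hS]
      have := hF2 n (S n)
      omega
  have hmono : ∀ m n, m ≤ n → S m <+: S n := by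
    intro m n h
    induction n, h using Nat.le_induction with
    | base => exact List.prefix_rfl
    | succ n _ ih => rw [hS]; exact ih.trans (hF1 n (S n))
  let G : ℕ → Bool := fun i => (S (i + 1)).getD i false
  have hpre : ∀ n, Pre (S n) G := by
    intro n i b hi
    simp only [G]
    have hin : i < (S n).length := by
      by_contra hc
      rw [List.getElem?_eq_none (not_lt.1 hc)] at hi
      cases hi
    have hi' : i < (S (i + 1)).length := hlen (i + 1)
    rw [List.getD_eq_getElem?_getD]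
    have h1 : (S (i + 1))[i]? = (S (max (i + 1) n))[i]? := by
      obtain ⟨ρ, hρ⟩ := hmono (i + 1) (max (i + 1) n) (le_max_left _ _)
      rw [← hρ, List.getElem?_append_left hi']
    have h2 : (S n)[i]? = (S (max (i + 1) n))[i]? := by
      obtain ⟨ρ, hρ⟩ := hmono n (max (i + 1) n) (le_max_right _ _)
      rw [← hρ, List.getElem?_append_left hin]
    rw [h1, ← h2, hi]; rfl
  refine ⟨G, fun n => ⟨(S (n + 1)).length, ?_⟩⟩
  rw [← (hpre (n + 1)).eq_res]
  exact hF3 n (S n)

section univ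

variable {β : Type} [Primcodable β]

/-- the universal c.e. relation -/
def Univ (c : Code) (z : β) : Prop := ∃ k : ℕ, (Code.evaln k c (encode z)).isSome = true

theorem RE_Univ : RE (fun p : Code × β => Univ p.1 p.2) := by
  unfold Univ
  refine RE.ex (R := fun (p : Code × β) (k : ℕ) =>
    (Code.evaln k p.1 (encode p.2)).isSome = true) ?_
  refine RE.prim (Primrec.eq.comp (Primrec.option_isSome.comp ?_) (Primrec.const true))
  exact Nat.Partrec.Code.primrec_evaln.comp
    (((Primrec.snd).pair (Primrec.fst.comp Primrec.fst)).pair (by fun_prop))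

theorem exists_univ {V : β → Prop} (hV : RE V) : ∃ c, ∀ z, V z ↔ Univ c z := by
  classical
  obtain ⟨L, hL, hVL⟩ := hV
  have h1 : Partrec₂ (fun (z : β) (k : ℕ) => (Part.some (decide (L (z, k))) : Part Bool)) := by
    have : Computable (fun p : β × ℕ => decide (L (p.1, p.2))) := (Primrec.to_comp (by
      have := hL.decide
      simpa using this))
    exact this
  have h2 := Partrec.rfind h1
  obtain ⟨c, hc⟩ := Code.exists_code.1 h2
  refine ⟨c, fun z => ?_⟩
  have hc' : Code.eval c (encode z) =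
      (Nat.rfind (fun k => (Part.some (decide (L (z, k))) : Part Bool))).map encode := by
    rw [hc]; simp
  rw [hVL]
  constructor
  · rintro ⟨k, hk⟩
    have hdom : (Code.eval c (encode z)).Dom := by
      rw [hc']
      change (Nat.rfind (fun k => (Part.some (decide (L (z, k))) : Part Bool))).Dom
      exact Nat.rfind_dom.2 ⟨k, by simpa using hk, fun _ => trivial⟩
    obtain ⟨b, hb⟩ := Part.dom_iff_mem.1 hdom
    obtain ⟨m, hm⟩ := Code.evaln_complete.1 hb
    refine ⟨m, ?_⟩
    rw [Option.mem_def] at hm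
    rw [hm]; rfl
  · rintro ⟨m, hm⟩
    obtain ⟨b, hb⟩ := Option.isSome_iff_exists.1 hm
    have h3 := Code.evaln_sound (Option.mem_def.2 hb)
    rw [hc', Part.mem_map_iff] at h3
    obtain ⟨k, hk, _⟩ := h3
    have := Nat.rfind_spec hk
    exact ⟨k, by simpa using this⟩

end univ

end Pool.Agent.Helper70.OD
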