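import Pool.Agent.Helper70.OD.Gen

/-! Assembly. -/

namespace Pool.Agent.Helper70.OD

open Encodable
open Nat.Partrec (Code)

@[fun_prop] theorem RE.pre {α : Type} [Primcodable α] {f g : α → List Bool} (hf : Primrec f)
    (hg : Primrec g) : RE (fun a => f a <+: g a) :=
  RE.prim (primrec_prefix.comp hf hg)

/-- the requirements -/
def AA (e : ℕ) (p : List (ℕ × Bool)) : Prop :=
  ∃ σc : List Bool × Code, decode (α := List Bool × Code) e = some σc ∧
    ∃ τ : List Bool, σc.1 <+: τ ∧ LAll p (fun y => ∃ τ' : List Bool, τ' <+: τ ∧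
      Univ (β := (ℕ × Bool) × List Bool) σc.2 (y, τ'))

theorem RE_AA : RE (fun p : ℕ × List (ℕ × Bool) => AA p.1 p.2) := by
  unfold AA
  have hU : RE (fun p : Code × ((ℕ × Bool) × List Bool) => Univ p.1 p.2) := RE_Univ
  refine RE.ex (R := fun (p : ℕ × List (ℕ × Bool)) (σc : List Bool × Code) =>
    decode (α := List Bool × Code) p.1 = some σc ∧
    ∃ τ : List Bool, σc.1 <+: τ ∧ LAll p.2 (fun y => ∃ τ' : List Bool, τ' <+: τ ∧
      Univ (β := (ℕ × Bool) × List Bool) σc.2 (y, τ'))) ?_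
  refine RE.and (by fun_prop) ?_
  refine RE.ex (R := fun (p : (ℕ × List (ℕ × Bool)) × (List Bool × Code)) (τ : List Bool) =>
    p.2.1 <+: τ ∧ LAll p.1.2 (fun y => ∃ τ' : List Bool, τ' <+: τ ∧
      Univ (β := (ℕ × Bool) × List Bool) p.2.2 (y, τ'))) ?_
  refine RE.and (by fun_prop) ?_
  refine RE.lall (R := fun (p : ((ℕ × List (ℕ × Bool)) × (List Bool × Code)) × List Bool)
    (y : ℕ × Bool) => ∃ τ' : List Bool, τ' <+: p.2 ∧
      Univ (β := (ℕ × Bool) × List Bool) p.1.2.2 (y, τ')) (by fun_prop) ?_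
  refine RE.ex (R := fun (p : (((ℕ × List (ℕ × Bool)) × (List Bool × Code)) × List Bool) ×
    (ℕ × Bool)) (τ' : List Bool) => τ' <+: p.1.2 ∧
      Univ (β := (ℕ × Bool) × List Bool) p.1.1.2.2 (p.2, τ')) ?_
  refine RE.and (by fun_prop) ?_
  exact RE.comp (f := fun q : ((((ℕ × List (ℕ × Bool)) × (List Bool × Code)) × List Bool) ×
    (ℕ × Bool)) × List Bool => (q.1.1.1.2.2, (q.1.2, q.2))) hU (by fun_prop)

/-- strings contradicting a computable function -/
def EE (c : Code) : Set (List Bool) :=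
  {τ | ∃ i b, τ[i]? = some b ∧ encode b ∉ Code.eval c i}

theorem main (H : Type) [AddCommGroup H]
    (htf : ∀ (n : ℕ) (x : H), n ≠ 0 → n • x = 0 → x = 0)
    (hrank : Cardinal.aleph0 ≤ Module.rank ℤ H)
    (hcomp : ∃ ν : ℕ ≃ H, Computable₂ (fun a b : ℕ => ν.symm (ν a + ν b))) :
    ∃ μ : ℕ ≃ H, Computable₂ (fun a b : ℕ => μ.symm (μ a + μ b)) ∧
      ∃ P : Set H, IsOrd P ∧
        Computable (Set.indicator (μ ⁻¹' P) (fun _ => (1 : ℕ)) : ℕ → ℕ) ∧
        ∃ X : ℕ → ℕ, ∀ Q : Set H, IsOrd Q →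
          ¬ (TuringReducible
                ((Set.indicator (μ ⁻¹' Q) (fun _ => (1 : ℕ)) : ℕ → ℕ) : ℕ →. ℕ)
                ((X : ℕ → ℕ) : ℕ →. ℕ) ∧
              TuringReducible ((X : ℕ → ℕ) : ℕ →. ℕ)
                ((Set.indicator (μ ⁻¹' Q) (fun _ => (1 : ℕ)) : ℕ → ℕ) : ℕ →. ℕ)) := by
  classical
  obtain ⟨ν, hν⟩ := hcomp
  obtain ⟨ι, HS, hι, hHS, hH, hinf⟩ := stageA H htf hrank ν hν
  obtain ⟨μ, hμ, P, hP, hPc, hreq⟩ := stageB H ι hι hHS hH hinf RE_AA
  let Bad : List (ℕ × Bool) → Prop := fun p =>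
    ∀ Q' : Set H, IsOrd Q' → ¬ ∀ y ∈ p, (y.2 = true ↔ μ y.1 ∈ Q')
  let DV : Code → Set (List Bool) := fun c => {τ | ∃ p, Bad p ∧ ∀ y ∈ p,
    ∃ τ' : List Bool, τ' <+: τ ∧ Univ (β := (ℕ × Bool) × List Bool) c (y, τ')}
  let D : ℕ → Set (List Bool) := fun n => match (decode n : Option (Code ⊕ Code)) with
    | some (Sum.inl c) => DV c
    | some (Sum.inr c) => EE c
    | none => ∅
  obtain ⟨G, hG⟩ := exists_generic D
  have hG1 : ∀ c, ∃ k, res G k ∈ DV c ∨ ∀ τ, res G k <+: τ → τ ∉ DV c := by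
    intro c
    have := hG (encode (Sum.inl c : Code ⊕ Code))
    simpa only [D, encodek] using this
  have hG2 : ∀ c, ∃ k, res G k ∈ EE c ∨ ∀ τ, res G k <+: τ → τ ∉ EE c := by
    intro c
    have := hG (encode (Sum.inr c : Code ⊕ Code))
    simpa only [D, encodek] using this
  let X : ℕ → ℕ := fun n => encode (G n)
  -- the generic is not computable
  have hX : ¬ Nat.Partrec (X : ℕ →. ℕ) := by
    intro hX
    obtain ⟨c, hc⟩ := Code.exists_code.1 hX
    have hcv : ∀ i, Code.eval c i = Part.some (encode (G i)) := by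
      intro i; rw [hc]; rfl
    obtain ⟨k, hk | hk⟩ := hG2 c
    · obtain ⟨i, b, h1, h2⟩ := hk
      have h3 := pre_res G k i b h1
      rw [hcv, h3] at h2
      exact h2 (Part.mem_some _)
    · refine hk (res G k ++ [!(G k)]) (List.prefix_append _ _) ⟨k, !(G k), ?_, ?_⟩
      · rw [List.getElem?_append_right (by simp)]
        simp
      · rw [hcv, Part.mem_some_iff]
        intro h
        have := encode_injective h
        cases hGk : G k <;> rw [hGk] at this <;> cases this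
  refine ⟨μ, hμ, P, hP, hPc, X, fun Q hQ => ?_⟩
  rintro ⟨hQX, hXQ⟩
  have hcase : Q = P ∨ Q = {a | -a ∈ P} := by
    by_contra hcon
    push Not at hcon
    obtain ⟨h1, h2⟩ := hcon
    -- the graph of `Q` is c.e. in `G`
    have hg : (PC.re.adj G).S (fun p : ℕ × ℕ => p.2 ∈ (X : ℕ →. ℕ) p.1) := by
      have h3 : (PC.re.adj G).S (fun p : ℕ × ℕ => ∃ b : Bool, G p.1 = b ∧ p.2 = encode b) := by
        refine PC.ex' (R := fun (p : ℕ × ℕ) (b : Bool) => G p.1 = b ∧ p.2 = encode b) ?_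
        refine (PC.re.adj G).and ?_ ((PC.re.adj G).prim ?_)
        · exact (PC.re.adj G).comp (f := fun q : (ℕ × ℕ) × Bool => (q.1.1, q.2))
            (PC.adj_self G) (by fun_prop)
        · exact Primrec.eq.comp (by fun_prop) (by fun_prop)
      refine PC.of_eq h3 fun p => ?_
      change p.2 ∈ Part.some (X p.1) ↔ _
      rw [Part.mem_some_iff]
      simp [X]
    have h3 := rec_graph hg (RecursiveIn.iff_nat.1 hQX)
    have h4 : (PC.re.adj G).S (fun y : ℕ × Bool => (y.2 = true ↔ μ y.1 ∈ Q)) := by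
      have h5 := (PC.re.adj G).comp (f := fun y : ℕ × Bool => (y.1, bif y.2 then 1 else 0)) h3
        (by fun_prop)
      refine PC.of_eq h5 fun y => ?_
      change _ ↔ (bif y.2 then 1 else 0) ∈
        Part.some (Set.indicator (μ ⁻¹' Q) (fun _ => (1 : ℕ)) y.1)
      rw [Part.mem_some_iff]
      by_cases hy : y.1 ∈ μ ⁻¹' Q
      · rw [Set.indicator_of_mem hy]
        have hy' : μ y.1 ∈ Q := hy
        cases y.2 <;> simp [hy']
      · rw [Set.indicator_of_notMem hy]
        have hy' : μ y.1 ∉ Q := hy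
        cases y.2 <;> simp [hy']
    obtain ⟨R', ⟨V, hV, hRV⟩, hR'⟩ := h4
    obtain ⟨c, hc⟩ := exists_univ hV
    have hQV : ∀ y : ℕ × Bool, (y.2 = true ↔ μ y.1 ∈ Q) ↔ ∃ τ, Pre τ G ∧
        Univ (β := (ℕ × Bool) × List Bool) c (y, τ) := by
      intro y
      refine (hR' y).trans ?_
      rw [hRV]
      simp only [hc]
    obtain ⟨k, hk | hk⟩ := hG1 c
    · obtain ⟨p, hpB, hp⟩ := hk
      refine hpB Q hQ fun y hy => ?_
      obtain ⟨τ', h5, h6⟩ := hp y hy
      exact (hQV y).2 ⟨τ', (pre_res G k).mono h5, h6⟩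
    · obtain ⟨p, hpA, hpB⟩ := hreq (encode (res G k, c)) Q hQ h1 h2 (by
        intro D
        have h5 : ∀ n : ℕ, ∃ τ, Pre τ G ∧
            Univ (β := (ℕ × Bool) × List Bool) c ((n, decide (μ n ∈ Q)), τ) := by
          intro n
          exact (hQV (n, decide (μ n ∈ Q))).1 (by simp)
        choose t ht1 ht2 using h5
        let L : ℕ := k + D.sup (fun n => (t n).length)
        refine ⟨D.toList.map (fun n => (n, decide (μ n ∈ Q))), ⟨(res G k, c), by simp,
          res G L, ?_, ?_⟩, ?_, ?_⟩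
        · exact (pre_res G k).prefix_res (by simp [L])
        · intro y hy
          obtain ⟨n, hn, rfl⟩ := List.mem_map.1 hy
          refine ⟨t n, (ht1 n).prefix_res ?_, ht2 n⟩
          have : (t n).length ≤ D.sup (fun n => (t n).length) :=
            Finset.le_sup (f := fun n => (t n).length) (Finset.mem_toList.1 hn)
          omega
        · intro n hn
          exact ⟨_, List.mem_map.2 ⟨n, Finset.mem_toList.2 hn, rfl⟩⟩
        · intro y hy
          obtain ⟨n, hn, rfl⟩ := List.mem_map.1 hy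
          simp)
      obtain ⟨σc, hσc, τ, hτ, hall⟩ := hpA
      rw [encodek] at hσc
      cases hσc
      exact hk τ hτ ⟨p, hpB, hall⟩
  -- hence `Q` is computable
  have hQc : Computable (Set.indicator (μ ⁻¹' Q) (fun _ => (1 : ℕ)) : ℕ → ℕ) := by
    rcases hcase with rfl | rfl
    · exact hPc
    · have h1 : Primrec (fun p : ℕ × ℕ => if p.1 = μ.symm 0 then 1 else 1 - p.2) :=
        Primrec.ite (Primrec.eq.comp Primrec.fst (Primrec.const _)) (Primrec.const 1)
          (Primrec.nat_sub.comp (Primrec.const 1) Primrec.snd)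
      have h2 := h1.to_comp.comp (Computable.id.pair hPc)
      refine h2.of_eq fun i => ?_
      simp only [id]
      have h0 : (0 : H) ∈ P := by
        rcases hP.2.2 0 with h | h
        · exact h
        · simpa using h
      by_cases hi : i = μ.symm 0
      · rw [if_pos hi, Set.indicator_of_mem]
        change -(μ i) ∈ P
        rw [hi, Equiv.apply_symm_apply, neg_zero]
        exact h0
      · rw [if_neg hi]
        have hne : μ i ≠ 0 := fun h => hi (by rw [← h, Equiv.symm_apply_apply])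
        by_cases hiP : μ i ∈ P
        · have h3 : -(μ i) ∉ P := fun h => hne (hP.2.1 _ hiP h)
          have h4 : i ∈ μ ⁻¹' P := hiP
          have h5 : i ∉ μ ⁻¹' {a | -a ∈ P} := h3
          rw [Set.indicator_of_mem h4, Set.indicator_of_notMem h5, Nat.sub_self]
        · have h3 : -(μ i) ∈ P := (hP.2.2 _).resolve_left hiP
          have h4 : i ∉ μ ⁻¹' P := hiP
          have h5 : i ∈ μ ⁻¹' {a | -a ∈ P} := h3
          rw [Set.indicator_of_notMem h4, Set.indicator_of_mem h5, Nat.sub_zero]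
  refine hX (Nat.RecursiveIn.partrec_of_oracle ?_ (RecursiveIn.iff_nat.1 hXQ))
  intro g hg
  rw [Set.mem_singleton_iff] at hg
  rw [hg]
  exact Partrec.nat_iff.1 hQc

end Pool.Agent.Helper70.OD
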