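import Pool.Agent.Helper70.Base

/-! Computability toolkit: c.e. relations with automation. -/

namespace Pool.Agent.Helper70.OD

open Encodable

attribute [fun_prop] Primrec
attribute [fun_prop] Primrec.id Primrec.const Primrec.comp Primrec.pair Primrec.fst Primrec.snd

section prim
variable {α β γ σ : Type} [Primcodable α] [Primcodable β] [Primcodable γ] [Primcodable σ]

@[fun_prop] theorem P_fst {f : α → β × γ} (h : Primrec f) : Primrec (fun a => (f a).1) :=
  Primrec.fst.comp h
@[fun_prop] theorem P_snd {f : α → β × γ} (h : Primrec f) : Primrec (fun a => (f a).2) :=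
  Primrec.snd.comp h
@[fun_prop] theorem P_add {f g : α → ℕ} (h : Primrec f) (h' : Primrec g) :
    Primrec (fun a => f a + g a) := Primrec.nat_add.comp h h'
@[fun_prop] theorem P_mul {f g : α → ℕ} (h : Primrec f) (h' : Primrec g) :
    Primrec (fun a => f a * g a) := Primrec.nat_mul.comp h h'
@[fun_prop] theorem P_sub {f g : α → ℕ} (h : Primrec f) (h' : Primrec g) :
    Primrec (fun a => f a - g a) := Primrec.nat_sub.comp h h'
@[fun_prop] theorem P_div {f g : α → ℕ} (h : Primrec f) (h' : Primrec g) :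
    Primrec (fun a => f a / g a) := Primrec.nat_div.comp h h'
@[fun_prop] theorem P_mod {f g : α → ℕ} (h : Primrec f) (h' : Primrec g) :
    Primrec (fun a => f a % g a) := Primrec.nat_mod.comp h h'
@[fun_prop] theorem P_max {f g : α → ℕ} (h : Primrec f) (h' : Primrec g) :
    Primrec (fun a => max (f a) (g a)) := Primrec.nat_max.comp h h'
@[fun_prop] theorem P_unpair {f : α → ℕ} (h : Primrec f) :
    Primrec (fun a => (f a).unpair) := Primrec.unpair.comp h
@[fun_prop] theorem P_encode {f : α → β} (h : Primrec f) :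
    Primrec (fun a => encode (f a)) := Primrec.encode.comp h
@[fun_prop] theorem P_decode {f : α → ℕ} (h : Primrec f) :
    Primrec (fun a => (decode (f a) : Option β)) := Primrec.decode.comp h
@[fun_prop] theorem P_some {f : α → β} (h : Primrec f) :
    Primrec (fun a => some (f a)) := Primrec.option_some.comp h
@[fun_prop] theorem P_cons {f : α → β} {g : α → List β} (h : Primrec f) (h' : Primrec g) :
    Primrec (fun a => f a :: g a) := Primrec.list_cons.comp h h'
@[fun_prop] theorem P_append {f g : α → List β} (h : Primrec f) (h' : Primrec g) :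
    Primrec (fun a => f a ++ g a) := Primrec.list_append.comp h h'
@[fun_prop] theorem P_length {f : α → List β} (h : Primrec f) :
    Primrec (fun a => (f a).length) := Primrec.list_length.comp h
@[fun_prop] theorem P_range {f : α → ℕ} (h : Primrec f) :
    Primrec (fun a => List.range (f a)) := Primrec.list_range.comp h
@[fun_prop] theorem P_reverse {f : α → List β} (h : Primrec f) :
    Primrec (fun a => (f a).reverse) := Primrec.list_reverse.comp h
@[fun_prop] theorem P_take {f : α → ℕ} {g : α → List β} (h : Primrec f) (h' : Primrec g) :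
    Primrec (fun a => List.take (f a) (g a)) := Primrec.list_take.comp h h'
@[fun_prop] theorem P_getElem? {f : α → List β} {g : α → ℕ} (h : Primrec f) (h' : Primrec g) :
    Primrec (fun a => (f a)[g a]?) := Primrec.list_getElem?.comp h h'
@[fun_prop] theorem P_getD {f : α → List β} {g : α → ℕ} {d : α → β} (h : Primrec f)
    (h' : Primrec g) (h'' : Primrec d) : Primrec (fun a => (f a).getD (g a) (d a)) := by
  simp only [List.getD_eq_getElem?_getD]
  exact Primrec.option_getD.comp (Primrec.list_getElem?.comp h h') h''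
@[fun_prop] theorem P_map {f : α → List β} {g : α → β → γ} (h : Primrec f)
    (h' : Primrec (fun p : α × β => g p.1 p.2)) :
    Primrec (fun a => (f a).map (fun b => g a b)) := Primrec.list_map h h'
@[fun_prop] theorem P_foldr {f : α → List β} {g : α → σ} {h : α → β → σ → σ}
    (hf : Primrec f) (hg : Primrec g)
    (hh : Primrec (fun p : α × (β × σ) => h p.1 p.2.1 p.2.2)) :
    Primrec (fun a => (f a).foldr (fun b s => h a b s) (g a)) :=
  Primrec.list_foldr (h := fun a p => h a p.1 p.2) hf hg hh
@[fun_prop] theorem P_set {f : α → List β} {g : α → ℕ} {d : α → β} (h : Primrec f)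
    (h' : Primrec g) (h'' : Primrec d) : Primrec (fun a => (f a).set (g a) (d a)) :=
  Primrec.list_set.comp (f := fun l (p : ℕ × β) => l.set p.1 p.2) h (h'.pair h'')
@[fun_prop] theorem P_filterMap {f : α → List β} {g : α → β → Option γ} (h : Primrec f)
    (h' : Primrec (fun p : α × β => g p.1 p.2)) :
    Primrec (fun a => (f a).filterMap (fun b => g a b)) := Primrec.listFilterMap h h'
@[fun_prop] theorem P_bnot {f : α → Bool} (h : Primrec f) : Primrec (fun a => !(f a)) :=
  Primrec.not.comp h
@[fun_prop] theorem P_cond {c : α → Bool} {f g : α → σ} (hc : Primrec c) (hf : Primrec f)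
    (hg : Primrec g) : Primrec (fun a => bif c a then f a else g a) := Primrec.cond hc hf hg

end prim

/-- c.e. relations -/
@[fun_prop]
def RE {α : Type} [Primcodable α] (R : α → Prop) : Prop := PC.re.S R

/-- bounded quantifier -/
def BAll (n : ℕ) (P : ℕ → Prop) : Prop := ∀ i < n, P i

/-- quantifier over a list -/
def LAll {β : Type} (l : List β) (P : β → Prop) : Prop := ∀ b ∈ l, P b

/-- quantifier over a list -/
def LEx {β : Type} (l : List β) (P : β → Prop) : Prop := ∃ b ∈ l, P b

section
variable {α β γ σ : Type} [Primcodable α] [Primcodable β] [Primcodable γ] [Primcodable σ]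

theorem RE.of_eq {R Q : α → Prop} (h : RE R) (H : ∀ a, Q a ↔ R a) : RE Q :=
  PC.of_eq h H

@[fun_prop] theorem RE.and {R Q : α → Prop} (h : RE R) (h' : RE Q) :
    RE (fun a => R a ∧ Q a) := PC.re.and h h'
@[fun_prop] theorem RE.or {R Q : α → Prop} (h : RE R) (h' : RE Q) :
    RE (fun a => R a ∨ Q a) := PC.re.or h h'
@[fun_prop] theorem RE.ex {R : α → β → Prop} (h : RE (fun p : α × β => R p.1 p.2)) :
    RE (fun a => ∃ b, R a b) := PC.ex' h
@[fun_prop] theorem RE.comp {R : β → Prop} {f : α → β} (h : RE R) (hf : Primrec f) :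
    RE (fun a => R (f a)) := PC.re.comp h hf
@[fun_prop] theorem RE.ball {R : α → ℕ → Prop} {f : α → ℕ} (hf : Primrec f)
    (h : RE (fun p : α × ℕ => R p.1 p.2)) : RE (fun a => BAll (f a) (fun i => R a i)) :=
  PC.ball' hf h
@[fun_prop] theorem RE.lall {R : α → β → Prop} {f : α → List β} (hf : Primrec f)
    (h : RE (fun p : α × β => R p.1 p.2)) : RE (fun a => LAll (f a) (fun i => R a i)) :=
  PC.ballList hf h
theorem RE.prim {R : α → Prop} (h : PrimrecPred R) : RE R := PC.re.prim h
@[fun_prop] theorem RE.lex {R : α → β → Prop} {f : α → List β} (hf : Primrec f)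
    (h : RE (fun p : α × β => R p.1 p.2)) : RE (fun a => LEx (f a) (fun i => R a i)) := by
  have : RE (fun a => ∃ n : ℕ, ∃ b : β, (f a)[n]? = some b ∧ R a b) := by
    refine RE.ex (R := fun (a : α) (n : ℕ) => ∃ b : β, (f a)[n]? = some b ∧ R a b) ?_
    refine RE.ex (R := fun (p : α × ℕ) (b : β) => (f p.1)[p.2]? = some b ∧ R p.1 b) ?_
    refine RE.and (RE.prim ?_) (by fun_prop)
    exact Primrec.eq.comp (by fun_prop) (by fun_prop)
  refine this.of_eq fun a => ?_
  constructor
  · rintro ⟨b, hb, h⟩
    obtain ⟨i, hi, rfl⟩ := List.getElem_of_mem hb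
    exact ⟨i, _, List.getElem?_eq_getElem hi, h⟩
  · rintro ⟨n, b, hb, h⟩
    exact ⟨b, List.mem_of_getElem? hb, h⟩

@[fun_prop] theorem RE.const (p : Prop) : RE (fun _ : α => p) := PC.const _ p
@[fun_prop] theorem RE.eq {f g : α → β} (h : Primrec f) (h' : Primrec g) :
    RE (fun a => f a = g a) := by
  classical
  exact RE.prim (Primrec.eq.comp h h')
@[fun_prop] theorem RE.ne {f g : α → β} (h : Primrec f) (h' : Primrec g) :
    RE (fun a => f a ≠ g a) := by
  classical
  exact RE.prim (PrimrecPred.not (Primrec.eq.comp h h'))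
@[fun_prop] theorem RE.lt {f g : α → ℕ} (h : Primrec f) (h' : Primrec g) :
    RE (fun a => f a < g a) := RE.prim (Primrec.nat_lt.comp h h')
@[fun_prop] theorem RE.le {f g : α → ℕ} (h : Primrec f) (h' : Primrec g) :
    RE (fun a => f a ≤ g a) := RE.prim (Primrec.nat_le.comp h h')
@[fun_prop] theorem RE.mem {f : α → β} {g : α → List β} (h : Primrec f) (h' : Primrec g) :
    RE (fun a => f a ∈ g a) := by
  have : RE (fun a => LEx (g a) (fun b => b = f a)) := by fun_prop
  exact this.of_eq fun a => by simp [LEx]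

/-- conjunction with a fixed finite family -/
theorem RE.fin_all {ι : Type*} [Finite ι] {R : ι → α → Prop} (h : ∀ i, RE (R i)) :
    RE (fun a => ∀ i, R i a) := PC.allFin h

/-- Partial uniformization. -/
theorem RE.unif {R : α → β → Prop} (h : RE (fun p : α × β => R p.1 p.2)) :
    ∃ F : α → β → Prop, RE (fun p : α × β => F p.1 p.2) ∧ (∀ a b, F a b → R a b) ∧
      (∀ a b b', F a b → F a b' → b = b') ∧ (∀ a, (∃ b, R a b) → ∃ b, F a b) := by
  classical
  obtain ⟨K, hK, hKR⟩ := h
  have hKc : RE K := RE.prim hK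
  obtain ⟨Kn, hKn, hKn'⟩ : ∃ Kn : (α × β) × ℕ → Prop, RE Kn ∧ ∀ p, Kn p ↔ ¬ K p :=
    ⟨fun p => ¬ K p, RE.prim hK.not, fun _ => Iff.rfl⟩
  let E : α → ℕ → β → Prop := fun a s b => ∃ k, decode (α := β × ℕ) s = some (b, k) ∧ K ((a, b), k)
  let F : α → β → Prop := fun a b => ∃ s, E a s b ∧ ∀ s' < s, ∀ b', ¬ E a s' b'
  refine ⟨F, ?_, ?_, ?_, ?_⟩
  · have h1 : RE (fun p : α × β => ∃ s : ℕ, (∃ k : ℕ,
        (decode (α := β × ℕ) s = some (p.2, k) ∧ K ((p.1, p.2), k))) ∧
        BAll s (fun s' => decode (α := β × ℕ) s' = none ∨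
          ∃ bk : β × ℕ, decode (α := β × ℕ) s' = some bk ∧ Kn ((p.1, bk.1), bk.2))) := by
      fun_prop
    refine h1.of_eq fun p => ?_
    simp only [hKn']
    refine exists_congr fun s => and_congr Iff.rfl ?_
    unfold BAll
    refine forall₂_congr fun s' _ => ?_
    constructor
    · intro H
      rcases hd : decode (α := β × ℕ) s' with _ | ⟨b, k⟩
      · exact Or.inl hd
      · exact Or.inr ⟨(b, k), hd, fun hk => H b ⟨k, hd, hk⟩⟩
    · rintro (h | ⟨bk, h, h'⟩) b' ⟨k', h'', h3⟩
      · rw [h] at h''; cases h''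
      · rw [h] at h''; cases h''; exact h' h3
  · rintro a b ⟨s, ⟨k, _, hk⟩, _⟩
    exact (hKR (a, b)).2 ⟨k, hk⟩
  · rintro a b b' ⟨s, h1, h2⟩ ⟨s', h1', h2'⟩
    rcases lt_trichotomy s s' with hlt | rfl | hlt
    · exact absurd h1 (h2' s hlt b)
    · obtain ⟨k, h3, _⟩ := h1
      obtain ⟨k', h3', _⟩ := h1'
      rw [h3] at h3'; cases h3'; rfl
    · exact absurd h1' (h2 s' hlt b')
  · rintro a ⟨b, hb⟩
    obtain ⟨k, hk⟩ := (hKR (a, b)).1 hb
    have hex : ∃ s, ∃ b, E a s b := ⟨encode (b, k), b, k, by simp, hk⟩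
    obtain ⟨b', hb'⟩ := Nat.find_spec hex
    refine ⟨b', Nat.find hex, hb', fun s' hs' b'' hb'' => ?_⟩
    exact Nat.find_min hex hs' ⟨b'', hb''⟩

/-- Iteration of a c.e. step relation. -/
theorem RE.iterate {R : ℕ → σ → σ → Prop} (h : RE (fun p : ℕ × σ × σ => R p.1 p.2.1 p.2.2))
    (Inv : ℕ → σ → Prop) (s0 : σ) (h0 : Inv 0 s0)
    (hex : ∀ n s, Inv n s → ∃ s', R n s s')
    (hinv : ∀ n s s', Inv n s → R n s s' → Inv (n + 1) s') :
    ∃ f : ℕ → σ, RE (fun p : ℕ × σ => f p.1 = p.2) ∧ f 0 = s0 ∧
      ∀ n, Inv n (f n) ∧ R n (f n) (f (n + 1)) := by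
  classical
  obtain ⟨F, hF, hFR, hFu, hFt⟩ := RE.unif (R := fun (a : ℕ × σ) (b : σ) => R a.1 a.2 b)
    (by fun_prop)
  let f : ℕ → {p : σ // True} := fun n => ⟨Nat.rec s0 (fun n s =>
    if h : ∃ b, F (n, s) b then h.choose else s) n, trivial⟩
  have hf0 : (f 0).1 = s0 := rfl
  have hfs : ∀ n, (f (n + 1)).1 = if h : ∃ b, F (n, (f n).1) b then h.choose else (f n).1 :=
    fun n => rfl
  have hI : ∀ n, Inv n (f n).1 := by
    intro n
    induction n with
    | zero => exact h0
    | succ n ih =>
      obtain ⟨b, hb⟩ := hex n _ ih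
      have h1 : ∃ b, F (n, (f n).1) b := hFt (n, (f n).1) ⟨b, hb⟩
      rw [hfs, dif_pos h1]
      exact hinv n _ _ ih (hFR (n, (f n).1) _ h1.choose_spec)
  have hstep : ∀ n, F (n, (f n).1) (f (n + 1)).1 := by
    intro n
    obtain ⟨b, hb⟩ := hex n _ (hI n)
    have h1 : ∃ b, F (n, (f n).1) b := hFt (n, (f n).1) ⟨b, hb⟩
    have := h1.choose_spec
    rw [hfs, dif_pos h1]
    exact this
  refine ⟨fun n => (f n).1, ?_, hf0, fun n => ⟨hI n, hFR _ _ (hstep n)⟩⟩
  have h1 : RE (fun p : ℕ × σ => ∃ L : List σ, L[0]? = some s0 ∧ L[p.1]? = some p.2 ∧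
      BAll p.1 (fun i => ∃ a b : σ, L[i]? = some a ∧ L[i + 1]? = some b ∧ F (i, a) b)) := by
    fun_prop
  refine h1.of_eq fun ⟨n, x⟩ => ?_
  simp only
  constructor
  · rintro rfl
    refine ⟨(List.range (n + 1)).map (fun i => (f i).1), ?_, ?_, ?_⟩
    · simp [hf0]
    · simp
    · intro i hi
      refine ⟨(f i).1, (f (i + 1)).1, ?_, ?_, hstep i⟩
      · simp [List.getElem?_map, List.getElem?_range (show i < n + 1 by omega)]
      · simp [List.getElem?_map, List.getElem?_range (show i + 1 < n + 1 by omega)]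
  · rintro ⟨L, h1, h2, h3⟩
    have key : ∀ i ≤ n, L[i]? = some (f i).1 := by
      intro i hi
      induction i with
      | zero => rw [h1, hf0]
      | succ i ih =>
        obtain ⟨a, b, h4, h5, h6⟩ := h3 i (by omega)
        rw [ih (by omega)] at h4
        cases h4
        rw [h5, hFu _ _ _ h6 (hstep i)]
    have := key n le_rfl
    rw [h2] at this
    cases this; rfl

/-- A total function with c.e. graph is computable. -/
theorem computable_of_RE {f : α → β} (h : RE (fun p : α × β => f p.1 = p.2)) :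
    Computable f := by
  classical
  obtain ⟨K, hK, hKh⟩ := h
  have h1 : Computable₂ (fun (n : α) (s : ℕ) => ((decode (α := β × ℕ) s).bind
      (fun q => if K ((n, q.1), q.2) then some q.1 else none) : Option β)) := by
    apply Primrec₂.to_comp
    refine Primrec.option_bind (Primrec.decode.comp Primrec.snd) ?_
    refine Primrec.ite ?_ (Primrec.option_some.comp (Primrec.fst.comp Primrec.snd))
      (Primrec.const none)
    exact PrimrecPred.comp (f := fun q : (α × ℕ) × (β × ℕ) => ((q.1.1, q.2.1), q.2.2)) hK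
      (((Primrec.fst.comp Primrec.fst).pair (Primrec.fst.comp Primrec.snd)).pair
        (Primrec.snd.comp Primrec.snd))
  have h2 := Partrec.rfindOpt h1
  refine h2.of_eq_tot fun n => ?_
  have hdom : (Nat.rfindOpt (fun s => ((decode (α := β × ℕ) s).bind
      (fun q => if K ((n, q.1), q.2) then some q.1 else none) : Option β))).Dom := by
    rw [Nat.rfindOpt_dom]
    obtain ⟨k, hk⟩ := (hKh (n, f n)).1 rfl
    exact ⟨encode (f n, k), f n, by simp [hk]⟩
  obtain ⟨b, hb⟩ := Part.dom_iff_mem.1 hdom
  obtain ⟨s, hs⟩ := Nat.rfindOpt_spec hb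
  have : f n = b := by
    rcases hd : decode (α := β × ℕ) s with _ | ⟨b', k⟩
    · rw [hd] at hs; simp at hs
    · rw [hd] at hs
      simp only [Option.bind_some, Option.mem_def] at hs
      split_ifs at hs with hk
      obtain rfl : b' = b := by simpa using hs
      exact (hKh (n, b')).2 ⟨k, hk⟩
  rw [this]; exact hb

/-- The graph of a computable function is c.e. -/
theorem RE_of_computable {f : α → β} (h : Computable f) :
    RE (fun p : α × β => f p.1 = p.2) := by
  classical
  obtain ⟨c, hc⟩ := Nat.Partrec.Code.exists_code.1 h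
  have h1 : RE (fun p : α × β => ∃ k : ℕ,
      Nat.Partrec.Code.evaln k c (encode p.1) = some (encode p.2)) := by
    refine RE.ex (R := fun (p : α × β) (k : ℕ) =>
      Nat.Partrec.Code.evaln k c (encode p.1) = some (encode p.2)) ?_
    refine RE.prim (Primrec.eq.comp ?_ (by fun_prop))
    exact Nat.Partrec.Code.primrec_evaln.comp
      ((Primrec.snd.pair (Primrec.const c)).pair (by fun_prop))
  refine h1.of_eq fun ⟨a, b⟩ => ?_
  simp only
  have h2 : Nat.Partrec.Code.eval c (encode a) = Part.some (encode (f a)) := by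
    rw [hc]; simp
  constructor
  · rintro rfl
    have : encode (f a) ∈ Nat.Partrec.Code.eval c (encode a) := by rw [h2]; simp
    obtain ⟨k, hk⟩ := Nat.Partrec.Code.evaln_complete.1 this
    exact ⟨k, hk⟩
  · rintro ⟨k, hk⟩
    have := Nat.Partrec.Code.evaln_sound hk
    rw [h2] at this
    simp at this
    exact this.symm

/-- substitution of a computable function -/
theorem RE.subst {R : β → Prop} {f : α → β} (hR : RE R) (hf : RE (fun p : α × β => f p.1 = p.2)) :
    RE (fun a => R (f a)) := by
  have : RE (fun a => ∃ b, f a = b ∧ R b) := by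
    refine RE.ex (R := fun a b => f a = b ∧ R b) (RE.and hf (by fun_prop))
  exact this.of_eq fun a => by simp

/-- all objects with small codes -/
def cand (β : Type) [Primcodable β] (n : ℕ) : List β := (List.range n).filterMap decode

@[fun_prop] theorem P_cand {f : α → ℕ} (h : Primrec f) : Primrec (fun a => cand β (f a)) := by
  unfold cand; fun_prop

theorem mem_cand {b : β} {n : ℕ} (h : encode b < n) : b ∈ cand β n := by
  unfold cand
  rw [List.mem_filterMap]
  exact ⟨encode b, by simpa using h, by simp⟩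

end

end Pool.Agent.Helper70.OD
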